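import Pool.Agent.Helper29.RH.Mean

/-! The maximal virtually solvable subgroups of a convergence group. -/

set_option autoImplicit false
set_option linter.unusedSectionVars false
set_option linter.style.haveILetI false

namespace Pool.Agent.Helper29.RH

open Filter Topology Set MulAction
open Pool.Agent.W726.NS (ConvergenceAction)

variable {G X : Type} [Group G] [TopologicalSpace X] [CompactSpace X] [T2Space X] [MulAction G X]

theorem VSo.mono {H K : Subgroup G} (h : VSo K) (hHK : H ≤ K) : VSo H := by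
  obtain ⟨S, hS, hSs⟩ := h
  refine ⟨S.comap (Subgroup.inclusion hHK), ⟨?_⟩, ?_⟩
  · rw [Subgroup.index_comap]
    haveI : (S.subgroupOf (Subgroup.inclusion hHK).range).FiniteIndex := inferInstance
    exact this.index_ne_zero
  · have := hSs
    exact Group.isSolvable_of_isSolvable_injective
      (f := ((Subgroup.inclusion hHK).subgroupComap S)) fun x y hxy => by
        have := congrArg Subtype.val hxy
        exact Subtype.ext (Subgroup.inclusion_injective hHK this)

theorem VSo.of_relIndex {H K : Subgroup G} (h : VSo H) (hHK : H.relIndex K ≠ 0) : VSo K := by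
  have h' : VSo (H ⊓ K) := h.mono inf_le_left
  obtain ⟨S, hS, hSs⟩ := h'
  refine ⟨(S.map (H ⊓ K).subtype).subgroupOf K, ⟨?_⟩, ?_⟩
  · have h1 : (S.map (H ⊓ K).subtype).relIndex (H ⊓ K) ≠ 0 := by
      rw [Subgroup.relIndex, Subgroup.subgroupOf,
        Subgroup.comap_map_eq_self_of_injective (H ⊓ K).subtype_injective]
      exact hS.index_ne_zero
    have h2 : (H ⊓ K).relIndex K ≠ 0 := by
      rw [Subgroup.inf_relIndex_right]
      exact hHK
    exact Subgroup.relIndex_ne_zero_trans h1 h2
  · have h3 : Group.IsSolvable (S.map (H ⊓ K).subtype) :=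
      Group.isSolvable_of_surjective ((H ⊓ K).subtype.subgroupMap_surjective S)
    have h4 : S.map (H ⊓ K).subtype ≤ K := by
      rintro _ ⟨x, -, rfl⟩
      exact x.2.2
    exact Group.isSolvable_of_isSolvable_injective
      (f := (Subgroup.subgroupOfEquivOfLe h4).toMonoidHom) (Subgroup.subgroupOfEquivOfLe h4).injective

theorem VSo.map {H : Subgroup G} (h : VSo H) (σ : MulAut G) : VSo (H.map σ.toMonoidHom) := by
  obtain ⟨S, hS, hSs⟩ := h
  let e : H ≃* H.map σ.toMonoidHom := H.equivMapOfInjective σ.toMonoidHom σ.injective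
  refine ⟨S.map e.toMonoidHom, ⟨?_⟩, ?_⟩
  · rw [Subgroup.index_map_of_bijective e.bijective]
    exact hS.index_ne_zero
  · exact Group.isSolvable_of_surjective (e.toMonoidHom.subgroupMap_surjective S)

/-- the maximal virtually solvable subgroups -/
def EE (G X : Type) [Group G] [MulAction G X] : Set (Subgroup G) :=
  {E | ∃ p : X, (stabilizer G p : Set G).Infinite ∧ E = Subgroup.normalizer (stabilizer G p : Set G)}

theorem mem_norm {p : X} {g : G} :
    g ∈ Subgroup.normalizer (stabilizer G p : Set G) ↔ stabilizer G (g • p) = stabilizer G p := by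
  rw [Subgroup.mem_normalizer_iff_map_conj_eq, stabilizer_smul_eq_stabilizer_map_conj]
  rfl

theorem relIndex_mono {K H L : Subgroup G} (h : K.relIndex H ≠ 0) (hL : L ≤ H) :
    K.relIndex L ≠ 0 := fun h1 => h (Subgroup.relIndex_eq_zero_of_le_right hL h1)

/-- the points with the same infinite stabiliser are finitely many -/
theorem fin_same (hG : ConvergenceAction G X) {p : X} (hp : (stabilizer G p : Set G).Infinite) :
    {q : X | stabilizer G q = stabilizer G p}.Finite := by
  classical
  by_contra hF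
  obtain ⟨t, ht, hc⟩ := Set.Infinite.exists_subset_card_eq hF 3
  obtain ⟨a, b, c, hab, hac, hbc, rfl⟩ := Finset.card_eq_three.1 hc
  have ha : stabilizer G a = stabilizer G p := ht (by simp)
  have hb : stabilizer G b = stabilizer G p := ht (by simp)
  have hc : stabilizer G c = stabilizer G p := ht (by simp)
  exact no_three hG hp hab hac hbc ha.ge hb.ge hc.ge

theorem stab_relIndex (hG : ConvergenceAction G X) {p : X}
    (hp : (stabilizer G p : Set G).Infinite) :
    (stabilizer G p).relIndex (Subgroup.normalizer (stabilizer G p : Set G)) ≠ 0 := by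
  set E := Subgroup.normalizer (stabilizer G p : Set G) with hE
  rw [Subgroup.relIndex]
  have e : (stabilizer G p).subgroupOf E = stabilizer E p := by
    ext x
    rfl
  rw [e, MulAction.index_stabilizer]
  have h2 : (orbit E p).Finite := by
    refine (fin_same hG hp).subset ?_
    rintro _ ⟨s, rfl⟩
    exact mem_norm.1 s.2
  exact ((Set.ncard_pos h2).2 (MulAction.nonempty_orbit p)).ne'

theorem EE_max' (hG : ConvergenceAction G X) [Infinite X] {E H : Subgroup G} (hE : E ∈ EE G X)
    (hH : ∃ p' : X, (stabilizer G p').relIndex H ≠ 0)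
    (hi : ((H ⊓ E : Subgroup G) : Set G).Infinite) : H ≤ E := by
  obtain ⟨p, hp, rfl⟩ := hE
  set E := Subgroup.normalizer (stabilizer G p : Set G) with hE
  have h1 : (stabilizer G p).relIndex (H ⊓ E) ≠ 0 := relIndex_mono (stab_relIndex hG hp) inf_le_right
  have h2 := inf_of_relIndex hi h1
  have hHi : (H : Set G).Infinite := hi.mono inf_le_left
  obtain ⟨p', hp'⟩ := hH
  have h3 : (stabilizer G p').relIndex (stabilizer G p ⊓ (H ⊓ E)) ≠ 0 :=
    relIndex_mono hp' (inf_le_right.trans inf_le_left)
  have h4 := inf_of_relIndex h2 h3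
  have h5 : stabilizer G p' = stabilizer G p := stab_eq hG (h4.mono fun x hx => ⟨hx.1, hx.2.1⟩)
  intro h hh
  have h6 : (stabilizer G (h • p')).relIndex H ≠ 0 := by
    have hHh : H.map (MulAut.conj h).toMonoidHom = H := by
      have : h ∈ Subgroup.normalizer (H : Set G) := Subgroup.le_normalizer hh
      exact Subgroup.mem_normalizer_iff_map_conj_eq.1 this
    rw [stabilizer_smul_eq_stabilizer_map_conj]
    conv_lhs => rw [← hHh]
    rw [Subgroup.relIndex_map_map_of_injective _ _ (MulAut.conj h).injective]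
    exact hp'
  have h7 := inf_of_relIndex hHi (Subgroup.relIndex_inf_ne_zero h6 hp')
  have h8 : stabilizer G (h • p') = stabilizer G p' := stab_eq hG (h7.mono fun x hx => hx.1)
  have h9 : h ∈ Subgroup.normalizer (stabilizer G p' : Set G) := mem_norm.2 h8
  rw [h5] at h9
  exact h9

theorem EE_max (hG : ConvergenceAction G X) [Infinite X] {E H : Subgroup G} (hE : E ∈ EE G X)
    (hH : VSo H) (hi : ((H ⊓ E : Subgroup G) : Set G).Infinite) : H ≤ E :=
  EE_max' hG hE (exists_fix hG hH (hi.mono inf_le_left)) hi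

theorem EE_inf {E : Subgroup G} (hE : E ∈ EE G X) : (E : Set G).Infinite := by
  obtain ⟨p, hp, rfl⟩ := hE
  exact hp.mono Subgroup.le_normalizer

theorem EE_vso (hG : ConvergenceAction G X) (hst : ∀ p : X, VSo (stabilizer G p)) {E : Subgroup G}
    (hE : E ∈ EE G X) : VSo E := by
  obtain ⟨p, hp, rfl⟩ := hE
  exact (hst p).of_relIndex (stab_relIndex hG hp)

theorem EE_cover (hG : ConvergenceAction G X) [Infinite X] {K : Subgroup G} (hK : VSo K)
    (hi : (K : Set G).Infinite) : ∃ E ∈ EE G X, K ≤ E := by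
  obtain ⟨p, hp⟩ := exists_fix hG hK hi
  have h1 := inf_of_relIndex hi hp
  have h2 : (stabilizer G p : Set G).Infinite := h1.mono fun x hx => hx.1
  refine ⟨_, ⟨p, h2, rfl⟩, EE_max hG ⟨p, h2, rfl⟩ hK (h1.mono fun x hx => ⟨hx.2, ?_⟩)⟩
  exact Subgroup.le_normalizer hx.1

theorem EE_eq (hG : ConvergenceAction G X) [Infinite X] (hst : ∀ p : X, VSo (stabilizer G p))
    {E E' : Subgroup G} (hE : E ∈ EE G X) (hE' : E' ∈ EE G X)
    (hi : ((E ⊓ E' : Subgroup G) : Set G).Infinite) : E = E' :=
  le_antisymm (EE_max hG hE' (EE_vso hG hst hE) hi)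
    (EE_max hG hE (EE_vso hG hst hE') (by rw [inf_comm]; exact hi))

theorem EE_map (hG : ConvergenceAction G X) [Infinite X] (hst : ∀ p : X, VSo (stabilizer G p))
    {E : Subgroup G} (hE : E ∈ EE G X) (σ : MulAut G) : E.map σ.toMonoidHom ∈ EE G X := by
  have h1 : ((E.map σ.toMonoidHom : Subgroup G) : Set G).Infinite := by
    rw [Subgroup.coe_map]
    exact (EE_inf hE).image σ.injective.injOn
  obtain ⟨E', hE', h2⟩ := EE_cover hG ((EE_vso hG hst hE).map σ) h1
  have h3 : E'.map σ⁻¹.toMonoidHom ≤ E := by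
    refine EE_max hG hE ((EE_vso hG hst hE').map σ⁻¹) ((EE_inf hE).mono fun x hx => ⟨?_, hx⟩)
    exact ⟨σ x, h2 ⟨x, hx, rfl⟩, MulAut.inv_apply_self _ σ x⟩
  have h4 : E.map σ.toMonoidHom = E' := by
    refine le_antisymm h2 fun x hx => ⟨σ⁻¹ x, h3 ⟨x, hx, rfl⟩, MulAut.apply_inv_self _ σ x⟩
  rw [h4]
  exact hE'

end Pool.Agent.Helper29.RH
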