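import Pool.Agent.Helper29.RH.Tame
import Pool.Agent.Helper29.RH.Max

/-! Virtually solvable groups: extensions and finite families of quotients. -/

set_option autoImplicit false
set_option linter.unusedSectionVars false
set_option linter.style.haveILetI false

open Subgroup
open scoped commutatorElement

namespace Pool.Agent.Helper29.RH

/-- `G` has a solvable subgroup of finite index -/
def VSg (G : Type) [Group G] : Prop := ∃ S : Subgroup G, S.FiniteIndex ∧ Group.IsSolvable S

/-- **Extensions of virtually solvable groups by solvable groups are virtually solvable.** -/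
theorem vsg_ext {G : Type} [Group G] (K : Subgroup G) [K.Normal] (hK : VSg K)
    (hQ : Group.IsSolvable (G ⧸ K)) : VSg G := by
  classical
  obtain ⟨S, hS, hSs⟩ := hK
  obtain ⟨R, hRn, hRs, hRf, hR⟩ := Pool.Agent.Helper29.VS.exists_rad' hS hSs
  -- `R` as a subgroup of `G`
  set R' : Subgroup G := R.map K.subtype with hR'
  have hRK : R' ≤ K := by
    rintro _ ⟨x, -, rfl⟩
    exact x.2
  haveI hR'n : R'.Normal := by
    refine ⟨?_⟩
    rintro _ ⟨x, hx, rfl⟩ g
    refine ⟨(MulAut.conjNormal g : MulAut K) x, ?_, MulAut.conjNormal_apply g x⟩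
    rw [← hR (MulAut.conjNormal g)]
    exact ⟨x, hx, rfl⟩
  have hR's : Group.IsSolvable R' := Group.isSolvable_of_surjective (K.subtype.subgroupMap_surjective R)
  -- the finite normal subgroup `K / R` of `G / R`
  set π := QuotientGroup.mk' R' with hπ
  set F : Subgroup (G ⧸ R') := K.map π with hF
  haveI hFn : F.Normal := (inferInstance : K.Normal).map π (QuotientGroup.mk'_surjective _)
  haveI hFf : Finite F := by
    have h1 : Finite (K ⧸ R) := inferInstance
    have h2 : ∀ x y : K, x⁻¹ * y ∈ R → π x = π y := by
      intro x y hxy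
      rw [hπ, QuotientGroup.mk'_apply, QuotientGroup.mk'_apply, QuotientGroup.eq]
      exact ⟨_, hxy, rfl⟩
    refine Finite.of_surjective (fun q : K ⧸ R => Quotient.liftOn' q
      (fun x : K => (⟨π x, ⟨x, x.2, rfl⟩⟩ : F)) fun x y hxy => Subtype.ext
        (h2 x y (QuotientGroup.leftRel_apply.1 hxy))) ?_
    rintro ⟨_, x, hx, rfl⟩
    exact ⟨QuotientGroup.mk ⟨x, hx⟩, rfl⟩
  -- its centraliser
  set C : Subgroup (G ⧸ R') := centralizer (F : Set (G ⧸ R')) with hC
  have hCi : C.FiniteIndex := by
    have h1 : C = (MulAut.conjNormal : (G ⧸ R') →* MulAut F).ker := by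
      ext x
      rw [hC, mem_centralizer_iff, MonoidHom.mem_ker]
      constructor
      · intro h
        ext y
        rw [MulAut.conjNormal_apply]
        rw [← h y y.2, mul_inv_cancel_right]
        rfl
      · intro h y hy
        have h2 := MulAut.conjNormal_apply x (⟨y, hy⟩ : F)
        rw [h] at h2
        have h3 : y = x * y * x⁻¹ := h2
        calc y * x = (x * y * x⁻¹) * x := by rw [← h3]
          _ = x * y := by group
    rw [h1]
    haveI : Finite (MulAut F) := inferInstance
    infer_instance
  refine ⟨C.comap π, ?_, ?_⟩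
  · refine ⟨?_⟩
    rw [index_comap_of_surjective _ (QuotientGroup.mk'_surjective _)]
    exact hCi.index_ne_zero
  · -- solvability of `C.comap π`
    set D := C.comap π with hD
    -- first quotient: `D / (D ∩ K)` embeds in `G / K`
    have s1 : Group.IsSolvable (K.subgroupOf D) := by
      -- `[D ∩ K, D ∩ K] ≤ R'`
      have h1 : ⁅K ⊓ D, K ⊓ D⁆ ≤ R' := by
        rw [commutator_le]
        rintro a ⟨haK, -⟩ b ⟨-, hbD⟩
        rw [← QuotientGroup.ker_mk' R', MonoidHom.mem_ker, map_commutatorElement,
          commutatorElement_eq_one_iff_mul_comm]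
        have hbD' : π b ∈ C := hbD
        exact (mem_centralizer_iff.1 hbD' (π a) ⟨a, haK, rfl⟩)
      have h2 : Group.IsSolvable (K ⊓ D : Subgroup G) := by
        have h3 : Group.IsSolvable (⁅K ⊓ D, K ⊓ D⁆ : Subgroup G) :=
          Group.isSolvable_of_isSolvable_injective (inclusion_injective h1)
        obtain ⟨d, hd⟩ := Pool.Agent.Helper29.NU.RR_bot h3
        rw [Group.isSolvable_def]
        refine ⟨d + 1, ?_⟩
        have h4 : ∀ i, (derivedSeries (K ⊓ D : Subgroup G) (i + 1)).map (K ⊓ D).subtype =
            Pool.Agent.Helper29.NU.RR ⁅K ⊓ D, K ⊓ D⁆ i := by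
          intro i
          induction i with
          | zero =>
            rw [derivedSeries_succ, derivedSeries_zero, Subgroup.map_commutator,
              ← MonoidHom.range_eq_map, Subgroup.range_subtype]
            rfl
          | succ i ih =>
            rw [derivedSeries_succ, Subgroup.map_commutator, ih]
            rfl
        have h5 := h4 d
        rw [hd, Subgroup.map_eq_bot_iff_of_injective _ (K ⊓ D).subtype_injective] at h5
        exact h5
      refine Group.isSolvable_of_isSolvable_injective
        (f := ({ toFun := fun x => ⟨x.1.1, x.2, x.1.2⟩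
                 map_one' := rfl
                 map_mul' := fun _ _ => rfl } : K.subgroupOf D →* (K ⊓ D : Subgroup G)))
        fun x y hxy => ?_
      have := congrArg Subtype.val hxy
      exact Subtype.ext (Subtype.ext this)
    have s2 : Group.IsSolvable (D ⧸ K.subgroupOf D) := by
      have hinj : Function.Injective (QuotientGroup.map (K.subgroupOf D) K D.subtype le_rfl) := by
        rw [← MonoidHom.ker_eq_bot_iff, eq_bot_iff]
        intro x hx
        obtain ⟨y, rfl⟩ := QuotientGroup.mk_surjective x
        rw [MonoidHom.mem_ker] at hx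
        have h2 : (QuotientGroup.mk (y : G) : G ⧸ K) = 1 := hx
        rw [QuotientGroup.eq_one_iff] at h2
        rw [mem_bot, QuotientGroup.eq_one_iff]
        exact h2
      exact Group.isSolvable_of_isSolvable_injective hinj
    haveI := s1
    haveI := s2
    exact Group.isSolvable_of_ker_le_range (K.subgroupOf D).subtype (QuotientGroup.mk' (K.subgroupOf D))
      (by rw [QuotientGroup.ker_mk', Subgroup.range_subtype])

end Pool.Agent.Helper29.RH
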