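import Pool.Graph.R_seed8.W726.NS.Blocks
import Pool.Agent.Helper29.NU.Cst

/-! Scattered elements and tame unitaries. -/

set_option autoImplicit false
set_option linter.unusedSectionVars false
set_option linter.style.haveILetI false

namespace Pool.Agent.Helper29.RH

open Finset Filter Topology
open Pool.Agent.Helper188.NCM (mob norm_mob_le norm_iter_le)
open Pool.Agent.TH261.AB (Good vav)
open Pool.Agent.TH261.NP (Eig Prods)
open Pool.Agent.Helper29.NU (NilU)

variable {U : Type} [CStarAlgebra U]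

/-- all averages of the orbit with bounded weights are small -/
def Scat (α : U →⋆ₐ[ℂ] U) (x : U) : Prop :=
  ∀ ε : ℝ, 0 < ε → ∃ N₀ : ℕ, ∀ N : ℕ, N₀ ≤ N → ∀ c : ℕ → ℂ, (∀ n, ‖c n‖ ≤ 1) →
    ‖∑ n ∈ range N, c n • (α^[n]) x‖ ≤ ε * N

theorem scat_of_blocks (α : U →⋆ₐ[ℂ] U) (x : U) (hx : ‖x‖ ≤ 1)
    (h : ∀ M : ℕ, ∃ n : Fin M → ℕ, ∀ c : Fin M → ℂ, (∀ k, ‖c k‖ ≤ 1) →
      ‖∑ k, c k • (α^[n k]) x‖ ≤ 4 * Real.sqrt M) : Scat α x := by
  intro ε hε
  obtain ⟨M, hM⟩ := exists_nat_ge ((8 / ε) ^ 2 + 1)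
  have hMpos : (0 : ℝ) < M := lt_of_lt_of_le (by positivity) hM
  have hsq : 8 / ε ≤ Real.sqrt M := by
    apply Real.le_sqrt_of_sq_le
    linarith
  obtain ⟨n, hn⟩ := h M
  obtain ⟨B, hB⟩ : ∃ B : ℕ, ∀ k, n k ≤ B :=
    ⟨Finset.univ.sup n, fun k => Finset.le_sup (f := n) (mem_univ k)⟩
  obtain ⟨N₀, hN₀⟩ := exists_nat_ge (4 * B / ε)
  refine ⟨N₀, fun N hN w hw => ?_⟩
  set a : ℕ → U := fun m => w m • (α^[m]) x with ha
  have ha1 : ∀ m, ‖a m‖ ≤ 1 := by
    intro m
    rw [ha]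
    simp only [norm_smul]
    calc ‖w m‖ * ‖(α^[m]) x‖ ≤ 1 * 1 := by
          gcongr
          · exact hw m
          · exact (norm_iter_le α m x).trans hx
      _ = 1 := one_mul 1
  have hiter : ∀ (m : ℕ) (c : Fin M → ℂ), ∑ k, c k • (α^[m]) ((α^[n k]) x) =
      (α^[m]) (∑ k, c k • (α^[n k]) x) := by
    intro m c
    induction m with
    | zero => simp
    | succ m ih =>
      simp only [Function.iterate_succ_apply'] at ih ⊢
      rw [← ih, map_sum]
      exact sum_congr rfl fun k _ => by rw [map_smul]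
  have hblock : ∀ m : ℕ, ‖∑ k, a (m + n k)‖ ≤ 4 * Real.sqrt M := by
    intro m
    have e : ∑ k, a (m + n k) = (α^[m]) (∑ k, w (m + n k) • (α^[n k]) x) := by
      rw [← hiter]
      refine sum_congr rfl fun k _ => ?_
      rw [ha]
      simp only
      rw [Function.iterate_add_apply]
    rw [e]
    exact (norm_iter_le α m _).trans (hn _ fun k => hw _)
  set S : U := ∑ m ∈ range N, a m with hS
  have h1 : (M : ℂ) • S = ∑ k : Fin M, (∑ m ∈ range N, a m - ∑ m ∈ range N, a (m + n k)) +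
      ∑ m ∈ range N, ∑ k, a (m + n k) := by
    rw [sum_sub_distrib, sum_comm (s := range N)]
    simp only [sub_add_cancel, sum_const, card_univ, Fintype.card_fin]
    rw [hS, ← Nat.cast_smul_eq_nsmul ℂ]
  have h2 : (M : ℝ) * ‖S‖ ≤ M * (2 * B) + N * (4 * Real.sqrt M) := by
    have e : (M : ℝ) * ‖S‖ = ‖(M : ℂ) • S‖ := by rw [norm_smul]; simp
    rw [e, h1]
    refine (norm_add_le _ _).trans (add_le_add ?_ ?_)
    · refine (norm_sum_le _ _).trans ?_
      refine (sum_le_sum (g := fun _ => (2 * B : ℝ)) fun k _ => ?_).trans ?_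
      · refine (Pool.Agent.W726.NS.shift_sum a ha1 N (n k)).trans ?_
        have : (n k : ℝ) ≤ B := by exact_mod_cast hB k
        linarith
      · simp
    · refine (norm_sum_le _ _).trans ?_
      refine (sum_le_sum (g := fun _ => (4 * Real.sqrt M : ℝ)) fun m _ => hblock m).trans ?_
      simp
  have h3 : ‖S‖ * Real.sqrt M ≤ 2 * B * Real.sqrt M + 4 * N := by
    have hs : 0 < Real.sqrt M := Real.sqrt_pos.mpr hMpos
    have hs2 : Real.sqrt M * Real.sqrt M = M := Real.mul_self_sqrt hMpos.le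
    have h4 : Real.sqrt M * (‖S‖ * Real.sqrt M) ≤
        Real.sqrt M * (2 * B * Real.sqrt M + 4 * N) := by
      calc Real.sqrt M * (‖S‖ * Real.sqrt M) = (Real.sqrt M * Real.sqrt M) * ‖S‖ := by ring
        _ = M * ‖S‖ := by rw [hs2]
        _ ≤ M * (2 * B) + N * (4 * Real.sqrt M) := h2
        _ = (Real.sqrt M * Real.sqrt M) * (2 * B) + N * (4 * Real.sqrt M) := by rw [hs2]
        _ = Real.sqrt M * (2 * B * Real.sqrt M + 4 * N) := by ring
    exact le_of_mul_le_mul_left h4 hs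
  have hs : 0 < Real.sqrt M := Real.sqrt_pos.mpr hMpos
  have h5 : 4 * (B : ℝ) ≤ ε * N := by
    have : 4 * B / ε ≤ (N : ℝ) := hN₀.trans (by exact_mod_cast hN)
    rw [div_le_iff₀ hε] at this
    linarith
  have h6 : 8 ≤ ε * Real.sqrt M := by
    rw [div_le_iff₀ hε] at hsq
    linarith
  have h7 : ‖S‖ * Real.sqrt M ≤ (ε * N) * Real.sqrt M := by
    have h8 : (8 : ℝ) * N ≤ ε * Real.sqrt M * N := by gcongr
    have h9 : 4 * (B : ℝ) * Real.sqrt M ≤ ε * N * Real.sqrt M := by gcongr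
    nlinarith
  exact le_of_mul_le_mul_right h7 hs

theorem Scat.good {α : U →⋆ₐ[ℂ] U} {x : U} (h : Scat α x) {W : Type} [CStarAlgebra W]
    (γ : W →⋆ₐ[ℂ] W) (ι : U →⋆ₐ[ℂ] W) (hι : ∀ a, γ (ι a) = ι (α a)) {v w : W}
    (hv : Eig γ v) (hw : Eig γ w) : Good γ (v * ι x * w) := by
  obtain ⟨l1, hl1, hv⟩ := hv
  obtain ⟨l2, hl2, hw⟩ := hw
  intro K _ _ _ π ξ
  have hit : ∀ n : ℕ, (γ^[n]) (v * ι x * w) = (l1 * l2) ^ n • (v * ι ((α^[n]) x) * w) := by
    intro n
    induction n with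
    | zero => simp
    | succ n ih =>
      rw [Function.iterate_succ_apply', ih, map_smul, map_mul, map_mul, hv, hw, hι,
        Function.iterate_succ_apply', smul_mul_assoc, smul_mul_assoc, mul_smul_comm, smul_smul,
        smul_smul]
      congr 1
      ring
  rw [Metric.tendsto_atTop]
  intro ε hε
  set C : ℝ := ‖v‖ * ‖w‖ * ‖ξ‖ + 1 with hC
  have hCpos : 0 < C := by positivity
  obtain ⟨N₀, hN₀⟩ := h (ε / 2 / C) (by positivity)
  refine ⟨max N₀ 1, fun N hN => ?_⟩
  have hN1 : (1 : ℝ) ≤ N := by exact_mod_cast (le_max_right _ _).trans hN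
  have h1 := hN₀ N ((le_max_left _ _).trans hN) (fun n => mob n * (l1 * l2) ^ n) (fun n => by
    rw [norm_mul, norm_pow, norm_mul, hl1, hl2, one_mul, one_pow, mul_one]
    exact norm_mob_le n)
  rw [dist_zero_right]
  have e : vav (fun n => mob n • π ((γ^[n]) (v * ι x * w)) ξ) N = (1 / (N : ℂ)) •
      (π (v * ι (∑ n ∈ range N, (mob n * (l1 * l2) ^ n) • (α^[n]) x) * w)) ξ := by
    have e0 : (π (v * ι (∑ n ∈ range N, (mob n * (l1 * l2) ^ n) • (α^[n]) x) * w)) ξ =
        ∑ n ∈ range N, (π (v * ι ((mob n * (l1 * l2) ^ n) • (α^[n]) x) * w)) ξ := by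
      rw [map_sum, Finset.mul_sum, Finset.sum_mul, map_sum, _root_.sum_apply]
    rw [e0]
    rw [vav, ← one_div]
    congr 1
    refine Finset.sum_congr rfl fun n _ => ?_
    rw [hit, map_smul, map_smul, mul_smul_comm, smul_mul_assoc, map_smul, smul_apply, smul_apply,
      smul_smul]
  rw [e, norm_smul]
  have h2 : ‖(π (v * ι (∑ n ∈ range N, (mob n * (l1 * l2) ^ n) • (α^[n]) x) * w)) ξ‖ ≤
      ‖v‖ * ‖w‖ * ‖ξ‖ * (ε / 2 / C * N) := by
    refine (ContinuousLinearMap.le_opNorm _ _).trans ?_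
    have h3 := NonUnitalStarAlgHom.norm_apply_le π
      (v * ι (∑ n ∈ range N, (mob n * (l1 * l2) ^ n) • (α^[n]) x) * w)
    have h4 := NonUnitalStarAlgHom.norm_apply_le ι
      (∑ n ∈ range N, (mob n * (l1 * l2) ^ n) • (α^[n]) x)
    calc ‖π (v * ι (∑ n ∈ range N, (mob n * (l1 * l2) ^ n) • (α^[n]) x) * w)‖ * ‖ξ‖
        ≤ (‖v‖ * (ε / 2 / C * N) * ‖w‖) * ‖ξ‖ := by
          gcongr
          refine h3.trans ((norm_mul_le _ _).trans ?_)
          gcongr
          refine (norm_mul_le _ _).trans ?_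
          gcongr
          exact h4.trans h1
      _ = _ := by ring
  have h5 : ‖(1 / (N : ℂ))‖ = 1 / (N : ℝ) := by
    rw [norm_div, norm_one, Complex.norm_natCast]
  rw [h5]
  calc 1 / (N : ℝ) * ‖(π (v * ι (∑ n ∈ range N, (mob n * (l1 * l2) ^ n) • (α^[n]) x) * w)) ξ‖
      ≤ 1 / (N : ℝ) * (C * (ε / 2 / C * N)) := by
        gcongr
        refine h2.trans ?_
        gcongr
        rw [hC]
        linarith
    _ = ε / 2 := by field_simp
    _ < ε := by linarith

/-- all elements of the generated algebra -/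
theorem good_mixed {α : U →⋆ₐ[ℂ] U}
    (hd : (Submodule.span ℂ (Prods α (NilU α ∪ {x | Scat α x}))).topologicalClosure = ⊤)
    {W : Type} [CStarAlgebra W] (γ : W →⋆ₐ[ℂ] W) (ι : U →⋆ₐ[ℂ] W)
    (hι : ∀ a, γ (ι a) = ι (α a))
    (hgen : (Submodule.span ℂ (Prods γ (Set.range ι))).topologicalClosure = ⊤) :
    ∀ x, Good γ x := by
  have hS : ∀ x ∈ Prods γ (Set.range ι), Good γ x := by
    rintro x ⟨_, ⟨a, rfl⟩, v, w, hv, hw, rfl⟩
    have hcont : Continuous fun a : U => v * ι a * w :=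
      (continuous_const.mul (AddMonoidHomClass.continuous_of_bound ι 1 fun x => by
        rw [one_mul]; exact NonUnitalStarAlgHom.norm_apply_le ι x)).mul continuous_const
    have h1 : ∀ a ∈ Submodule.span ℂ (Prods α (NilU α ∪ {x | Scat α x})), Good γ (v * ι a * w) := by
      intro a ha
      induction ha using Submodule.span_induction with
      | mem x hx =>
        obtain ⟨u, hu, v', w', hv', hw', rfl⟩ := hx
        have e : v * ι (v' * u * w') * w = v * ι v' * ι u * (ι w' * w) := by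
          rw [map_mul, map_mul]; simp only [mul_assoc]
        rw [e]
        rcases hu with ⟨hu, m, hm, ⟨k, hk⟩, V, hVn, hV⟩ | hu
        · exact Pool.Agent.Helper29.NU.good_nil ⟨u, hu⟩ hm hk hVn hV γ ι hι (hv.mul (hv'.map hι))
            ((hw'.map hι).mul hw)
        · exact Scat.good hu γ ι hι (hv.mul (hv'.map hι)) ((hw'.map hι).mul hw)
      | zero => rw [map_zero, mul_zero, zero_mul]; exact Good.zero γ
      | add x y _ _ hx hy => rw [map_add, mul_add, add_mul]; exact hx.add hy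
      | smul c x _ hx => rw [map_smul, mul_smul_comm, smul_mul_assoc]; exact hx.smul c
    have h2 : a ∈ closure (Submodule.span ℂ (Prods α (NilU α ∪ {x | Scat α x})) : Set U) := by
      have : a ∈ (Submodule.span ℂ (Prods α (NilU α ∪ {x | Scat α x}))).topologicalClosure := by
        rw [hd]; trivial
      exact this
    refine Good.closed (S := (fun a : U => v * ι a * w) ''
      (Submodule.span ℂ (Prods α (NilU α ∪ {x | Scat α x})) : Set U))
      ?_ _ (image_closure_subset_closure_image hcont ⟨a, h2, rfl⟩)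
    rintro _ ⟨a, ha, rfl⟩
    exact h1 a ha
  intro x
  refine Good.of_span hS x ?_
  rw [hgen]; trivial

end Pool.Agent.Helper29.RH
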