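import Pool.Agent.Helper29.RH.Tow2

/-! Tame orbits modulo a solvable subgroup which is not normal. -/

set_option autoImplicit false
set_option linter.style.haveILetI false

open Subgroup
open scoped commutatorElement

namespace Pool.Agent.Helper29.RH

open Pool.Agent.Helper29.NU (En Dg SP aa pw En_inl aa_conj RR RR_normal RR_map RR_bot mem_iff_of_map
  solv_sup)
open Pool.Agent.Helper29.VS (En_map aa_pow_conj En_pow_inl En_pow_iter QUS QUO RR_le)

theorem RR_hom {Γ Γ' : Type} [Group Γ] [Group Γ'] (f : Γ →* Γ') (R : Subgroup Γ) (i : ℕ) :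
    (RR R i).map f = RR (R.map f) i := by
  induction i with
  | zero => rfl
  | succ i ih =>
    show (⁅RR R i, RR R i⁆ : Subgroup Γ).map f = ⁅RR (R.map f) i, RR (R.map f) i⁆
    rw [Subgroup.map_commutator, ih]

variable {G : Type} [Group G]

theorem map_eq_of_iff {τ : MulAut G} {N : Subgroup G} (hN : ∀ x, x ∈ N ↔ τ x ∈ N) :
    N.map τ.toMonoidHom = N := by
  ext x
  constructor
  · rintro ⟨y, hy, rfl⟩
    exact (hN y).1 hy
  · intro hx
    refine ⟨τ⁻¹ x, (hN _).2 ?_, MulAut.apply_inv_self _ τ x⟩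
    rw [MulAut.apply_inv_self]
    exact hx

theorem RR_conj (R : Subgroup G) {d : G} (hd : d ∈ R) (i : ℕ) (x : G) :
    x ∈ RR R i ↔ d * x * d⁻¹ ∈ RR R i := by
  have h1 : R.map (MulAut.conj d).toMonoidHom = R :=
    Subgroup.mem_normalizer_iff_map_conj_eq.1 (Subgroup.le_normalizer hd)
  have h2 := RR_hom (MulAut.conj d).toMonoidHom R i
  rw [h1] at h2
  have h3 := mem_iff_of_map (τ := MulAut.conj d) h2 x
  rwa [MulAut.conj_apply] at h3

theorem tame_end (τ : MulAut G) (g : G) {m n : ℕ} (hm : 0 < m)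
    (hn : (closure {aa τ ^ m, (SemidirectProduct.inl g : SP τ)⁻¹ * aa τ ^ m *
      SemidirectProduct.inl g}).lowerCentralSeries n = ⊥) :
    ∃ m : ℕ, 0 < m ∧ (∃ k : ℕ, (Dg (τ ^ m))^[k] g = 1) ∧
      ∃ V : Subgroup G, Group.IsNilpotent V ∧ ∀ n : ℕ, ((τ ^ m)^[n]) (Dg (τ ^ m) g) ∈ V := by
  set inl : G →* SP τ := SemidirectProduct.inl with hinl
  set S := aa τ ^ m with hS
  set U := closure {S, (inl g)⁻¹ * S * inl g} with hU
  have hSU : S ∈ U := Subgroup.subset_closure (Or.inl rfl)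
  have hEg : En S (inl g) ∈ U := by
    rw [En]
    exact mul_mem (Subgroup.subset_closure (Or.inr rfl)) (inv_mem hSU)
  refine ⟨m, hm, ⟨n + 1, ?_⟩, U.comap inl, ?_, ?_⟩
  · have h1 : ∀ j, (En S)^[j] (En S (inl g)) ∈ U.lowerCentralSeries j := by
      intro j
      induction j with
      | zero => exact hEg
      | succ j ih =>
        rw [Function.iterate_succ_apply', Subgroup.lowerCentralSeries_succ]
        have e : ∀ y : SP τ, En S y = ⁅y⁻¹, S⁆ := by
          intro y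
          rw [En, commutatorElement_def, inv_inv]
        rw [e]
        exact commutator_mem_commutator (inv_mem ih) hSU
    have h2 : (En S)^[n + 1] (inl g) = 1 := by
      rw [Function.iterate_succ_apply]
      have := h1 n
      rw [hn] at this
      exact this
    rw [hS, hinl, En_pow_iter] at h2
    exact SemidirectProduct.inl_injective (h2.trans (map_one _).symm)
  · refine (Subgroup.isNilpotent_iff_lowerCentralSeries _).2 ⟨n, ?_⟩
    have h2 : ((U.comap inl).lowerCentralSeries n).map inl = ⊥ := by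
      rw [Subgroup.map_lowerCentralSeries, eq_bot_iff]
      exact (Subgroup.lowerCentralSeries_mono n (Subgroup.map_comap_le _ _)).trans hn.le
    rw [Subgroup.map_eq_bot_iff] at h2
    rw [eq_bot_iff]
    intro x hx
    have h3 := h2 hx
    rw [MonoidHom.mem_ker] at h3
    rw [mem_bot]
    exact SemidirectProduct.inl_injective (h3.trans (map_one _).symm)
  · intro j
    induction j with
    | zero =>
      show inl (Dg (τ ^ m) g) ∈ U
      rw [hinl, ← En_pow_inl]
      exact hEg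
    | succ j ih =>
      rw [Function.iterate_succ_apply']
      show inl ((τ ^ m) (((τ ^ m)^[j]) (Dg (τ ^ m) g))) ∈ U
      rw [hinl, ← aa_pow_conj]
      exact mul_mem (mul_mem hSU ih) (inv_mem hSU)

/-- **Tame orbits modulo an invariant solvable subgroup.** -/
theorem tame2 {τ : MulAut G} (hσ : QUS τ) (g : G) (N : Subgroup G) (hN : ∀ x, x ∈ N ↔ τ x ∈ N)
    (hNs : Group.IsSolvable N) (hg : g⁻¹ * τ g ∈ N) :
    ∃ m : ℕ, 0 < m ∧ (∃ k : ℕ, (Dg (τ ^ m))^[k] g = 1) ∧
      ∃ V : Subgroup G, Group.IsNilpotent V ∧ ∀ n : ℕ, ((τ ^ m)^[n]) (Dg (τ ^ m) g) ∈ V := by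
  have hmap := map_eq_of_iff hN
  obtain ⟨d, hd⟩ := RR_bot hNs
  set inl : G →* SP τ := SemidirectProduct.inl with hinl
  set s : SP τ := aa τ with hs
  set γ : SP τ := inl g with hγ
  set t : SP τ := γ⁻¹ * s * γ with ht
  set Nn : Subgroup (SP τ) := N.map inl with hNn
  set Γ1 : Subgroup (SP τ) := Subgroup.normalizer (Nn : Set (SP τ)) with hΓ1
  have hinj : Function.Injective inl := SemidirectProduct.inl_injective
  have hsN : s ∈ Γ1 := by
    rw [hΓ1, Subgroup.mem_normalizer_iff]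
    intro h
    constructor
    · rintro ⟨y, hy, rfl⟩
      exact ⟨τ y, (hN y).1 hy, (aa_conj τ y).symm⟩
    · rintro ⟨y, hy, he⟩
      have h1 : y ∈ N.map τ.toMonoidHom := by rw [hmap]; exact hy
      obtain ⟨z, hz, hzy⟩ := h1
      refine ⟨z, hz, ?_⟩
      have h2 : s * inl z * s⁻¹ = s * h * s⁻¹ := by
        rw [← he, ← hzy]
        exact aa_conj τ z
      exact mul_left_cancel (mul_right_cancel h2)
  have hts : t * s⁻¹ = inl (Dg τ g) := by
    rw [hinl, ← En_inl, En]
  have htN : t ∈ Γ1 := by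
    have e : t = (t * s⁻¹) * s := by group
    rw [e, hts]
    exact mul_mem (Subgroup.le_normalizer ⟨_, hg, rfl⟩) hsN
  set R1 : Subgroup Γ1 := Nn.subgroupOf Γ1 with hR1
  haveI hR1n : R1.Normal := Subgroup.normal_in_normalizer
  have hTm : ∀ i, (RR R1 i).map Γ1.subtype = (RR N i).map inl := by
    intro i
    rw [RR_hom, RR_hom, hR1, Subgroup.subgroupOf_map_subtype,
      inf_eq_left.2 Subgroup.le_normalizer]
  have hmem : ∀ (i : ℕ) (x : Γ1), x ∈ RR R1 i ↔ ∃ y ∈ RR N i, (x : SP τ) = inl y := by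
    intro i x
    constructor
    · intro hx
      have h1 : (x : SP τ) ∈ (RR N i).map inl := by
        rw [← hTm]
        exact ⟨x, hx, rfl⟩
      obtain ⟨y, hy, he⟩ := h1
      exact ⟨y, hy, he.symm⟩
    · rintro ⟨y, hy, he⟩
      have h1 : (x : SP τ) ∈ (RR R1 i).map Γ1.subtype := by
        rw [hTm]
        exact ⟨y, hy, he.symm⟩
      obtain ⟨x', hx', he'⟩ := h1
      rwa [← Subtype.ext (a1 := x') (a2 := x) he']
  have hsolv : ∀ i, Group.IsSolvable (RR N i) := fun i =>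
    Group.isSolvable_of_isSolvable_injective (Subgroup.inclusion_injective (RR_le N i))
  obtain ⟨m, hm, n, hn⟩ := tower2 (fun i => RR R1 i) (fun i => RR_normal R1 i) (fun i => le_rfl)
    ⟨s, hsN⟩ ⟨t, htN⟩ (by
      intro i x hx
      obtain ⟨y, hy, he⟩ := (hmem i x).1 hx
      obtain ⟨m, hm, k, hk⟩ := hσ (RR N i) (hsolv i) (mem_iff_of_map (RR_map hmap i)) y hy
      refine ⟨m, hm, k, (hmem _ _).2 ⟨_, hk, ?_⟩⟩
      have h1 := En_map Γ1.subtype ((⟨s, hsN⟩ : Γ1) ^ m) x k
      rw [map_pow] at h1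
      refine h1.trans ?_
      show (En (s ^ m))^[k] (x : SP τ) = _
      rw [he, hinl, hs, En_pow_iter]) (by
      intro i x hx
      obtain ⟨y, hy, he⟩ := (hmem i x).1 hx
      set N' : Subgroup G := (RR N i).map (MulAut.conj g).toMonoidHom with hN'
      have hN's : Group.IsSolvable N' := by
        haveI := hsolv i
        exact Group.isSolvable_of_surjective ((MulAut.conj g).toMonoidHom.subgroupMap_surjective
          (RR N i))
      have hmem' : ∀ z : G, z ∈ N' ↔ g⁻¹ * z * g ∈ RR N i := by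
        intro z
        constructor
        · rintro ⟨w, hw, rfl⟩
          have e : g⁻¹ * ((MulAut.conj g).toMonoidHom w) * g = w := by
            show g⁻¹ * (g * w * g⁻¹) * g = w
            group
          rw [e]
          exact hw
        · intro hz
          refine ⟨_, hz, ?_⟩
          show g * (g⁻¹ * z * g) * g⁻¹ = z
          group
      have hN'i : ∀ z, z ∈ N' ↔ τ z ∈ N' := by
        intro z
        rw [hmem', hmem', mem_iff_of_map (RR_map hmap i) (g⁻¹ * z * g),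
          RR_conj N (d := g⁻¹ * τ g) hg i]
        have e : g⁻¹ * τ g * τ (g⁻¹ * z * g) * (g⁻¹ * τ g)⁻¹ = g⁻¹ * τ z * g := by
          rw [map_mul, map_mul, map_inv]
          group
        rw [e]
      obtain ⟨m, hm, k, hk⟩ := hσ N' hN's hN'i (g * y * g⁻¹) ⟨y, hy, rfl⟩
      rw [hN', ← Subgroup.map_commutator] at hk
      obtain ⟨w, hw, hwe⟩ := hk
      refine ⟨m, hm, k, (hmem _ _).2 ⟨w, hw, ?_⟩⟩
      have h1 := En_map Γ1.subtype ((⟨t, htN⟩ : Γ1) ^ m) x k
      rw [map_pow] at h1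
      refine h1.trans ?_
      show (En (t ^ m))^[k] (x : SP τ) = _
      have h2 := En_map (MulAut.conj γ⁻¹).toMonoidHom (s ^ m) (inl (g * y * g⁻¹)) k
      have e1 : (MulAut.conj γ⁻¹).toMonoidHom (s ^ m) = t ^ m := by
        show γ⁻¹ * s ^ m * γ⁻¹⁻¹ = t ^ m
        rw [ht, inv_inv]
        have := conj_pow (i := m) (a := γ⁻¹) (b := s)
        rw [inv_inv] at this
        exact this.symm
      have e2 : (MulAut.conj γ⁻¹).toMonoidHom (inl (g * y * g⁻¹)) = x := by
        show γ⁻¹ * inl (g * y * g⁻¹) * γ⁻¹⁻¹ = x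
        rw [he, hγ, map_mul, map_mul, map_inv]
        group
      rw [e1, e2] at h2
      rw [← h2, hinl, hs, En_pow_iter]
      have hwe' : g * w * g⁻¹ = (Dg (τ ^ m))^[k] (g * y * g⁻¹) := hwe
      rw [← hwe']
      show γ⁻¹ * inl (g * w * g⁻¹) * γ⁻¹⁻¹ = inl w
      rw [hγ, map_mul, map_mul, map_inv]
      group) (m₀ := 1) one_pos (by
      refine (hmem 0 _).2 ⟨Dg τ g, hg, ?_⟩
      rw [pow_one, pow_one]
      exact hts) d
  have hbot : RR R1 d = ⊥ := by
    rw [eq_bot_iff]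
    intro x hx
    obtain ⟨y, hy, he⟩ := (hmem d x).1 hx
    rw [hd, Subgroup.mem_bot] at hy
    rw [Subgroup.mem_bot]
    exact Subtype.ext (he.trans (by rw [hy, map_one]; rfl))
  have hn' : (closure {s ^ m, t ^ m}).lowerCentralSeries n = ⊥ := by
    have h1 := lcs_map2 Γ1.subtype ((⟨s, hsN⟩ : Γ1) ^ m) ((⟨t, htN⟩ : Γ1) ^ m) n
    have h2 : (closure {(⟨s, hsN⟩ : Γ1) ^ m, (⟨t, htN⟩ : Γ1) ^ m}).lowerCentralSeries n = ⊥ := by
      rw [eq_bot_iff, ← hbot]
      exact hn
    rw [h2, Subgroup.map_bot] at h1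
    exact h1.symm
  refine tame_end τ g hm (n := n) ?_
  have h3 := conj_pow (i := m) (a := γ⁻¹) (b := s)
  rw [inv_inv] at h3
  rw [← hn', ht, h3]

/-- **Tame orbits modulo an invariant virtually solvable subgroup.** The condition on `τ` is needed
for the powers of `τ`. -/
theorem tame_vs {τ : MulAut G} (hσ : ∀ m : ℕ, 0 < m → QUS (τ ^ m)) (g : G) (N : Subgroup G)
    (hN : ∀ x, x ∈ N ↔ τ x ∈ N) (hNs : ∃ S : Subgroup N, S.FiniteIndex ∧ Group.IsSolvable S)
    (hg : g⁻¹ * τ g ∈ N) :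
    ∃ m : ℕ, 0 < m ∧ (∃ k : ℕ, (Dg (τ ^ m))^[k] g = 1) ∧
      ∃ V : Subgroup G, Group.IsNilpotent V ∧ ∀ n : ℕ, ((τ ^ m)^[n]) (Dg (τ ^ m) g) ∈ V := by
  classical
  obtain ⟨S, hS, hSs⟩ := hNs
  obtain ⟨R, hRn, hRs, hRf, hR⟩ := Pool.Agent.Helper29.VS.exists_rad' hS hSs
  -- the action of `τ` on the cosets `g N / R`
  have hNp : ∀ (m : ℕ) (x : G), x ∈ N ↔ (τ ^ m) x ∈ N := by
    intro m
    induction m with
    | zero => intro x; exact Iff.rfl
    | succ m ih =>
      intro x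
      rw [pow_succ, MulAut.mul_apply, ← ih]
      exact hN x
  have hgp : ∀ m : ℕ, g⁻¹ * (τ ^ m) g ∈ N := by
    intro m
    induction m with
    | zero => rw [pow_zero, MulAut.one_apply, inv_mul_cancel]; exact one_mem _
    | succ m ih =>
      have e : g⁻¹ * (τ ^ (m + 1)) g = (g⁻¹ * τ g) * τ (g⁻¹ * (τ ^ m) g) := by
        rw [pow_succ', MulAut.mul_apply, map_mul, map_inv]
        group
      rw [e]
      exact mul_mem hg ((hN _).1 ih)
  haveI : Finite (N ⧸ R) := inferInstance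
  obtain ⟨i, j, hij, he⟩ := Finite.exists_ne_map_eq_of_infinite
    (fun m : ℕ => (QuotientGroup.mk (⟨g⁻¹ * (τ ^ m) g, hgp m⟩ : N) : N ⧸ R))
  wlog hlt : i < j generalizing i j
  · exact this j i hij.symm he.symm (by omega)
  obtain ⟨m, rfl⟩ : ∃ m, j = i + m := ⟨j - i, by omega⟩
  have hm : 0 < m := by omega
  have h1 := QuotientGroup.eq.1 he
  -- the characteristic subgroup in the ambient group
  set R' : Subgroup G := R.map N.subtype with hR'
  have hRinv : ∀ (a : ℕ) (x : G), x ∈ R' ↔ (τ ^ a) x ∈ R' := by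
    intro a
    have h2 := mem_iff_of_map (hR (Pool.Agent.Helper29.NU.rsA τ N hN ^ a))
    intro x
    constructor
    · rintro ⟨y, hy, rfl⟩
      refine ⟨_, (h2 y).1 hy, ?_⟩
      exact Pool.Agent.Helper29.NU.rsA_pow τ N hN a y
    · rintro ⟨z, hz, hze⟩
      have hxN : x ∈ N := by
        rw [hNp a, ← hze]
        exact z.2
      refine ⟨⟨x, hxN⟩, (h2 _).2 ?_, rfl⟩
      have : (Pool.Agent.Helper29.NU.rsA τ N hN ^ a) ⟨x, hxN⟩ = z := by
        refine Subtype.ext ?_
        rw [Pool.Agent.Helper29.NU.rsA_pow]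
        exact hze.symm
      rw [this]
      exact hz
  have hRs' : Group.IsSolvable R' := Group.isSolvable_of_surjective (N.subtype.subgroupMap_surjective R)
  have h3 : (τ ^ i) (g⁻¹ * (τ ^ m) g) ∈ R' := by
    refine ⟨_, h1, ?_⟩
    show (g⁻¹ * (τ ^ i) g)⁻¹ * (g⁻¹ * (τ ^ (i + m)) g) = _
    rw [pow_add, MulAut.mul_apply, map_mul, map_inv]
    group
  have h4 : g⁻¹ * (τ ^ m) g ∈ R' := (hRinv i _).2 h3
  obtain ⟨k, hk, h5, V, hV, h6⟩ := tame2 (hσ m hm) g R' (hRinv m) hRs' h4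
  refine ⟨m * k, Nat.mul_pos hm hk, ?_, V, hV, ?_⟩
  · rw [pow_mul]
    exact h5
  · rw [pow_mul]
    exact h6

end Pool.Agent.Helper29.RH
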