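import Pool.Graph.R_seed8.W726.NS.Abs
import Pool.Agent.Helper29.RH.Sparse
import Pool.Agent.Helper29.RH.Tame
import Pool.Agent.Helper29.RH.Good
import Pool.Agent.Helper29.RH.Ext

/-! Orbits in reduced group algebras of groups with quotients which are convergence groups. -/

set_option autoImplicit false
set_option linter.unusedSectionVars false
set_option linter.style.haveILetI false

namespace Pool.Agent.Helper29.RH

open Filter Topology Set MulAction
open Pool.Agent.W726.NS (ConvergenceAction RedAlg)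
open Pool.Agent.Helper188.NCM (norm_unitary_le iter_smul)
open Pool.Agent.Helper29.NU (rsA rsA_pow)

theorem countable_closure {G : Type} [Group G] (f : ℤ → G) :
    Countable (Subgroup.closure (Set.range f)) := by
  haveI : Countable (FreeGroup ℤ) := by
    unfold FreeGroup
    infer_instance
  rw [← FreeGroup.range_lift_eq_closure]
  have h : Function.Surjective (FreeGroup.lift f).rangeRestrict :=
    MonoidHom.rangeRestrict_surjective _
  exact h.countable

section grp

variable {Q : Type} [Group Q] {X : Type} [TopologicalSpace X] [CompactSpace X] [T2Space X]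
  [MulAction Q X]

theorem vso_map_subtype {H : Subgroup Q} {E : Subgroup H} (h : VSo E) : VSo (E.map H.subtype) := by
  obtain ⟨S, hS, hSs⟩ := h
  let e : E ≃* E.map H.subtype := E.equivMapOfInjective H.subtype H.subtype_injective
  refine ⟨S.map e.toMonoidHom, ⟨?_⟩, ?_⟩
  · rw [Subgroup.index_map_of_bijective e.bijective]
    exact hS.index_ne_zero
  · exact Group.isSolvable_of_surjective (e.toMonoidHom.subgroupMap_surjective S)

theorem vso_subgroupOf {H K : Subgroup Q} (h : VSo K) : VSo (K.subgroupOf H) := by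
  have h1 : VSo (K ⊓ H) := h.mono inf_le_left
  obtain ⟨S, hS, hSs⟩ := h1
  let e : (K.subgroupOf H) ≃* (K ⊓ H : Subgroup Q) :=
    { toFun := fun x => ⟨x.1.1, x.2, x.1.2⟩
      invFun := fun x => ⟨⟨x.1, x.2.2⟩, x.2.1⟩
      left_inv := fun x => rfl
      right_inv := fun x => rfl
      map_mul' := fun x y => rfl }
  refine ⟨S.comap e.toMonoidHom, ⟨?_⟩, ?_⟩
  · rw [Subgroup.index_comap_of_surjective _ e.surjective]
    exact hS.index_ne_zero
  · exact Group.isSolvable_of_isSolvable_injective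
      (f := ({ toFun := fun x => ⟨e x.1, x.2⟩
               map_one' := Subtype.ext (map_one e)
               map_mul' := fun x y => Subtype.ext (map_mul e _ _) } :
        (S.comap e.toMonoidHom) →* S)) fun x y hxy =>
          Subtype.ext (e.injective (congrArg Subtype.val hxy))

/-- the dichotomy, without countability -/
theorem dich_any (hG : ConvergenceAction Q X) [Infinite X] (hst : ∀ p : X, VSo (stabilizer Q p))
    (σ : MulAut Q) (g : Q) (hx : Function.Injective (fun n : ℕ => (σ ^ n) g)) :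
    (∃ S : Set ℕ, S.Infinite ∧ ∀ (p : X) (j : ℕ),
      {n ∈ S | ((σ ^ j) g)⁻¹ * (σ ^ n) g ∈ stabilizer Q p}.Finite) ∨
      ∃ m : ℕ, 0 < m ∧ ∃ E : Subgroup Q, VSo E ∧ (∀ z, z ∈ E ↔ (σ ^ m) z ∈ E) ∧
        g⁻¹ * (σ ^ m) g ∈ E := by
  set f : ℤ → Q := fun k => (σ ^ k) g with hf
  set H : Subgroup Q := Subgroup.closure (Set.range f) with hH
  haveI : Countable H := countable_closure f
  have h1 : ∀ (e : ℤ) (x : Q), x ∈ H → (σ ^ e) x ∈ H := by
    intro e x hx
    have h2 : H ≤ H.comap (σ ^ e : MulAut Q).toMonoidHom := by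
      rw [hH, Subgroup.closure_le]
      rintro _ ⟨k, rfl⟩
      refine Subgroup.subset_closure ⟨e + k, ?_⟩
      show (σ ^ (e + k)) g = (σ ^ e) ((σ ^ k) g)
      rw [zpow_add, MulAut.mul_apply]
    exact h2 hx
  have hinv : ∀ x, x ∈ H ↔ σ x ∈ H := by
    intro x
    constructor
    · intro hx
      have := h1 1 x hx
      rwa [zpow_one] at this
    · intro hx
      have := h1 (-1) _ hx
      rwa [zpow_neg, zpow_one, MulAut.inv_apply_self] at this
  have hgH : ∀ k : ℕ, (σ ^ k) g ∈ H := fun k => Subgroup.subset_closure ⟨k, by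
    show (σ ^ (k : ℤ)) g = _
    rw [zpow_natCast]⟩
  have hg : g ∈ H := hgH 0
  set s : MulAut H := rsA σ H hinv with hs
  have hsp : ∀ (n : ℕ) (x : H), (((s ^ n) x : H) : Q) = (σ ^ n) x := rsA_pow σ H hinv
  have hGH : ConvergenceAction H X := by
    refine ⟨fun h => hG.1 h, fun x hx => ?_⟩
    exact hG.2 (fun n => (x n : Q)) (Subtype.val_injective.comp hx)
  have hst' : ∀ p : X, VSo (stabilizer H p) := by
    intro p
    have : stabilizer H p = (stabilizer Q p).subgroupOf H := by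
      ext x
      rfl
    rw [this]
    exact vso_subgroupOf (hst p)
  rcases dich hGH hst' s ⟨g, hg⟩ (fun a b hab => hx (by
    have := congrArg Subtype.val hab
    rwa [hsp, hsp] at this)) with ⟨S, hS, hSf⟩ | ⟨m, hm, E, hE, hEinv, hEg⟩
  · left
    refine ⟨S, hS, fun p j => ?_⟩
    convert hSf p ⟨(σ ^ j) g, hgH j⟩ using 1
    ext n
    simp only [Set.mem_ofPred_eq]
    refine and_congr_right fun _ => ?_
    rw [mem_stabilizer_iff, mem_stabilizer_iff]
    have e : (((⟨(σ ^ j) g, hgH j⟩ : H)⁻¹ * (s ^ n) ⟨g, hg⟩ : H) : Q) =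
        ((σ ^ j) g)⁻¹ * (σ ^ n) g := by
      rw [Subgroup.coe_mul, Subgroup.coe_inv, hsp]
    rw [← e]
    rfl
  · right
    refine ⟨m, hm, E.map H.subtype, vso_map_subtype hE, fun z => ?_, ?_⟩
    · constructor
      · rintro ⟨y, hy, rfl⟩
        exact ⟨(s ^ m) y, (hEinv y).1 hy, hsp m y⟩
      · rintro ⟨y, hy, hyz⟩
        have hz : z ∈ H := by
          have h3 := h1 (-(m : ℤ)) y y.2
          have h4 : (y : Q) = (σ ^ m) z := hyz
          rw [h4, zpow_neg, zpow_natCast, MulAut.inv_apply_self] at h3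
          exact h3
        refine ⟨⟨z, hz⟩, (hEinv _).2 ?_, rfl⟩
        have : (s ^ m) ⟨z, hz⟩ = y := Subtype.ext (by rw [hsp]; exact hyz.symm)
        rw [this]
        exact hy
    · refine ⟨_, hEg, ?_⟩
      show (((⟨g, hg⟩ : H)⁻¹ * (s ^ m) ⟨g, hg⟩ : H) : Q) = _
      rw [Subgroup.coe_mul, Subgroup.coe_inv, hsp]

end grp

variable {A G : Type} [CStarAlgebra A] [Group G] {Q : Type} [Group Q] {X : Type}
  [TopologicalSpace X] [CompactSpace X] [T2Space X] [MulAction Q X]

theorem iter_cov {u : G → A} {σ : MulAut G} {α : A →⋆ₐ[ℂ] A}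
    (hα : ∀ g, ∃ c : ℂ, ‖c‖ = 1 ∧ α (u g) = c • u (σ g)) (n : ℕ) (g : G) :
    ∃ c : ℂ, ‖c‖ = 1 ∧ (α^[n]) (u g) = c • u ((σ ^ n) g) := by
  induction n generalizing g with
  | zero => exact ⟨1, by simp, by simp⟩
  | succ n ih =>
    obtain ⟨c, hc, h1⟩ := hα g
    obtain ⟨c', hc', h2⟩ := ih (σ g)
    refine ⟨c * c', by rw [norm_mul, hc, hc', one_mul], ?_⟩
    rw [Function.iterate_succ_apply, h1, iter_smul, h2, smul_smul, pow_succ, MulAut.mul_apply]

/-- an orbit with an infinite set of times almost disjoint from the cosets of stabilisers -/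
theorem scat_of_sparse {u : G → A} {τ : A →L[ℂ] ℂ} (hu : RedAlg u τ) (hG : ConvergenceAction Q X)
    [Infinite X] (π : G →* Q) (σ : MulAut G) (α : A →⋆ₐ[ℂ] A)
    (hα : ∀ g, ∃ c : ℂ, ‖c‖ = 1 ∧ α (u g) = c • u (σ g)) (m : ℕ) (s : MulAut Q)
    (hs : ∀ x, π ((σ ^ m) x) = s (π x)) (g : G)
    (hinj : Function.Injective (fun n : ℕ => (s ^ n) (π g))) {S : Set ℕ} (hS : S.Infinite)
    (hSf : ∀ (p : X) (j : ℕ), {n ∈ S | ((s ^ j) (π g))⁻¹ * (s ^ n) (π g) ∈ stabilizer Q p}.Finite) :
    Scat α (u g) := by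
  classical
  refine scat_of_blocks α (u g) (norm_unitary_le (hu.unit g)) fun M => ?_
  have hSi : Infinite S := hS.to_subtype
  let e : ℕ ↪o ℕ := Nat.orderEmbeddingOfSet S
  have heS : ∀ n, e n ∈ S := fun n => by
    have : e n ∈ Set.range (Nat.orderEmbeddingOfSet S) := ⟨n, rfl⟩
    rwa [Nat.orderEmbeddingOfSet_range] at this
  obtain ⟨o⟩ : Nonempty X := inferInstance
  letI : MulAction G X := MulAction.compHom X π
  have hact : ∀ (g : G) (p : X), g • p = π g • p := fun g p => rfl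
  have hsn : ∀ (n : ℕ) (x : G), π ((σ ^ (m * n)) x) = (s ^ n) (π x) := by
    intro n
    induction n with
    | zero => intro x; rfl
    | succ n ih =>
      intro x
      rw [mul_add, mul_one, pow_add, MulAut.mul_apply, ih, hs, pow_succ, MulAut.mul_apply]
  set x : ℕ → G := fun k => (σ ^ (m * e k)) g with hx
  have hπx : ∀ k, π (x k) = (s ^ (e k)) (π g) := fun k => hsn _ _
  obtain ⟨φ, hφ, a, b, hab⟩ := hG.2 (fun k => π (x k)) (fun i j hij => e.injective (hinj (by
    show (s ^ (e i)) (π g) = (s ^ (e j)) (π g)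
    rw [← hπx, ← hπx]
    exact hij)))
  obtain ⟨n, -, hn⟩ := sparse_norm2 (G := G) (X := X) (fun g => hG.1 (π g)) o x
    ⟨φ, hφ, a, b, hab⟩ (by
      intro p q
      by_cases hne : ∃ k0, x k0 • p = q
      · obtain ⟨k0, hk0⟩ := hne
        have h1 := hSf p (e k0)
        refine (h1.preimage (f := e) e.injective.injOn).subset ?_
        intro k hk
        refine ⟨heS k, ?_⟩
        have hk' : x k • p = q := hk
        rw [MulAction.mem_stabilizer_iff, ← hπx, ← hπx, mul_smul, ← hact, hk', ← hk0, hact,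
          inv_smul_smul]
      · convert Set.finite_empty (α := ℕ)
        ext k
        simp only [Set.mem_ofPred_eq, Set.mem_empty_iff_false, iff_false]
        exact fun h => hne ⟨k, h⟩) M
  refine ⟨fun k => m * e (n k), fun c hc => ?_⟩
  choose c' hc' hc'' using fun k : Fin M => iter_cov hα (m * e (n k)) g
  have h3 : ∀ k, ‖c k * c' k‖ ≤ 1 := fun k => by
    rw [norm_mul, hc' k, mul_one]; exact hc k
  have h2 := hn (fun k => ((‖c k * c' k‖ : ℝ) : ℂ)) (fun k => by
    rw [Complex.norm_real, norm_norm]; exact h3 k)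
  have h4 := hu.norm_sum_le (fun k => x (n k)) (fun k => c k * c' k)
    (by positivity) h2
  refine le_trans (le_of_eq ?_) h4
  congr 1
  refine Finset.sum_congr rfl fun k _ => ?_
  rw [hc'' k, smul_smul]

/-- **The dichotomy for the orbits in the algebra**, for one quotient which is a convergence
group. -/
theorem scat_or {u : G → A} {τ : A →L[ℂ] ℂ} (hu : RedAlg u τ)
    (hG : ConvergenceAction Q X) [Infinite X] (hst : ∀ p : X, VSo (stabilizer Q p))
    (π : G →* Q) (hπ : Function.Surjective π) (σ : MulAut G) (α : A →⋆ₐ[ℂ] A)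
    (hα : ∀ g, ∃ c : ℂ, ‖c‖ = 1 ∧ α (u g) = c • u (σ g)) {m₀ : ℕ} (hm₀ : 0 < m₀)
    (hker : ∀ x, x ∈ π.ker ↔ (σ ^ m₀) x ∈ π.ker) (g : G) :
    Scat α (u g) ∨ ∃ m : ℕ, 0 < m ∧ ∃ E : Subgroup Q, VSo E ∧
      (∀ z, π z ∈ E ↔ π ((σ ^ m) z) ∈ E) ∧ π (g⁻¹ * (σ ^ m) g) ∈ E := by
  -- the induced automorphism
  obtain ⟨s, hs⟩ : ∃ s : MulAut Q, ∀ x, π ((σ ^ m₀) x) = s (π x) := by
    have hmap : π.ker.map ((σ ^ m₀ : MulAut G) : G →* G) = π.ker := by
      ext x
      constructor
      · rintro ⟨y, hy, rfl⟩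
        exact (hker y).1 hy
      · intro hx
        refine ⟨(σ ^ m₀)⁻¹ x, (hker _).2 ?_, ?_⟩
        · rw [MulAut.apply_inv_self]
          exact hx
        · exact MulAut.apply_inv_self _ _ _
    let e1 : G ⧸ π.ker ≃* Q := QuotientGroup.quotientKerEquivOfSurjective π hπ
    let e2 : G ⧸ π.ker ≃* G ⧸ π.ker := QuotientGroup.congr π.ker π.ker (σ ^ m₀) hmap
    refine ⟨(e1.symm.trans e2).trans e1, fun x => ?_⟩
    have h1 : e1.symm (π x) = QuotientGroup.mk x := by
      rw [MulEquiv.symm_apply_eq]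
      rfl
    show _ = e1 (e2 (e1.symm (π x)))
    rw [h1]
    rfl
  have hsn : ∀ (n : ℕ) (x : G), π ((σ ^ (m₀ * n)) x) = (s ^ n) (π x) := by
    intro n
    induction n with
    | zero => intro x; rfl
    | succ n ih =>
      intro x
      rw [mul_add, mul_one, pow_add, MulAut.mul_apply, ih, hs, pow_succ, MulAut.mul_apply]
  by_cases hinj : Function.Injective (fun n : ℕ => (s ^ n) (π g))
  · rcases dich_any hG hst s (π g) hinj with ⟨S, hS, hSf⟩ | ⟨m, hm, E, hE, h1, h2⟩
    · exact Or.inl (scat_of_sparse hu hG π σ α hα m₀ s hs g hinj hS hSf)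
    · refine Or.inr ⟨m₀ * m, Nat.mul_pos hm₀ hm, E, hE, fun z => ?_, ?_⟩
      · rw [hsn]
        exact h1 _
      · rw [map_mul, map_inv, hsn]
        exact h2
  · right
    obtain ⟨i, j, hij, hne⟩ : ∃ i j : ℕ, (s ^ i) (π g) = (s ^ j) (π g) ∧ i ≠ j := by
      simpa [Function.Injective] using hinj
    wlog hlt : i < j generalizing i j
    · exact this j i hij.symm hne.symm (by omega)
    obtain ⟨m, rfl⟩ : ∃ m, j = i + m := ⟨j - i, by omega⟩
    have h1 : (s ^ m) (π g) = π g := by
      rw [pow_add, MulAut.mul_apply] at hij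
      exact ((s ^ i).injective hij).symm
    refine ⟨m₀ * m, Nat.mul_pos hm₀ (by omega), ⊥, ⟨⊤, inferInstance, ?_⟩, fun z => ?_, ?_⟩
    · infer_instance
    · rw [Subgroup.mem_bot, Subgroup.mem_bot, hsn]
      exact (map_eq_one_iff _ (s ^ m).injective).symm
    · rw [map_mul, map_inv, hsn, h1, inv_mul_cancel]
      exact one_mem _

end Pool.Agent.Helper29.RH
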