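import Pool.Agent.Helper29.RH.Unc2

/-! Sparse sequences in subgroups with quotients which act as convergence groups. -/

set_option autoImplicit false
set_option linter.unusedSectionVars false

namespace Pool.Agent.Helper29.RH

open Pool.Agent.H379R3.CS Filter Topology Set
open Pool.Agent.W726.NS (St step_exists norm_four cut cut_apply)

/-- **Sparse sequences.** Let `f` map `G` to a space with an action of `Q`, such that the left
translations by the `x n` correspond to the homeomorphisms `y n`. If a subsequence of `y` converges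
and the `y n` have only finitely many terms in each coset of a point stabiliser, then `x` contains
families of `M` terms all of whose combinations have norm at most `4 √M`. -/
theorem sparse_norm3 {G Q X : Type} [Group G] [Group Q] [TopologicalSpace X] [CompactSpace X]
    [T2Space X] [MulAction Q X]
    (hcont : ∀ g : Q, Continuous fun p : X => g • p) (f : G → X) (x : ℕ → G) (y : ℕ → Q)
    (hf : ∀ n z, f (x n * z) = y n • f z)
    (hx : ∃ φ : ℕ → ℕ, StrictMono φ ∧ ∃ a b : X, Lm (fun n => y (φ n)) a b)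
    (hfin : ∀ p q : X, {n | y n • p = q}.Finite) (M : ℕ) :
    ∃ n : Fin M → ℕ, Function.Injective n ∧ ∀ c : Fin M → ℂ, (∀ k, ‖c k‖ ≤ 1) →
      ‖∑ k, c k • (shift (x (n k)) : L2 G →L[ℂ] L2 G)‖ ≤ 4 * Real.sqrt M := by
  classical
  obtain ⟨φ, hφ, a, b, hab⟩ := hx
  set x' : ℕ → Q := fun n => y (φ n) with hx'
  have hf' : ∀ n z, f ((x (φ n))⁻¹ * z) = (x' n)⁻¹ • f z := by
    intro n z
    rw [eq_inv_smul_iff, ← hf, mul_inv_cancel_left]
  have hfin' : ∀ p q : X, {n | x' n • p = q}.Finite := by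
    intro p q
    exact (hfin p q).preimage (f := φ) (hφ.injective.injOn)
  -- limits along the hyperfilter
  obtain ⟨c, hc⟩ : ∃ c, Tendsto (fun n => x' n • b) (hyperfilter ℕ : Filter ℕ) (𝓝 c) :=
    ⟨_, (Ultrafilter.map (fun n => x' n • b) (hyperfilter ℕ)).le_nhds_lim⟩
  obtain ⟨d, hd⟩ : ∃ d, Tendsto (fun n => (x' n)⁻¹ • a) (hyperfilter ℕ : Filter ℕ) (𝓝 d) :=
    ⟨_, (Ultrafilter.map (fun n => (x' n)⁻¹ • a) (hyperfilter ℕ)).le_nhds_lim⟩
  have step := step_exists hcont x' a b c d hab hfin' hc hd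
  choose n s' A A' h1 h2 h3 h4 h5 h6 h7 h8 h9 h10 h11 h12 using step
  let s0 : St a b c d := ⟨univ, univ, univ, univ, isOpen_univ, isOpen_univ, isOpen_univ,
    isOpen_univ, trivial, trivial, trivial, trivial⟩
  let seq : ℕ → St a b c d × ℕ := fun k => Nat.rec (s0, 0) (fun _ p => (s' p.1 p.2, n p.1 p.2)) k
  have hseq : ∀ k, seq (k + 1) = (s' (seq k).1 (seq k).2, n (seq k).1 (seq k).2) := fun k => rfl
  set s : ℕ → St a b c d := fun k => (seq k).1 with hs
  set m : ℕ → ℕ := fun k => n (seq k).1 (seq k).2 with hm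
  have hsm : ∀ k, (seq (k + 1)).2 = m k := fun k => rfl
  have hss : ∀ k, s (k + 1) = s' (s k) (seq k).2 := fun k => rfl
  have hmono : StrictMono m := by
    refine strictMono_nat_of_lt_succ fun k => ?_
    have := h1 (seq (k + 1)).1 (seq (k + 1)).2
    rw [hsm] at this
    exact this
  have hVsub : ∀ i j, i ≤ j → (s j).V ⊆ (s i).V := by
    intro i j hij
    induction hij with
    | refl => exact subset_rfl
    | step _ ih => exact (h3 _ _).trans ih
  have hUsub : ∀ i j, i ≤ j → (s j).U ⊆ (s i).U := by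
    intro i j hij
    induction hij with
    | refl => exact subset_rfl
    | step _ ih => exact (h8 _ _).trans ih
  have hWsub : ∀ i j, i ≤ j → (s j).W ⊆ (s i).W := by
    intro i j hij
    induction hij with
    | refl => exact subset_rfl
    | step _ ih => exact (h6 _ _).trans ih
  have hWsub' : ∀ i j, i ≤ j → (s j).W' ⊆ (s i).W' := by
    intro i j hij
    induction hij with
    | refl => exact subset_rfl
    | step _ ih => exact (h11 _ _).trans ih
  have hAdisj : ∀ i j, i < j → Disjoint (A (seq i).1 (seq i).2) (A (seq j).1 (seq j).2) := by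
    intro i j hij
    refine (h7 (seq i).1 (seq i).2).mono_right ?_
    exact (h5 (seq j).1 (seq j).2).trans (hWsub (i + 1) j hij)
  have hAdisj' : ∀ i j, i < j → Disjoint (A' (seq i).1 (seq i).2) (A' (seq j).1 (seq j).2) := by
    intro i j hij
    refine (h12 (seq i).1 (seq i).2).mono_right ?_
    exact (h10 (seq j).1 (seq j).2).trans (hWsub' (i + 1) j hij)
  -- symmetric versions
  have sym : ∀ (T : ℕ → Set G), (∀ i j, i < j → Disjoint (T i) (T j)) →
      ∀ i j, i ≠ j → Disjoint (T i) (T j) := by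
    intro T hT i j hij
    rcases lt_or_gt_of_ne hij with h | h
    · exact hT i j h
    · exact (hT j i h).symm
  let TA : ℕ → Set G := fun k => {z | f z ∈ (s k).V ∧ f z ∉ (s (k + 1)).V}
  let TB : ℕ → Set G := fun k => {z | f z ∈ (s (k + 1)).V}
  let TC : ℕ → Set G := fun k => {z | f z ∉ (s k).V ∧ x' (m k) • f z ∈ (s (k + 1)).U}
  let TF : ℕ → Set G := fun k => {z | f z ∉ (s k).V ∧ x' (m k) • f z ∉ (s (k + 1)).U}
  have hTA : ∀ i j, i ≠ j → Disjoint (TA i) (TA j) := by
    refine sym TA fun i j hij => ?_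
    rw [Set.disjoint_left]
    rintro z ⟨_, hz⟩ ⟨hz', _⟩
    exact hz (hVsub (i + 1) j hij hz')
  have hTC : ∀ i j, i ≠ j → Disjoint (TC i) (TC j) := by
    refine sym TC fun i j hij => ?_
    rw [Set.disjoint_left]
    rintro z ⟨_, hz⟩ ⟨_, hz'⟩
    exact Set.disjoint_left.mp (hAdisj' i j hij) (h9 _ _ _ hz) (h9 _ _ _ hz')
  have hTB : ∀ i j, i ≠ j → Disjoint {z | (x (φ (m i)))⁻¹ * z ∈ TB i}
      {z | (x (φ (m j)))⁻¹ * z ∈ TB j} := by
    refine sym (fun k => {z | (x (φ (m k)))⁻¹ * z ∈ TB k}) fun i j hij => ?_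
    rw [Set.disjoint_left]
    intro z hy hy'
    have k1 : f z ∈ A (seq i).1 (seq i).2 := by
      have h0 : f ((x (φ (m i)))⁻¹ * z) ∈ (s (i + 1)).V := hy
      rw [hf'] at h0
      have := h4 (seq i).1 (seq i).2 _ h0
      rwa [smul_inv_smul] at this
    have k2 : f z ∈ A (seq j).1 (seq j).2 := by
      have h0 : f ((x (φ (m j)))⁻¹ * z) ∈ (s (j + 1)).V := hy'
      rw [hf'] at h0
      have := h4 (seq j).1 (seq j).2 _ h0
      rwa [smul_inv_smul] at this
    exact Set.disjoint_left.mp (hAdisj i j hij) k1 k2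
  have hTF : ∀ i j, i ≠ j → Disjoint {z | (x (φ (m i)))⁻¹ * z ∈ TF i}
      {z | (x (φ (m j)))⁻¹ * z ∈ TF j} := by
    refine sym (fun k => {z | (x (φ (m k)))⁻¹ * z ∈ TF k}) fun i j hij => ?_
    rw [Set.disjoint_left]
    rintro z ⟨_, hy⟩ ⟨hy', _⟩
    have k1 : f z ∈ (s j).U := by
      rw [hf'] at hy'
      have := h2 (seq j).1 (seq j).2 _ hy'
      rwa [smul_inv_smul] at this
    apply hy
    rw [hf', smul_inv_smul]
    exact hUsub (i + 1) j hij k1
  refine ⟨fun k => φ (m k), fun i j hij => Fin.ext (hmono.injective (hφ.injective hij)), ?_⟩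
  intro cc hcc
  refine norm_four (fun k : Fin M => x (φ (m k))) cc hcc (fun k => TA k) (fun k => TB k)
    (fun k => TC k) (fun k => TF k) (fun i j hij => hTA _ _ fun h => hij (Fin.ext h))
    (fun i j hij => hTC _ _ fun h => hij (Fin.ext h))
    (fun i j hij => hTB _ _ fun h => hij (Fin.ext h))
    (fun i j hij => hTF _ _ fun h => hij (Fin.ext h)) ?_
  intro k g
  apply lp.ext
  funext z
  have hadd : ((cut (TA k) g + cut (TB k) g + cut (TC k) g + cut (TF k) g : L2 G) : G → ℂ) z =
      (cut (TA k) g : G → ℂ) z + (cut (TB k) g : G → ℂ) z + (cut (TC k) g : G → ℂ) z +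
        (cut (TF k) g : G → ℂ) z := rfl
  rw [hadd, cut_apply, cut_apply, cut_apply, cut_apply]
  have hsub := hVsub k (k + 1) (Nat.le_succ k)
  by_cases c1 : f z ∈ (s (k + 1)).V
  · have c2 : f z ∈ (s k).V := hsub c1
    simp [TA, TB, TC, TF, c1, c2]
  · by_cases c2 : f z ∈ (s k).V
    · simp [TA, TB, TC, TF, c1, c2]
    · by_cases c3 : x' (m k) • f z ∈ (s (k + 1)).U
      · simp [TA, TB, TC, TF, c1, c2, c3]
      · simp [TA, TB, TC, TF, c1, c2, c3]

/-- equivariant maps on the cosets of a subgroup -/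
theorem exists_equi {G Q X : Type} [Group G] [Group Q] [MulAction Q X] (H : Subgroup G)
    (π : H →* Q) (o : X) : ∃ f : G → X, ∀ (h : H) (z : G), f (h * z) = π h • f z := by
  classical
  let t : G → G := fun z => (Quotient.mk (QuotientGroup.rightRel H) z).out
  have ht : ∀ z, z * (t z)⁻¹ ∈ H := by
    intro z
    have h1 : (QuotientGroup.rightRel H).r (t z) z := Quotient.exact (Quotient.out_eq _)
    exact QuotientGroup.rightRel_apply.1 h1
  have ht2 : ∀ (h : H) (z : G), t (h * z) = t z := by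
    intro h z
    show (Quotient.mk (QuotientGroup.rightRel H) (h * z)).out =
      (Quotient.mk (QuotientGroup.rightRel H) z).out
    congr 1
    apply Quotient.sound
    refine QuotientGroup.rightRel_apply.2 ?_
    rw [mul_inv_rev, mul_inv_cancel_left]
    exact inv_mem h.2
  refine ⟨fun z => π ⟨z * (t z)⁻¹, ht z⟩ • o, fun h z => ?_⟩
  show π ⟨h * z * (t (h * z))⁻¹, ht _⟩ • o = π h • (π ⟨z * (t z)⁻¹, ht z⟩ • o)
  rw [← mul_smul, ← map_mul]
  congr 2
  refine Subtype.ext ?_
  show (h : G) * z * (t (h * z))⁻¹ = h * (z * (t z)⁻¹)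
  rw [ht2, mul_assoc]

end Pool.Agent.Helper29.RH
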