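import Pool.Agent.Helper29.RH.Fam
import Pool.Agent.Helper29.RH.Sparse3

/-! Orbits in subgroups with quotients which are convergence groups. -/

set_option autoImplicit false
set_option linter.unusedSectionVars false
set_option linter.style.haveILetI false

namespace Pool.Agent.Helper29.RH

open Filter Topology Set MulAction
open Pool.Agent.W726.NS (ConvergenceAction RedAlg)
open Pool.Agent.Helper188.NCM (norm_unitary_le iter_smul)
open Pool.Agent.Helper29.NU (rsA rsA_pow)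

/-- the orbit of `g` is spread out in a quotient which is a convergence group -/
def Spread {H : Type} [Group H] (s : MulAut H) (g : H) : Prop :=
  ∃ (Q : Type) (_ : Group Q) (π : H →* Q) (X : Type) (_ : TopologicalSpace X) (_ : CompactSpace X)
    (_ : T2Space X) (_ : Infinite X) (_ : MulAction Q X) (m : ℕ) (t : MulAut Q) (S : Set ℕ),
    ConvergenceAction Q X ∧ (∀ x, π ((s ^ m) x) = t (π x)) ∧
    Function.Injective (fun n : ℕ => (t ^ n) (π g)) ∧ S.Infinite ∧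
    ∀ (p : X) (j : ℕ), {n ∈ S | ((t ^ j) (π g))⁻¹ * (t ^ n) (π g) ∈ stabilizer Q p}.Finite

/-- **The dichotomy** for one quotient which is a convergence group. -/
theorem spread_or {G Q X : Type} [Group G] [Group Q] [TopologicalSpace X] [CompactSpace X]
    [T2Space X] [MulAction Q X]
    (hG : ConvergenceAction Q X) [Infinite X] (hst : ∀ p : X, VSo (stabilizer Q p))
    (π : G →* Q) (hπ : Function.Surjective π) (σ : MulAut G) {m₀ : ℕ} (hm₀ : 0 < m₀)
    (hker : ∀ x, x ∈ π.ker ↔ (σ ^ m₀) x ∈ π.ker) (g : G) :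
    Spread σ g ∨ ∃ m : ℕ, 0 < m ∧ ∃ E : Subgroup Q, VSo E ∧
      (∀ z, π z ∈ E ↔ π ((σ ^ m) z) ∈ E) ∧ π (g⁻¹ * (σ ^ m) g) ∈ E := by
  obtain ⟨s, hs⟩ : ∃ s : MulAut Q, ∀ x, π ((σ ^ m₀) x) = s (π x) := by
    have hmap : π.ker.map ((σ ^ m₀ : MulAut G) : G →* G) = π.ker := by
      ext x
      constructor
      · rintro ⟨y, hy, rfl⟩
        exact (hker y).1 hy
      · intro hx
        refine ⟨(σ ^ m₀)⁻¹ x, (hker _).2 ?_, ?_⟩
        · rw [MulAut.apply_inv_self]
          exact hx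
        · exact MulAut.apply_inv_self _ _ _
    let e1 : G ⧸ π.ker ≃* Q := QuotientGroup.quotientKerEquivOfSurjective π hπ
    let e2 : G ⧸ π.ker ≃* G ⧸ π.ker := QuotientGroup.congr π.ker π.ker (σ ^ m₀) hmap
    refine ⟨(e1.symm.trans e2).trans e1, fun x => ?_⟩
    have h1 : e1.symm (π x) = QuotientGroup.mk x := by
      rw [MulEquiv.symm_apply_eq]
      rfl
    show _ = e1 (e2 (e1.symm (π x)))
    rw [h1]
    rfl
  have hsn : ∀ (n : ℕ) (x : G), π ((σ ^ (m₀ * n)) x) = (s ^ n) (π x) := by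
    intro n
    induction n with
    | zero => intro x; rfl
    | succ n ih =>
      intro x
      rw [mul_add, mul_one, pow_add, MulAut.mul_apply, ih, hs, pow_succ, MulAut.mul_apply]
  by_cases hinj : Function.Injective (fun n : ℕ => (s ^ n) (π g))
  · rcases dich_any hG hst s (π g) hinj with ⟨S, hS, hSf⟩ | ⟨m, hm, E, hE, h1, h2⟩
    · exact Or.inl ⟨Q, inferInstance, π, X, inferInstance, inferInstance, inferInstance,
        inferInstance, inferInstance, m₀, s, S, hG, hs, hinj, hS, hSf⟩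
    · refine Or.inr ⟨m₀ * m, Nat.mul_pos hm₀ hm, E, hE, fun z => ?_, ?_⟩
      · rw [hsn]
        exact h1 _
      · rw [map_mul, map_inv, hsn]
        exact h2
  · right
    obtain ⟨i, j, hij, hne⟩ : ∃ i j : ℕ, (s ^ i) (π g) = (s ^ j) (π g) ∧ i ≠ j := by
      simpa [Function.Injective] using hinj
    wlog hlt : i < j generalizing i j
    · exact this j i hij.symm hne.symm (by omega)
    obtain ⟨m, rfl⟩ : ∃ m, j = i + m := ⟨j - i, by omega⟩
    have h1 : (s ^ m) (π g) = π g := by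
      rw [pow_add, MulAut.mul_apply] at hij
      exact ((s ^ i).injective hij).symm
    refine ⟨m₀ * m, Nat.mul_pos hm₀ (by omega), ⊥, ⟨⊤, inferInstance, ?_⟩, fun z => ?_, ?_⟩
    · infer_instance
    · rw [Subgroup.mem_bot, Subgroup.mem_bot, hsn]
      exact (map_eq_one_iff _ (s ^ m).injective).symm
    · rw [map_mul, map_inv, hsn, h1, inv_mul_cancel]
      exact one_mem _

theorem one_quot3 {G : Type} [Group G] {N : Subgroup G} (hN : CQ N) (σ : MulAut G)
    (hinv : ∃ m : ℕ, 0 < m ∧ ∀ x, x ∈ N ↔ (σ ^ m) x ∈ N) (g : G) (hg : ¬ Spread σ g) :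
    ∃ m : ℕ, 0 < m ∧ ∃ F : Subgroup G, (∀ z, z ∈ F ↔ (σ ^ m) z ∈ F) ∧ g⁻¹ * (σ ^ m) g ∈ F ∧
      ∃ (Q : Type) (_ : Group Q) (π : G →* Q), π.ker = N ∧ VSo (F.map π) := by
  obtain ⟨Q, iQ, π, X, i1, i2, i3, i4, i5, hπ, hk, hG, hst⟩ := hN
  obtain ⟨m₀, hm₀, hinv⟩ := hinv
  subst hk
  rcases spread_or hG hst π hπ σ hm₀ hinv g with h | ⟨m, hm, E, hE, h1, h2⟩
  · exact absurd h hg
  · refine ⟨m, hm, E.comap π, h1, h2, Q, iQ, π, rfl, ?_⟩
    rw [Subgroup.map_comap_eq_self_of_surjective hπ]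
    exact hE

/-- **The dichotomy for a finite family of quotients.** -/
theorem fam_dich3 {G : Type} [Group G] {r : ℕ} (N : Fin r → Subgroup G)
    (hN : ∀ i, CQ (N i)) (σ : MulAut G)
    (hinv : ∀ i, ∃ m : ℕ, 0 < m ∧ ∀ x, x ∈ N i ↔ (σ ^ m) x ∈ N i)
    (hVS : VSo (⨅ i, N i)) (g : G) :
    Spread σ g ∨ ∃ m : ℕ, 0 < m ∧ ∃ E : Subgroup G, VSo E ∧ (∀ z, z ∈ E ↔ (σ ^ m) z ∈ E) ∧
      g⁻¹ * (σ ^ m) g ∈ E := by
  by_cases hg : Spread σ g
  · exact Or.inl hg
  right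
  choose m hm F h1 h2 h3 using fun i => one_quot3 (hN i) σ (hinv i) g hg
  have hdvd : ∀ i, ∃ k, ∏ j, m j = m i * k := fun i =>
    Finset.dvd_prod_of_mem m (Finset.mem_univ i)
  refine ⟨∏ i, m i, Finset.prod_pos fun i _ => hm i, ⨅ i, F i, ?_, fun z => ?_, ?_⟩
  · refine vso_fam Finset.univ N _ (fun i _ => ?_) (hVS.mono ?_)
    · obtain ⟨Q, iQ, π, hπ, hv⟩ := h3 i
      exact ⟨Q, iQ, π, hπ, hv.mono (Subgroup.map_mono (iInf_le _ i))⟩
    · refine inf_le_right.trans ?_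
      simp
  · rw [Subgroup.mem_iInf, Subgroup.mem_iInf]
    refine forall_congr' fun i => ?_
    obtain ⟨k, hk⟩ := hdvd i
    rw [hk]
    exact inv_mul_pow (h1 i) k z
  · rw [Subgroup.mem_iInf]
    intro i
    obtain ⟨k, hk⟩ := hdvd i
    rw [hk]
    exact coc_pow (h1 i) (h2 i) k

variable {A G : Type} [CStarAlgebra A] [Group G]

/-- orbits which are spread out are scattered in the reduced algebra -/
theorem scat_of_spread {u : G → A} {τ : A →L[ℂ] ℂ} (hu : RedAlg u τ) (σ : MulAut G)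
    (α : A →⋆ₐ[ℂ] A) (hα : ∀ g, ∃ c : ℂ, ‖c‖ = 1 ∧ α (u g) = c • u (σ g)) (H : Subgroup G)
    (k₀ : ℕ) (s : MulAut H) (hs : ∀ x : H, ((s x : H) : G) = (σ ^ k₀) x) (g : H)
    (hg : Spread s g) : Scat α (u g) := by
  classical
  obtain ⟨Q, iQ, π, X, i1, i2, i3, i4, i5, m, t, S, hG, hst, hinj, hS, hSf⟩ := hg
  refine scat_of_blocks α (u g) (norm_unitary_le (hu.unit g)) fun M => ?_
  have hSi : Infinite S := hS.to_subtype
  let e : ℕ ↪o ℕ := Nat.orderEmbeddingOfSet S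
  have heS : ∀ n, e n ∈ S := fun n => by
    have : e n ∈ Set.range (Nat.orderEmbeddingOfSet S) := ⟨n, rfl⟩
    rwa [Nat.orderEmbeddingOfSet_range] at this
  obtain ⟨o⟩ : Nonempty X := inferInstance
  obtain ⟨f, hf⟩ := exists_equi H π o
  have hstn : ∀ (n : ℕ) (x : H), π ((s ^ (m * n)) x) = (t ^ n) (π x) := by
    intro n
    induction n with
    | zero => intro x; rfl
    | succ n ih =>
      intro x
      rw [mul_add, mul_one, pow_add, MulAut.mul_apply, ih, hst, pow_succ, MulAut.mul_apply]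
  have hsn : ∀ (n : ℕ) (x : H), (((s ^ n) x : H) : G) = (σ ^ (k₀ * n)) x := by
    intro n
    induction n with
    | zero => intro x; rfl
    | succ n ih =>
      intro x
      rw [pow_succ, MulAut.mul_apply, ih, hs, mul_add, mul_one, pow_add, MulAut.mul_apply]
  set x : ℕ → G := fun k => (σ ^ (k₀ * (m * e k))) g with hx
  set y : ℕ → Q := fun k => (t ^ (e k)) (π g) with hy
  have hxy : ∀ k z, f (x k * z) = y k • f z := by
    intro k z
    have h1 := hf ((s ^ (m * e k)) g) z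
    rw [hsn, hstn] at h1
    exact h1
  obtain ⟨φ, hφ, a, b, hab⟩ := hG.2 y (fun i j hij => e.injective (hinj hij))
  obtain ⟨n, -, hn⟩ := sparse_norm3 hG.1 f x y hxy ⟨φ, hφ, a, b, hab⟩ (by
      intro p q
      by_cases hne : ∃ k0, y k0 • p = q
      · obtain ⟨k0, hk0⟩ := hne
        have h1 := hSf p (e k0)
        refine (h1.preimage (f := e) e.injective.injOn).subset ?_
        intro k hk
        refine ⟨heS k, ?_⟩
        have hk' : y k • p = q := hk
        show (y k0)⁻¹ * y k ∈ stabilizer Q p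
        rw [MulAction.mem_stabilizer_iff, mul_smul, hk', ← hk0, inv_smul_smul]
      · convert Set.finite_empty (α := ℕ)
        ext k
        simp only [Set.mem_ofPred_eq, Set.mem_empty_iff_false, iff_false]
        exact fun h => hne ⟨k, h⟩) M
  refine ⟨fun k => k₀ * (m * e (n k)), fun c hc => ?_⟩
  choose c' hc' hc'' using fun k : Fin M => iter_cov hα (k₀ * (m * e (n k))) (g : G)
  have h3 : ∀ k, ‖c k * c' k‖ ≤ 1 := fun k => by
    rw [norm_mul, hc' k, mul_one]; exact hc k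
  have h2 := hn (fun k => ((‖c k * c' k‖ : ℝ) : ℂ)) (fun k => by
    rw [Complex.norm_real, norm_norm]; exact h3 k)
  have h4 := hu.norm_sum_le (fun k => x (n k)) (fun k => c k * c' k)
    (by positivity) h2
  refine le_trans (le_of_eq ?_) h4
  congr 1
  refine Finset.sum_congr rfl fun k _ => ?_
  rw [hc'' k, smul_smul]

/-- **The dichotomy in the algebra, local version.** -/
theorem loc_dich {u : G → A} {τ : A →L[ℂ] ℂ} (hu : RedAlg u τ) (σ : MulAut G)
    (α : A →⋆ₐ[ℂ] A) (hα : ∀ g, ∃ c : ℂ, ‖c‖ = 1 ∧ α (u g) = c • u (σ g)) (H : Subgroup G)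
    {k₀ : ℕ} (hk₀ : 0 < k₀) (hH : ∀ x, x ∈ H ↔ (σ ^ k₀) x ∈ H) {r : ℕ}
    (N : Fin r → Subgroup H) (hN : ∀ i, CQ (N i))
    (hinv : ∀ i, ∀ x y : H, (y : G) = (σ ^ k₀) x → (x ∈ N i ↔ y ∈ N i))
    (hVS : VSo (⨅ i, N i)) (g : G) (hgH : g ∈ H) :
    Scat α (u g) ∨ ∃ m : ℕ, 0 < m ∧ ∃ E : Subgroup G, VSo E ∧ (∀ z, z ∈ E ↔ (σ ^ m) z ∈ E) ∧
      g⁻¹ * (σ ^ m) g ∈ E := by
  set s : MulAut H := rsA (σ ^ k₀) H hH with hs
  have hsc : ∀ x : H, ((s x : H) : G) = (σ ^ k₀) x := fun x => rfl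
  have hsn : ∀ (n : ℕ) (x : H), (((s ^ n) x : H) : G) = (σ ^ (k₀ * n)) x := by
    intro n
    induction n with
    | zero => intro x; rfl
    | succ n ih =>
      intro x
      rw [pow_succ, MulAut.mul_apply, ih, hsc, mul_add, mul_one, pow_add, MulAut.mul_apply]
  rcases fam_dich3 N hN s (fun i => ⟨1, one_pos, fun x => by
    rw [pow_one]; exact hinv i x (s x) (hsc x)⟩) hVS ⟨g, hgH⟩ with h | ⟨m, hm, E, hE, h1, h2⟩
  · exact Or.inl (scat_of_spread hu σ α hα H k₀ s hsc ⟨g, hgH⟩ h)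
  · refine Or.inr ⟨k₀ * m, Nat.mul_pos hk₀ hm, E.map H.subtype, vso_map_subtype hE,
      fun z => ?_, ?_⟩
    · constructor
      · rintro ⟨y, hy, rfl⟩
        exact ⟨(s ^ m) y, (h1 y).1 hy, hsn m y⟩
      · rintro ⟨y, hy, hyz⟩
        have hz : z ∈ H := by
          rw [inv_mul_pow hH m z]
          have h4 : (y : G) = (σ ^ (k₀ * m)) z := hyz
          rw [← h4]
          exact y.2
        refine ⟨⟨z, hz⟩, (h1 _).2 ?_, rfl⟩
        have : (s ^ m) ⟨z, hz⟩ = y := Subtype.ext (by rw [hsn]; exact hyz.symm)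
        rw [this]
        exact hy
    · refine ⟨_, h2, ?_⟩
      show (((⟨g, hgH⟩ : H)⁻¹ * (s ^ m) ⟨g, hgH⟩ : H) : G) = _
      rw [Subgroup.coe_mul, Subgroup.coe_inv, hsn]

end Pool.Agent.Helper29.RH
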