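import Pool.Agent.Helper29.RH.Max

/-! The dichotomy for orbits of automorphisms of convergence groups. -/

set_option autoImplicit false
set_option linter.unusedSectionVars false
set_option linter.style.haveILetI false

namespace Pool.Agent.Helper29.RH

open Filter Topology Set MulAction
open Pool.Agent.W726.NS (ConvergenceAction)

variable {G X : Type} [Group G] [TopologicalSpace X] [CompactSpace X] [T2Space X] [MulAction G X]

/-- the line through `y` in the direction of `E` -/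
def Ls (x : ℕ → G) (y : G) (E : Subgroup G) : Set ℕ := {n | y⁻¹ * x n ∈ E}

theorem inf_diff {x : ℕ → G} (hx : Function.Injective x) {S : Set ℕ} (hS : S.Infinite)
    {K : Subgroup G} (n0 : ℕ) (h : ∀ n ∈ S, (x n0)⁻¹ * x n ∈ K) : (K : Set G).Infinite := by
  have h1 : ((fun n => (x n0)⁻¹ * x n) '' S).Infinite :=
    hS.image fun a _ b _ hab => hx (mul_left_cancel hab)
  refine h1.mono ?_
  rintro _ ⟨n, hn, rfl⟩
  exact h n hn

theorem line_eq (hG : ConvergenceAction G X) [Infinite X] (hst : ∀ p : X, VSo (stabilizer G p))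
    {x : ℕ → G} (hx : Function.Injective x) {y y' : G} {E E' : Subgroup G} (hE : E ∈ EE G X)
    (hE' : E' ∈ EE G X) (hinf : (Ls x y E ∩ Ls x y' E').Infinite) : E = E' ∧ y⁻¹ * y' ∈ E := by
  obtain ⟨n0, hn0⟩ := hinf.nonempty
  have h1 : ((E ⊓ E' : Subgroup G) : Set G).Infinite := by
    refine inf_diff hx hinf n0 fun n hn => ?_
    obtain ⟨h1, h2⟩ := hn
    obtain ⟨h3, h4⟩ := hn0
    refine Subgroup.mem_inf.mpr ⟨?_, ?_⟩
    · have e : (x n0)⁻¹ * x n = (y⁻¹ * x n0)⁻¹ * (y⁻¹ * x n) := by group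
      rw [e]
      exact E.mul_mem (E.inv_mem h3) h1
    · have e : (x n0)⁻¹ * x n = (y'⁻¹ * x n0)⁻¹ * (y'⁻¹ * x n) := by group
      rw [e]
      exact E'.mul_mem (E'.inv_mem h4) h2
  have h2 := EE_eq hG hst hE hE' h1
  refine ⟨h2, ?_⟩
  obtain ⟨h3, h4⟩ := hn0
  have h5 : y⁻¹ * x n0 ∈ E := h3
  have h6 : y'⁻¹ * x n0 ∈ E := by rw [h2]; exact h4
  have e : y⁻¹ * y' = (y⁻¹ * x n0) * (y'⁻¹ * x n0)⁻¹ := by group
  rw [e]
  exact E.mul_mem h5 (E.inv_mem h6)

/-- the infinite lines -/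
def Lines (X : Type) [MulAction G X] (x : ℕ → G) : Set (Set ℕ) :=
  {L | ∃ y : G, ∃ E ∈ EE G X, L = Ls x y E ∧ L.Infinite}

theorem lines_inter (hG : ConvergenceAction G X) [Infinite X]
    (hst : ∀ p : X, VSo (stabilizer G p)) {x : ℕ → G} (hx : Function.Injective x)
    {L L' : Set ℕ} (hL : L ∈ Lines X x) (hL' : L' ∈ Lines X x) (hne : L ≠ L') :
    (L ∩ L').Finite := by
  obtain ⟨y, E, hE, rfl, -⟩ := hL
  obtain ⟨y', E', hE', rfl, -⟩ := hL'
  by_contra hinf
  obtain ⟨e, hy⟩ := line_eq hG hst hx hE hE' hinf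
  apply hne
  ext n
  show y⁻¹ * x n ∈ E ↔ y'⁻¹ * x n ∈ E'
  rw [← e]
  have e2 : y⁻¹ * x n = (y⁻¹ * y') * (y'⁻¹ * x n) := by group
  rw [e2]
  exact E.mul_mem_cancel_left hy

theorem lines_finite (hG : ConvergenceAction G X) [Infinite X]
    (hst : ∀ p : X, VSo (stabilizer G p)) {x : ℕ → G} (hx : Function.Injective x)
    (hcount : (Lines X x).Countable)
    (ha : ∀ S : Set ℕ, S.Infinite → ∃ L ∈ Lines X x, (S ∩ L).Infinite) : (Lines X x).Finite := by
  classical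
  by_contra hinf
  have hc : Countable (Lines X x) := hcount.to_subtype
  have hi : Infinite (Lines X x) := Set.Infinite.to_subtype hinf
  obtain ⟨hden⟩ := nonempty_denumerable (Lines X x)
  let e : Lines X x ≃ ℕ := Denumerable.eqv _
  let f : ℕ → Set ℕ := fun k => (e.symm k : Set ℕ)
  have hfmem : ∀ k, f k ∈ Lines X x := fun k => (e.symm k).2
  have hfinj : ∀ i j, f i = f j → i = j := by
    intro i j hij
    exact e.symm.injective (Subtype.ext hij)
  have hfinf : ∀ k, (f k \ ⋃ i ∈ Finset.range k, f i).Infinite := by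
    intro k
    obtain ⟨y, E, hE, e1, h1⟩ := hfmem k
    have h2 : (f k ∩ ⋃ i ∈ Finset.range k, f i).Finite := by
      rw [inter_iUnion₂]
      refine (Finset.finite_toSet _).biUnion (fun i hi => ?_)
      refine lines_inter hG hst hx (hfmem k) (hfmem i) (fun heq => ?_)
      have := hfinj _ _ heq
      have h3 := Finset.mem_range.mp hi
      omega
    intro h3
    exact h1 ((h3.union h2).subset (fun n hn => by
      by_cases h4 : n ∈ ⋃ i ∈ Finset.range k, f i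
      · exact Or.inr ⟨hn, h4⟩
      · exact Or.inl ⟨hn, h4⟩))
  choose n hn hnk using fun k => (hfinf k).exists_gt k
  have hSinf : (range n).Infinite := by
    apply infinite_of_not_bddAbove
    rintro ⟨B, hB⟩
    have := hB ⟨B, rfl⟩
    have h2 := hnk B
    omega
  obtain ⟨L, hL, hSL⟩ := ha _ hSinf
  obtain ⟨i, hi⟩ : ∃ i, f i = L := ⟨e ⟨L, hL⟩, by simp [f]⟩
  apply hSL
  refine ((Finset.range (i + 1)).finite_toSet.image n).subset ?_
  rintro m ⟨⟨k, rfl⟩, hm⟩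
  refine ⟨k, ?_, rfl⟩
  rw [Finset.mem_coe, Finset.mem_range]
  by_contra hcon
  have h1 : i < k := by omega
  refine (hn k).2 ?_
  exact mem_biUnion (x := i) (by simpa using h1) (by rw [hi]; exact hm)

/-- the second half: finitely many lines -/
theorem of_finite_lines (hG : ConvergenceAction G X) [Infinite X]
    (hst : ∀ p : X, VSo (stabilizer G p)) (σ : MulAut G) (g : G)
    (hx : Function.Injective (fun n : ℕ => (σ ^ n) g))
    (hfin : (Lines X (fun n : ℕ => (σ ^ n) g)).Finite)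
    (hne : (Lines X (fun n : ℕ => (σ ^ n) g)).Nonempty) :
    ∃ m : ℕ, 0 < m ∧ ∃ E : Subgroup G, VSo E ∧ (∀ z, z ∈ E ↔ (σ ^ m) z ∈ E) ∧
      g⁻¹ * (σ ^ m) g ∈ E := by
  classical
  set x : ℕ → G := fun n : ℕ => (σ ^ n) g with hxdef
  obtain ⟨L, y, E, hE, rfl, hLinf⟩ := hne
  have hEj : ∀ j : ℕ, E.map (σ ^ j).toMonoidHom ∈ EE G X := fun j => EE_map hG hst hE _
  have hmem : ∀ (j : ℕ) (z : G), (σ ^ j) z ∈ E.map (σ ^ j).toMonoidHom ↔ z ∈ E := by
    intro j z
    constructor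
    · rintro ⟨w, hw, h⟩
      rwa [(σ ^ j).injective h] at hw
    · intro hz
      exact ⟨z, hz, rfl⟩
  have hLj : ∀ j : ℕ, Ls x ((σ ^ j) y) (E.map (σ ^ j).toMonoidHom) ∈ Lines X x := by
    intro j
    refine ⟨_, _, hEj j, rfl, ?_⟩
    refine (hLinf.image (f := fun n => j + n) (fun a _ b _ hab => by simpa using hab)).mono ?_
    rintro _ ⟨n, hn, rfl⟩
    show ((σ ^ j) y)⁻¹ * (σ ^ (j + n)) g ∈ E.map (σ ^ j).toMonoidHom
    rw [pow_add, MulAut.mul_apply, ← map_inv, ← map_mul, hmem]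
    exact hn
  have hfin' : Finite (Lines X x) := hfin.to_subtype
  obtain ⟨j, j', hjj, heq⟩ := Finite.exists_ne_map_eq_of_infinite
    (fun j : ℕ => (⟨_, hLj j⟩ : Lines X x))
  wlog hlt : j < j' generalizing j j'
  · exact this j' j hjj.symm heq.symm (by omega)
  have heq' : Ls x ((σ ^ j) y) (E.map (σ ^ j).toMonoidHom) =
      Ls x ((σ ^ j') y) (E.map (σ ^ j').toMonoidHom) := congrArg Subtype.val heq
  obtain ⟨-, -, -, -, hinf1⟩ := hLj j
  obtain ⟨e1, e2⟩ := line_eq hG hst hx (hEj j) (hEj j') (y := (σ ^ j) y) (y' := (σ ^ j') y)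
    (by rw [← heq', inter_self]; exact hinf1)
  obtain ⟨D, rfl⟩ : ∃ D, j' = j + D := ⟨j' - j, by omega⟩
  have hD : 0 < D := by omega
  have hcomm : ∀ (a b : ℕ) (z : G), (σ ^ a) ((σ ^ b) z) = (σ ^ b) ((σ ^ a) z) := by
    intro a b z
    rw [← MulAut.mul_apply, ← pow_add, add_comm, pow_add, MulAut.mul_apply]
  have hE' : ∀ z, z ∈ E ↔ (σ ^ D) z ∈ E := by
    intro z
    rw [← hmem (j + D) z, ← e1, pow_add, MulAut.mul_apply, hmem]
  have hy : y⁻¹ * (σ ^ D) y ∈ E := by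
    rw [← hmem j, map_mul, map_inv]
    rwa [pow_add, MulAut.mul_apply] at e2
  obtain ⟨n, hn⟩ := hLinf.nonempty
  have hn' : y⁻¹ * x n ∈ E := hn
  have hg' : (x n)⁻¹ * (σ ^ D) (x n) ∈ E := by
    have e : (x n)⁻¹ * (σ ^ D) (x n) =
        (y⁻¹ * x n)⁻¹ * (y⁻¹ * (σ ^ D) y) * (σ ^ D) (y⁻¹ * x n) := by
      rw [map_mul, map_inv]; group
    rw [e]
    exact E.mul_mem (E.mul_mem (E.inv_mem hn') hy) ((hE' _).mp hn')
  -- pull back by `σ ^ n`
  refine ⟨D, hD, E.comap (σ ^ n).toMonoidHom, ?_, fun z => ?_, ?_⟩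
  · have h1 := (EE_vso hG hst hE).map (σ ^ n)⁻¹
    have h2 : E.map ((σ ^ n)⁻¹).toMonoidHom = E.comap (σ ^ n).toMonoidHom := by
      ext z
      constructor
      · rintro ⟨w, hw, rfl⟩
        show (σ ^ n) ((σ ^ n)⁻¹ w) ∈ E
        rw [MulAut.apply_inv_self]
        exact hw
      · intro hz
        exact ⟨(σ ^ n) z, hz, MulAut.inv_apply_self _ (σ ^ n) z⟩
    rwa [h2] at h1
  · show (σ ^ n) z ∈ E ↔ (σ ^ n) ((σ ^ D) z) ∈ E
    rw [hcomm n D]
    exact hE' _
  · show (σ ^ n) (g⁻¹ * (σ ^ D) g) ∈ E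
    rw [map_mul, map_inv, hcomm n D]
    exact hg'

end Pool.Agent.Helper29.RH
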