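import Pool.Agent.Helper29.RH.Core2

/-! Finite families of quotients which are convergence groups. -/

set_option autoImplicit false
set_option linter.unusedSectionVars false
set_option linter.style.haveILetI false

namespace Pool.Agent.Helper29.RH

open Filter Topology Set MulAction
open Pool.Agent.W726.NS (ConvergenceAction RedAlg)

theorem VSg.of_injective {A B : Type} [Group A] [Group B] (f : A →* B) (hf : Function.Injective f)
    (h : VSg B) : VSg A := by
  obtain ⟨S, hS, hSs⟩ := h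
  refine ⟨S.comap f, ⟨?_⟩, ?_⟩
  · rw [Subgroup.index_comap]
    haveI : (S.subgroupOf f.range).FiniteIndex := inferInstance
    exact this.index_ne_zero
  · exact Group.isSolvable_of_isSolvable_injective
      (f := ({ toFun := fun x => ⟨f x.1, x.2⟩
               map_one' := Subtype.ext (map_one f)
               map_mul' := fun x y => Subtype.ext (map_mul f _ _) } : (S.comap f) →* S))
      fun x y hxy => Subtype.ext (hf (congrArg Subtype.val hxy))

theorem vso_of_map {G Q : Type} [Group G] [Group Q] {H : Subgroup G} (π : G →* Q)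
    (h1 : VSo (H.map π)) (h2 : VSo (H ⊓ π.ker)) : VSo H := by
  obtain ⟨S, hS, hSs⟩ := h1
  set f : H →* H.map π := π.subgroupMap H with hf
  have hfs : Function.Surjective f := π.subgroupMap_surjective H
  set D : Subgroup H := S.comap f with hD
  have hDi : D.index ≠ 0 := by
    rw [hD, Subgroup.index_comap_of_surjective _ hfs]
    exact hS.index_ne_zero
  let h : D →* S :=
    { toFun := fun x => ⟨f x.1, x.2⟩
      map_one' := Subtype.ext (map_one f)
      map_mul' := fun x y => Subtype.ext (map_mul f _ _) }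
  have hq : Group.IsSolvable (D ⧸ h.ker) :=
    Group.isSolvable_of_isSolvable_injective (QuotientGroup.kerLift_injective h)
  have hk : VSg h.ker := by
    have hmem : ∀ x : h.ker, (x.1.1 : G) ∈ H ⊓ π.ker := by
      intro x
      refine ⟨x.1.1.2, ?_⟩
      have hx := x.2
      rw [MonoidHom.mem_ker] at hx
      exact congrArg (fun y : S => (y.1 : Q)) hx
    exact VSg.of_injective (B := (H ⊓ π.ker : Subgroup G))
      ({ toFun := fun x => ⟨x.1.1, hmem x⟩
         map_one' := rfl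
         map_mul' := fun x y => rfl } : h.ker →* (H ⊓ π.ker : Subgroup G))
      (fun x y hxy => Subtype.ext (Subtype.ext (Subtype.ext
        (congrArg (fun y : (H ⊓ π.ker : Subgroup G) => (y : G)) hxy)))) h2
  have hDv : VSo D := vsg_ext h.ker hk hq
  have htop : VSo (⊤ : Subgroup H) := hDv.of_relIndex (by rwa [Subgroup.relIndex_top_right])
  exact VSg.of_injective (Subgroup.topEquiv (G := H)).symm.toMonoidHom
    (Subgroup.topEquiv (G := H)).symm.injective htop

theorem vso_fam {G ι : Type} [Group G] (s : Finset ι) (N : ι → Subgroup G) (E : Subgroup G)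
    (h : ∀ i ∈ s, ∃ (Q : Type) (_ : Group Q) (π : G →* Q), π.ker = N i ∧ VSo (E.map π))
    (h0 : VSo (E ⊓ ⨅ i ∈ s, N i)) : VSo E := by
  classical
  induction s using Finset.induction_on with
  | empty => simpa using h0
  | insert j s hj ih =>
    refine ih (fun i hi => h i (Finset.mem_insert_of_mem hi)) ?_
    obtain ⟨Q, iQ, π, hπ, hv⟩ := h j (Finset.mem_insert_self j s)
    refine vso_of_map π (hv.mono (Subgroup.map_mono inf_le_left)) ?_
    refine h0.mono ?_
    rw [Finset.iInf_insert, hπ, inf_assoc]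
    exact inf_le_inf_left _ (inf_comm _ _).le

/-- `N` is the kernel of a homomorphism of `G` onto a convergence group with virtually solvable
point stabilisers -/
def CQ {G : Type} [Group G] (N : Subgroup G) : Prop :=
  ∃ (Q : Type) (_ : Group Q) (π : G →* Q) (X : Type) (_ : TopologicalSpace X) (_ : CompactSpace X)
    (_ : T2Space X) (_ : Infinite X) (_ : MulAction Q X), Function.Surjective π ∧ π.ker = N ∧
    ConvergenceAction Q X ∧ ∀ p : X, VSo (stabilizer Q p)

variable {A G : Type} [CStarAlgebra A] [Group G]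

theorem one_quot {u : G → A} {τ : A →L[ℂ] ℂ} (hu : RedAlg u τ) {N : Subgroup G} (hN : CQ N)
    (σ : MulAut G) (α : A →⋆ₐ[ℂ] A)
    (hα : ∀ g, ∃ c : ℂ, ‖c‖ = 1 ∧ α (u g) = c • u (σ g))
    (hinv : ∃ m : ℕ, 0 < m ∧ ∀ x, x ∈ N ↔ (σ ^ m) x ∈ N) (g : G) (hg : ¬ Scat α (u g)) :
    ∃ m : ℕ, 0 < m ∧ ∃ F : Subgroup G, (∀ z, z ∈ F ↔ (σ ^ m) z ∈ F) ∧ g⁻¹ * (σ ^ m) g ∈ F ∧
      ∃ (Q : Type) (_ : Group Q) (π : G →* Q), π.ker = N ∧ VSo (F.map π) := by
  obtain ⟨Q, iQ, π, X, i1, i2, i3, i4, i5, hπ, hk, hG, hst⟩ := hN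
  obtain ⟨m₀, hm₀, hinv⟩ := hinv
  subst hk
  rcases scat_or hu hG hst π hπ σ α hα hm₀ hinv g with h | ⟨m, hm, E, hE, h1, h2⟩
  · exact absurd h hg
  · refine ⟨m, hm, E.comap π, h1, h2, Q, iQ, π, rfl, ?_⟩
    rw [Subgroup.map_comap_eq_self_of_surjective hπ]
    exact hE

theorem inv_mul_pow {σ : MulAut G} {m : ℕ} {F : Subgroup G} (h : ∀ z, z ∈ F ↔ (σ ^ m) z ∈ F)
    (k : ℕ) (z : G) : z ∈ F ↔ (σ ^ (m * k)) z ∈ F := by
  induction k generalizing z with
  | zero => exact Iff.rfl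
  | succ k ih =>
    rw [mul_add, mul_one, pow_add, MulAut.mul_apply, ← ih]
    exact h z

theorem coc_pow {σ : MulAut G} {m : ℕ} {F : Subgroup G} (h : ∀ z, z ∈ F ↔ (σ ^ m) z ∈ F)
    {g : G} (hg : g⁻¹ * (σ ^ m) g ∈ F) (k : ℕ) : g⁻¹ * (σ ^ (m * k)) g ∈ F := by
  induction k with
  | zero => rw [mul_zero, pow_zero, MulAut.one_apply, inv_mul_cancel]; exact one_mem _
  | succ k ih =>
    have e : g⁻¹ * (σ ^ (m * (k + 1))) g =
        (g⁻¹ * (σ ^ (m * k)) g) * (σ ^ (m * k)) (g⁻¹ * (σ ^ m) g) := by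
      rw [mul_add, mul_one, pow_add, MulAut.mul_apply, map_mul, map_inv]
      group
    rw [e]
    exact mul_mem ih ((inv_mul_pow h k _).1 hg)

/-- **The dichotomy for a finite family of quotients.** -/
theorem fam_dich {u : G → A} {τ : A →L[ℂ] ℂ} (hu : RedAlg u τ) {r : ℕ} (N : Fin r → Subgroup G)
    (hN : ∀ i, CQ (N i)) (σ : MulAut G)
    (hinv : ∀ i, ∃ m : ℕ, 0 < m ∧ ∀ x, x ∈ N i ↔ (σ ^ m) x ∈ N i)
    (hVS : VSo (⨅ i, N i)) (α : A →⋆ₐ[ℂ] A)
    (hα : ∀ g, ∃ c : ℂ, ‖c‖ = 1 ∧ α (u g) = c • u (σ g)) (g : G) :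
    Scat α (u g) ∨ ∃ m : ℕ, 0 < m ∧ ∃ E : Subgroup G, VSo E ∧ (∀ z, z ∈ E ↔ (σ ^ m) z ∈ E) ∧
      g⁻¹ * (σ ^ m) g ∈ E := by
  by_cases hg : Scat α (u g)
  · exact Or.inl hg
  right
  choose m hm F h1 h2 h3 using fun i => one_quot hu (hN i) σ α hα (hinv i) g hg
  have hdvd : ∀ i, ∃ k, ∏ j, m j = m i * k := fun i =>
    Finset.dvd_prod_of_mem m (Finset.mem_univ i)
  refine ⟨∏ i, m i, Finset.prod_pos fun i _ => hm i, ⨅ i, F i, ?_, fun z => ?_, ?_⟩
  · refine vso_fam Finset.univ N _ (fun i _ => ?_) (hVS.mono ?_)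
    · obtain ⟨Q, iQ, π, hπ, hv⟩ := h3 i
      exact ⟨Q, iQ, π, hπ, hv.mono (Subgroup.map_mono (iInf_le _ i))⟩
    · refine inf_le_right.trans ?_
      simp
  · rw [Subgroup.mem_iInf, Subgroup.mem_iInf]
    refine forall_congr' fun i => ?_
    obtain ⟨k, hk⟩ := hdvd i
    rw [hk]
    exact inv_mul_pow (h1 i) k z
  · rw [Subgroup.mem_iInf]
    intro i
    obtain ⟨k, hk⟩ := hdvd i
    rw [hk]
    exact coc_pow (h1 i) (h2 i) k

end Pool.Agent.Helper29.RH
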