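import Pool.Graph.R_pool_sql_team_39128cda.Lib.helper22_.FreeSL
import Pool.Graph.R_seed8.W726.NS.Stab
import Pool.Agent.Helper29.RH.Fam

/-! Free groups act as convergence groups on the projective line. -/

set_option autoImplicit false
set_option linter.unusedSectionVars false
set_option linter.style.haveILetI false

namespace Pool.Agent.Helper29.RH

open Filter Topology Set MulAction Matrix
open scoped MatrixGroups
open Pool.Agent.W726.NS

theorem vso_of_cycIn {G : Type} [Group G] {S : Subgroup G} (h : CycIn S) : VSo S := by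
  obtain ⟨c, hc, R, hR, hS⟩ := h
  set c' : S := ⟨c, hc⟩ with hc'
  refine ⟨Subgroup.zpowers c', ?_, ?_⟩
  · have : Finite (S ⧸ Subgroup.zpowers c') := by
      refine Finite.of_surjective (fun r : R => (QuotientGroup.mk ⟨r.1, hR r.1 r.2⟩ :
        S ⧸ Subgroup.zpowers c')) fun q => ?_
      obtain ⟨g, rfl⟩ := QuotientGroup.mk_surjective q
      obtain ⟨r, hr, i, hi⟩ := hS g g.2
      refine ⟨⟨r, hr⟩, ?_⟩
      refine QuotientGroup.eq.2 ⟨i, ?_⟩
      refine Subtype.ext ?_
      show c ^ i = r⁻¹ * (g : G)
      rw [hi, inv_mul_cancel_left]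
    exact Subgroup.finiteIndex_of_finite_quotient
  · exact Group.isSolvable_of_comm fun a b => (Subgroup.zpowers_isMulCommutative c').1.1 a b

/-- `Q` acts as a convergence group with virtually solvable point stabilisers -/
def RHy (Q : Type) [Group Q] : Prop :=
  ∃ (X : Type) (_ : TopologicalSpace X) (_ : CompactSpace X) (_ : T2Space X) (_ : Infinite X)
    (_ : MulAction Q X), ConvergenceAction Q X ∧ ∀ p : X, VSo (stabilizer Q p)

/-- groups with an injective homomorphism into `SL(2, ℝ)` with integral entries -/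
theorem rhy_of_sl {F : Type} [Group F] (ρ : F →* SL(2, ℤ)) (hρ : Function.Injective ρ) : RHy F := by
  set ι : SL(2, ℤ) →* SL(2, ℝ) := Matrix.SpecialLinearGroup.map (Int.castRingHom ℝ) with hι
  have hιa : ∀ (B : SL(2, ℤ)) (i j : Fin 2), (ι B : M2) i j = ((B : Matrix (Fin 2) (Fin 2) ℤ) i j : ℝ) :=
    fun B i j => rfl
  have hιi : Function.Injective ι := by
    intro B C hBC
    ext i j
    have := congrArg (fun D : SL(2, ℝ) => (D : M2) i j) hBC
    simp only [hιa] at this
    exact_mod_cast this
  set j : F →* SL(2, ℝ) := ι.comp ρ with hj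
  have hji : Function.Injective j := hιi.comp hρ
  set Γ : Subgroup SL(2, ℝ) := j.range with hΓ
  have hfin : FinBdd (Γ : Set SL(2, ℝ)) := by
    intro C
    obtain ⟨K, hK⟩ := exists_nat_ge (C + 1)
    have h1 : {B : SL(2, ℤ) | hs (ι B : M2) ≤ C}.Finite := by
      have h2 : (Set.pi Set.univ fun _ : Fin 2 => Set.pi Set.univ
          fun _ : Fin 2 => Set.Icc (-(K : ℤ)) K : Set (Fin 2 → Fin 2 → ℤ)).Finite :=
        Set.Finite.pi fun _ => Set.Finite.pi fun _ => Set.finite_Icc _ _
      refine (h2.preimage (f := fun B : SL(2, ℤ) => (B.1 : Fin 2 → Fin 2 → ℤ))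
        (fun a _ b _ hab => Subtype.ext hab)).subset ?_
      intro B hB
      have hB' : hs (ι B : M2) ≤ C := hB
      rw [hs_eq] at hB'
      simp only [hιa] at hB'
      have key : ∀ n : ℤ, (n : ℝ) ^ 2 ≤ C → n ∈ Set.Icc (-(K : ℤ)) K := by
        intro n hn
        have h3 : (n : ℝ) ≤ K := by nlinarith [sq_nonneg ((n : ℝ) - 1)]
        have h4 : -(K : ℝ) ≤ n := by nlinarith [sq_nonneg ((n : ℝ) + 1)]
        exact ⟨by exact_mod_cast h4, by exact_mod_cast h3⟩
      have s0 := sq_nonneg (((B : Matrix (Fin 2) (Fin 2) ℤ) 0 0 : ℤ) : ℝ)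
      have s1 := sq_nonneg (((B : Matrix (Fin 2) (Fin 2) ℤ) 0 1 : ℤ) : ℝ)
      have s2 := sq_nonneg (((B : Matrix (Fin 2) (Fin 2) ℤ) 1 0 : ℤ) : ℝ)
      have s3 := sq_nonneg (((B : Matrix (Fin 2) (Fin 2) ℤ) 1 1 : ℤ) : ℝ)
      intro a _ b _
      fin_cases a <;> fin_cases b
      · exact key ((B : Matrix (Fin 2) (Fin 2) ℤ) 0 0) (by linarith)
      · exact key ((B : Matrix (Fin 2) (Fin 2) ℤ) 0 1) (by linarith)
      · exact key ((B : Matrix (Fin 2) (Fin 2) ℤ) 1 0) (by linarith)
      · exact key ((B : Matrix (Fin 2) (Fin 2) ℤ) 1 1) (by linarith)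
    refine (h1.image ι).subset ?_
    rintro _ ⟨⟨w, rfl⟩, hC⟩
    exact ⟨ρ w, hC, rfl⟩
  letI : MulAction F P1 := MulAction.compHom P1 j
  refine ⟨P1, inferInstance, inferInstance, inferInstance, inferInstance, inferInstance, ?_, ?_⟩
  · have hc := convergence_of_finBdd Γ hfin
    refine ⟨fun g => hc.1 ⟨j g, g, rfl⟩, fun x hx => ?_⟩
    exact hc.2 (fun n => (⟨j (x n), x n, rfl⟩ : Γ)) fun a b hab => hx (hji (congrArg Subtype.val hab))
  · intro p
    have h1 : VSo (stabilizer Γ p) := vso_of_cycIn (cycIn_stab Γ hfin p)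
    refine VSg.of_injective (B := stabilizer Γ p)
      ({ toFun := fun x => ⟨⟨j x.1, x.1, rfl⟩, x.2⟩
         map_one' := Subtype.ext (Subtype.ext (map_one j))
         map_mul' := fun x y => Subtype.ext (Subtype.ext (map_mul j _ _)) } :
        stabilizer F p →* stabilizer Γ p) (fun x y hxy => ?_) h1
    exact Subtype.ext (hji (congrArg (fun z : stabilizer Γ p => ((z : Γ) : SL(2, ℝ))) hxy))

theorem RHy.of_equiv {F H : Type} [Group F] [Group H] (e : H ≃* F) (h : RHy F) : RHy H := by
  obtain ⟨X, i1, i2, i3, i4, i5, hc, hst⟩ := h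
  letI : MulAction H X := MulAction.compHom X e.toMonoidHom
  refine ⟨X, i1, i2, i3, i4, inferInstance, ⟨fun g => hc.1 (e g), fun x hx => ?_⟩, fun p => ?_⟩
  · exact hc.2 (fun n => e (x n)) (e.injective.comp hx)
  · refine VSg.of_injective (B := stabilizer F p)
      ({ toFun := fun x => ⟨e x.1, x.2⟩
         map_one' := Subtype.ext (map_one e)
         map_mul' := fun x y => Subtype.ext (map_mul e _ _) } :
        stabilizer H p →* stabilizer F p) (fun x y hxy => ?_) (hst p)
    exact Subtype.ext (e.injective (congrArg Subtype.val hxy))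

/-- **Free groups of countable rank.** -/
theorem free_cases {H : Type} [Group H] [Countable H] (hH : IsFreeGroup H) : RHy H ∨ VSg H := by
  obtain ⟨Y, ⟨b⟩⟩ := hH.nonempty_basis
  have hY : Countable Y := b.injective.countable
  by_cases hn : Nontrivial Y
  · left
    obtain ⟨ρ, hρ, -⟩ := Pool.Agent.Lib.NB.exists_free Y
    exact (rhy_of_sl ρ hρ).of_equiv b.repr
  · right
    rw [not_nontrivial_iff_subsingleton] at hn
    have hc : ∀ a b : FreeGroup Y, a * b = b * a := by
      intro a b
      rcases isEmpty_or_nonempty Y with hY | ⟨⟨y⟩⟩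
      · exact Subsingleton.elim _ _
      · have : ∀ x : FreeGroup Y, x ∈ Subgroup.zpowers (FreeGroup.of y) := by
          intro x
          induction x using FreeGroup.induction_on with
          | C1 => exact one_mem _
          | of z => rw [Subsingleton.elim z y]; exact Subgroup.mem_zpowers _
          | inv_of z hz => exact inv_mem hz
          | mul a b ha hb => exact mul_mem ha hb
        obtain ⟨m, rfl⟩ := this a
        obtain ⟨n, rfl⟩ := this b
        show FreeGroup.of y ^ m * FreeGroup.of y ^ n = FreeGroup.of y ^ n * FreeGroup.of y ^ m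
        rw [← _root_.zpow_add, ← _root_.zpow_add, add_comm]
    refine VSg.of_injective (b.repr : H →* FreeGroup Y) b.repr.injective ⟨⊤, inferInstance, ?_⟩
    exact Group.isSolvable_of_comm fun a b => Subtype.ext (hc a b)

/-- solvable free groups are commutative -/
theorem free_comm {H : Type} [Group H] (hH : IsFreeGroup H) (hs : Group.IsSolvable H) (a b : H) :
    a * b = b * a := by
  obtain ⟨Y, ⟨e⟩⟩ := hH.nonempty_basis
  by_cases hn : Nontrivial Y
  · exfalso
    obtain ⟨y, z, hyz⟩ := hn
    classical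
    let f : FreeGroup Y →* Equiv.Perm (Fin 5) :=
      FreeGroup.lift fun w => if w = y then finRotate 5 else Equiv.swap 0 1
    have hf : Function.Surjective f := by
      rw [← MonoidHom.range_eq_top, eq_top_iff]
      have h1 := Equiv.Perm.closure_prime_cycle_swap (α := Fin 5) (σ := finRotate 5)
        (τ := Equiv.swap 0 1) (by rw [Fintype.card_fin]; norm_num) isCycle_finRotate
        support_finRotate (Equiv.Perm.swap_isSwap_iff.2 (by decide))
      rw [← h1, Subgroup.closure_le]
      rintro x (rfl | rfl)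
      · exact ⟨FreeGroup.of y, by simp [f]⟩
      · exact ⟨FreeGroup.of z, by simp [f, hyz.symm]⟩
    have h1 : Group.IsSolvable (FreeGroup Y) :=
      Group.isSolvable_of_surjective (f := (e.repr : H →* FreeGroup Y)) e.repr.surjective
    have h2 : Group.IsSolvable (Equiv.Perm (Fin 5)) := Group.isSolvable_of_surjective hf
    exact Equiv.Perm.fin_5_not_solvable h2
  · rw [not_nontrivial_iff_subsingleton] at hn
    apply e.repr.injective
    rw [map_mul, map_mul]
    generalize e.repr a = a
    generalize e.repr b = b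
    rcases isEmpty_or_nonempty Y with hY | ⟨⟨y⟩⟩
    · exact Subsingleton.elim _ _
    · have : ∀ x : FreeGroup Y, x ∈ Subgroup.zpowers (FreeGroup.of y) := by
        intro x
        induction x using FreeGroup.induction_on with
        | C1 => exact one_mem _
        | of z => rw [Subsingleton.elim z y]; exact Subgroup.mem_zpowers _
        | inv_of z hz => exact inv_mem hz
        | mul a b ha hb => exact mul_mem ha hb
      obtain ⟨m, rfl⟩ := this a
      obtain ⟨n, rfl⟩ := this b
      show FreeGroup.of y ^ m * FreeGroup.of y ^ n = FreeGroup.of y ^ n * FreeGroup.of y ^ m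
      rw [← _root_.zpow_add, ← _root_.zpow_add, add_comm]

end Pool.Agent.Helper29.RH
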