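import Pool.Agent.Helper29.RH.Free

/-! Conjugations are quasi-unipotent if the subgroups with two generators are free or virtually
nilpotent. -/

set_option autoImplicit false
set_option linter.unusedSectionVars false
set_option linter.style.haveILetI false

namespace Pool.Agent.Helper29.RH

open Subgroup
open scoped Pointwise commutatorElement

variable {G : Type} [Group G]

theorem conj_pow_ap {σ : MulAut G} {h : G} (hσ : ∀ x, σ x = h * x * h⁻¹) (m : ℕ) (x : G) :
    (σ ^ m) x = h ^ m * x * (h ^ m)⁻¹ := by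
  induction m generalizing x with
  | zero => simp
  | succ m ih =>
    rw [pow_succ, MulAut.mul_apply, ih, hσ, pow_succ]
    group

/-- conjugation by an element of a nilpotent normal subgroup -/
theorem nil_iter {K : Type} [Group K] (L : Subgroup K) [L.Normal] (hL : Group.IsNilpotent L)
    {t : K} (ht : t ∈ L) : ∃ k : ℕ, ∀ x : K, (fun y : K => y⁻¹ * (t * y * t⁻¹))^[k] x = 1 := by
  obtain ⟨c, hc⟩ := hL.nilpotent'
  set D : K → K := fun y => y⁻¹ * (t * y * t⁻¹) with hD
  have h1 : ∀ x, D x ∈ L := by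
    intro x
    have h2 : x⁻¹ * t * x ∈ L := by
      have := (inferInstance : L.Normal).conj_mem t ht x⁻¹
      rwa [inv_inv] at this
    have e : D x = (x⁻¹ * t * x) * t⁻¹ := by
      show x⁻¹ * (t * x * t⁻¹) = _
      group
    rw [e]
    exact mul_mem h2 (inv_mem ht)
  have h2 : ∀ (i : ℕ) (y : L), y ∈ Subgroup.upperCentralSeries L (i + 1) →
      ∃ z : L, (z : K) = D y ∧ z ∈ Subgroup.upperCentralSeries L i := by
    intro i y hy
    refine ⟨⟨D y, h1 y⟩, rfl, ?_⟩
    have h3 := (Subgroup.mem_upperCentralSeries_succ_iff (x := y⁻¹)).1 (inv_mem hy) ⟨t, ht⟩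
    have e : ⁅y⁻¹, (⟨t, ht⟩ : L)⁆ = ⟨D y, h1 y⟩ := by
      refine Subtype.ext ?_
      show ((y : K)⁻¹ * t * ((y : K)⁻¹)⁻¹ * t⁻¹) = (y : K)⁻¹ * (t * y * t⁻¹)
      group
    rwa [e] at h3
  have h3 : ∀ (i : ℕ) (y : L), y ∈ Subgroup.upperCentralSeries L i → D^[i] (y : K) = 1 := by
    intro i
    induction i with
    | zero =>
      intro y hy
      rw [Subgroup.upperCentralSeries_zero, mem_bot] at hy
      rw [hy]
      rfl
    | succ i ih =>
      intro y hy
      obtain ⟨z, hz, hzi⟩ := h2 i y hy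
      rw [Function.iterate_succ_apply, ← hz]
      exact ih z hzi
  refine ⟨c + 1, fun x => ?_⟩
  rw [Function.iterate_succ_apply]
  exact h3 c ⟨D x, h1 x⟩ (by rw [hc]; exact mem_top _)

/-- the virtually nilpotent case -/
theorem vn_case {x h : G} (hK : ∃ S : Subgroup (closure {x, h} : Subgroup G), S.FiniteIndex ∧
    Group.IsNilpotent S) : ∃ j : ℕ, 0 < j ∧ ∀ m : ℕ, ∃ k : ℕ,
      (fun y : G => y⁻¹ * (h ^ (m * j) * y * (h ^ (m * j))⁻¹))^[k] x = 1 := by
  obtain ⟨S, hS, hSn⟩ := hK
  have hx : x ∈ closure ({x, h} : Set G) := subset_closure (by simp)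
  have hh : h ∈ closure ({x, h} : Set G) := subset_closure (by simp)
  haveI : S.normalCore.FiniteIndex := inferInstance
  have hLn : Group.IsNilpotent S.normalCore := by
    have hle : S.normalCore ≤ S := S.normalCore_le
    haveI := hSn
    exact Group.nilpotent_of_mulEquiv (subgroupOfEquivOfLe hle)
  refine ⟨S.normalCore.index, Nat.pos_of_ne_zero (FiniteIndex.index_ne_zero), fun m => ?_⟩
  set L := S.normalCore with hLdef
  set h' : closure ({x, h} : Set G) := ⟨h, hh⟩ with hh'
  have ht : h' ^ (m * L.index) ∈ L := by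
    rw [mul_comm, pow_mul]
    exact pow_mem (pow_index_mem L h') m
  obtain ⟨k, hk⟩ := nil_iter L hLn ht
  refine ⟨k, ?_⟩
  have h1 := hk ⟨x, hx⟩
  have h2 : ∀ (i : ℕ) (y : closure ({x, h} : Set G)),
      (((fun y : closure ({x, h} : Set G) =>
        y⁻¹ * (h' ^ (m * L.index) * y * (h' ^ (m * L.index))⁻¹))^[i] y :
          closure ({x, h} : Set G)) : G) =
        (fun y : G => y⁻¹ * (h ^ (m * L.index) * y * (h ^ (m * L.index))⁻¹))^[i] y := by
    intro i
    induction i with
    | zero => intro y; rfl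
    | succ i ih =>
      intro y
      rw [Function.iterate_succ_apply, ih, Function.iterate_succ_apply]
      rfl
  rw [← h2 k ⟨x, hx⟩, h1]
  rfl

/-- the free case -/
theorem free_case {x h : G} (hK : IsFreeGroup (closure {x, h} : Subgroup G)) {N : Subgroup G}
    (hN : Group.IsSolvable N) (hxN : x ∈ N) {m : ℕ}
    (hinv : ∀ y, y ∈ N ↔ h ^ m * y * (h ^ m)⁻¹ ∈ N) : h ^ m * x = x * h ^ m := by
  set K : Subgroup G := closure {x, h} with hKdef
  have hx : x ∈ K := subset_closure (by simp)
  have hh : h ∈ K := subset_closure (by simp)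
  set x' : K := ⟨x, hx⟩
  set t : K := ⟨h, hh⟩ ^ m with ht
  set N' : Subgroup K := N.subgroupOf K with hN'
  have hN's : Group.IsSolvable N' :=
    Group.isSolvable_of_isSolvable_injective
      (f := ({ toFun := fun y => ⟨y.1.1, y.2⟩
               map_one' := rfl
               map_mul' := fun _ _ => rfl } : N' →* N))
      fun y z hyz => Subtype.ext (Subtype.ext (congrArg (fun w : N => (w : G)) hyz))
  have hnorm : ∀ y : K, y ∈ N' ↔ t * y * t⁻¹ ∈ N' := fun y => hinv y
  set R : Subgroup K := N' ⊔ zpowers t with hR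
  -- `N'` is normal in `R`, with cyclic quotient
  have hle : R ≤ normalizer (N' : Set K) := by
    rw [hR, sup_le_iff]
    refine ⟨le_normalizer, ?_⟩
    rw [zpowers_le, mem_normalizer_iff]
    exact fun y => hnorm y
  haveI hn : (N'.subgroupOf R).Normal := normal_subgroupOf_of_le_normalizer hle
  have hs1 : Group.IsSolvable (N'.subgroupOf R) :=
    Group.isSolvable_of_isSolvable_injective
      (f := ({ toFun := fun y => ⟨y.1.1, y.2⟩
               map_one' := rfl
               map_mul' := fun _ _ => rfl } : N'.subgroupOf R →* N'))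
      fun y z hyz => Subtype.ext (Subtype.ext (congrArg (fun w : N' => (w : K)) hyz))
  have htR : t ∈ R := le_sup_right (a := N') (mem_zpowers t)
  have hs2 : Group.IsSolvable (R ⧸ N'.subgroupOf R) := by
    have hcyc : ∀ q : R ⧸ N'.subgroupOf R, ∃ i : ℤ,
        q = (QuotientGroup.mk ⟨t, htR⟩ : R ⧸ N'.subgroupOf R) ^ i := by
      intro q
      obtain ⟨r, rfl⟩ := QuotientGroup.mk_surjective q
      have hmem : (r : K) ∈ ((N' : Set K) * (zpowers t : Set K)) := by
        have h3 : (zpowers t : Subgroup K) ≤ normalizer (N' : Set K) :=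
          le_trans (le_sup_right (a := N')) hle
        rw [← coe_mul_of_right_le_normalizer_left N' (zpowers t) h3]
        exact r.2
      obtain ⟨n, hn', z, ⟨i, hz⟩, hnz⟩ := hmem
      refine ⟨i, ?_⟩
      rw [← QuotientGroup.mk_zpow]
      refine (QuotientGroup.eq.2 ?_).symm
      show (t ^ i)⁻¹ * (r : K) ∈ N'
      have hz' : t ^ i = z := hz
      have hnz' : n * z = (r : K) := hnz
      rw [← hnz', ← hz']
      have h4 : (t ^ i)⁻¹ ∈ normalizer (N' : Set K) :=
        inv_mem (zpow_mem (hle htR) i)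
      have h5 := (mem_normalizer_iff.1 h4 n).1 hn'
      rwa [inv_inv, mul_assoc] at h5
    refine Group.isSolvable_of_comm fun a b => ?_
    obtain ⟨i, rfl⟩ := hcyc a
    obtain ⟨j, rfl⟩ := hcyc b
    rw [← zpow_add, ← zpow_add, add_comm]
  haveI := hs1
  haveI := hs2
  have hRs : Group.IsSolvable R :=
    Group.isSolvable_of_ker_le_range (N'.subgroupOf R).subtype (QuotientGroup.mk' (N'.subgroupOf R))
      (by rw [QuotientGroup.ker_mk', Subgroup.range_subtype])
  haveI := hK
  have hRf : IsFreeGroup R := inferInstance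
  have hxR : x' ∈ R := le_sup_left (b := zpowers t) hxN
  have h1 := free_comm hRf hRs ⟨t, htR⟩ ⟨x', hxR⟩
  have h2 := congrArg (fun r : R => ((r : K) : G)) h1
  exact h2

/-- **Conjugations are quasi-unipotent on solvable subgroups**, if all subgroups with two generators,
one of them `h`, are free or virtually nilpotent. -/
theorem conj_qus {σ : MulAut G} {h : G} (hσ : ∀ x, σ x = h * x * h⁻¹)
    (hG : ∀ g : G, IsFreeGroup (closure {g, h} : Subgroup G) ∨
      ∃ S : Subgroup (closure {g, h} : Subgroup G), S.FiniteIndex ∧ Group.IsNilpotent S) (m : ℕ)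
    (N : Subgroup G) (hN : Group.IsSolvable N) (hinv : ∀ x, x ∈ N ↔ (σ ^ m) x ∈ N) (x : G)
    (hx : x ∈ N) : ∃ j : ℕ, 0 < j ∧ ∃ k : ℕ,
      (fun y : G => y⁻¹ * ((σ ^ m) ^ j) y)^[k] x ∈ ⁅N, N⁆ := by
  rcases hG x with h1 | h1
  · refine ⟨1, one_pos, 1, ?_⟩
    have h2 := free_case h1 hN hx (m := m) fun y => by
      rw [hinv y, conj_pow_ap hσ]
    have e : (fun y : G => y⁻¹ * ((σ ^ m) ^ 1) y)^[1] x = 1 := by
      show x⁻¹ * ((σ ^ m) ^ 1) x = 1
      rw [pow_one, conj_pow_ap hσ, h2]
      group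
    rw [e]
    exact one_mem _
  · obtain ⟨j, hj, h2⟩ := vn_case h1
    obtain ⟨k, hk⟩ := h2 m
    refine ⟨j, hj, k, ?_⟩
    have e : (fun y : G => y⁻¹ * ((σ ^ m) ^ j) y) =
        fun y : G => y⁻¹ * (h ^ (m * j) * y * (h ^ (m * j))⁻¹) := by
      funext y
      rw [← pow_mul, conj_pow_ap hσ]
    rw [e, hk]
    exact one_mem _

end Pool.Agent.Helper29.RH
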