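import Pool.Agent.Helper29.RH.Tri
import Pool.Agent.Helper29.TW.Fol

/-! Infinite amenable subgroups of convergence groups virtually fix a point. -/

set_option autoImplicit false
set_option linter.unusedSectionVars false
set_option linter.style.haveILetI false

namespace Pool.Agent.Helper29.RH

open Filter Topology Set MulAction
open Pool.Agent.W726.NS (ConvergenceAction)
open Pool.Agent.Helper29.TW (Fol ms nu nu_nonneg nu_of_nonneg ms_eq)

section mean

variable {S : Type} [Group S] {X : Type*} [MulAction S X]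

/-- the mass of the group elements which map `o` into `Y` -/
noncomputable def mY (o : X) (Y : Set X) : (S →₀ ℝ) →ₗ[ℝ] ℝ :=
  Finsupp.linearCombination ℝ fun g : S => Y.indicator (fun _ => (1 : ℝ)) (g • o)

theorem mY_eq (o : X) (Y : Set X) (f : S →₀ ℝ) :
    mY o Y f = f.sum fun g a => a * Y.indicator (fun _ => (1 : ℝ)) (g • o) := by
  rw [mY, Finsupp.linearCombination_apply]
  rfl

theorem ind_nonneg (Y : Set X) (x : X) : 0 ≤ Y.indicator (fun _ => (1 : ℝ)) x :=
  Set.indicator_nonneg (fun _ _ => zero_le_one) x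

theorem ind_le (Y : Set X) (x : X) : Y.indicator (fun _ => (1 : ℝ)) x ≤ 1 :=
  Set.indicator_le' (fun _ _ => le_rfl) (fun _ _ => zero_le_one) x

theorem abs_mY_le (o : X) (Y : Set X) (f : S →₀ ℝ) : |mY o Y f| ≤ nu f := by
  rw [mY_eq, Finsupp.sum, nu, Finsupp.sum]
  refine (Finset.abs_sum_le_sum_abs _ _).trans (Finset.sum_le_sum fun g _ => ?_)
  rw [abs_mul, abs_of_nonneg (ind_nonneg Y _)]
  exact mul_le_of_le_one_right (abs_nonneg _) (ind_le Y _)

theorem mY_nonneg (o : X) (Y : Set X) {f : S →₀ ℝ} (hf : ∀ g, 0 ≤ f g) : 0 ≤ mY o Y f := by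
  rw [mY_eq]
  exact Finset.sum_nonneg fun g _ => mul_nonneg (hf g) (ind_nonneg Y _)

theorem mY_univ (o : X) (f : S →₀ ℝ) : mY o univ f = ms f := by
  rw [mY_eq, ms_eq]
  exact Finset.sum_congr rfl fun g _ => by simp

theorem mY_union (o : X) {Y Z : Set X} (h : Disjoint Y Z) (f : S →₀ ℝ) :
    mY o (Y ∪ Z) f = mY o Y f + mY o Z f := by
  rw [mY_eq, mY_eq, mY_eq, ← Finsupp.sum_add]
  refine Finset.sum_congr rfl fun g _ => ?_
  beta_reduce
  rw [Set.indicator_union_of_disjoint h, mul_add]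

theorem mY_map (o : X) (Y : Set X) (f : S →₀ ℝ) (k : S) :
    mY o Y (Finsupp.mapDomain (fun h => k * h) f) = mY o {y | k • y ∈ Y} f := by
  rw [mY, Finsupp.linearCombination_mapDomain, mY]
  congr 2
  funext g
  show Y.indicator (fun _ => (1 : ℝ)) ((k * g) • o) = _
  rw [mul_smul]
  rfl

/-- an invariant mean on `X` -/
theorem exists_mean (hF : Fol S) (o : X) : ∃ m : Set X → ℝ, m univ = 1 ∧ (∀ Y, 0 ≤ m Y) ∧
    (∀ Y Z, Disjoint Y Z → m (Y ∪ Z) = m Y + m Z) ∧ ∀ (k : S) (Y : Set X), m {y | k • y ∈ Y} = m Y := by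
  classical
  have h0 : ∀ i : Finset S × ℕ, ∃ f : S →₀ ℝ, (∀ g, 0 ≤ f g) ∧ ms f = 1 ∧
      ∀ k ∈ i.1, nu (Finsupp.mapDomain (fun h => k * h) f - f) ≤ 1 / ((i.2 : ℝ) + 1) := fun i =>
    hF i.1 (1 / ((i.2 : ℝ) + 1)) (by positivity)
  choose f hf0 hf1 hf using h0
  let 𝒰 : Ultrafilter (Finset S × ℕ) := Ultrafilter.of atTop
  have hU : (𝒰 : Filter (Finset S × ℕ)) ≤ atTop := Ultrafilter.of_le _
  have hb : ∀ Y i, mY o Y (f i) ∈ Icc (0 : ℝ) 1 := by
    intro Y i
    refine ⟨mY_nonneg o Y (hf0 i), ?_⟩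
    refine (le_abs_self _).trans ((abs_mY_le o Y (f i)).trans (le_of_eq ?_))
    rw [nu_of_nonneg (hf0 i), hf1]
  have hlim : ∀ Y : Set X, ∃ c : ℝ, Tendsto (fun i => mY o Y (f i)) 𝒰 (𝓝 c) := by
    intro Y
    obtain ⟨c, -, hc⟩ := (isCompact_Icc (a := (0 : ℝ)) (b := 1)).ultrafilter_le_nhds
      (𝒰.map fun i => mY o Y (f i)) (by
        rw [le_principal_iff]
        exact Filter.mem_map.2 (Filter.univ_mem' fun i => hb Y i))
    exact ⟨c, hc⟩
  choose m hm using hlim
  refine ⟨m, ?_, fun Y => ?_, fun Y Z hYZ => ?_, fun k Y => ?_⟩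
  · refine tendsto_nhds_unique (hm univ) ?_
    simp only [mY_univ, hf1]
    exact tendsto_const_nhds
  · exact ge_of_tendsto' (hm Y) fun i => (hb Y i).1
  · refine tendsto_nhds_unique (hm (Y ∪ Z)) ?_
    simp only [mY_union o hYZ]
    exact (hm Y).add (hm Z)
  · have h1 := (hm {y | k • y ∈ Y}).sub (hm Y)
    have h2 : Tendsto (fun i => mY o {y | k • y ∈ Y} (f i) - mY o Y (f i)) 𝒰 (𝓝 0) := by
      have h3 : Tendsto (fun i : Finset S × ℕ => 1 / ((i.2 : ℝ) + 1)) 𝒰 (𝓝 0) := by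
        have h4 : Tendsto (fun i : Finset S × ℕ => i.2) 𝒰 atTop := by
          refine Tendsto.mono_left ?_ hU
          rw [← prod_atTop_atTop_eq]
          exact tendsto_snd
        exact tendsto_one_div_add_atTop_nhds_zero_nat.comp h4
      refine squeeze_zero_norm' ?_ h3
      have h5 : ∀ᶠ i : Finset S × ℕ in 𝒰, k ∈ i.1 := by
        refine hU ?_
        filter_upwards [eventually_ge_atTop (({k} : Finset S), 0)] with i hi
        exact hi.1 (Finset.mem_singleton_self k)
      filter_upwards [h5] with i hi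
      rw [Real.norm_eq_abs, ← mY_map, ← map_sub]
      exact (abs_mY_le o Y _).trans (hf i k hi)
    have := tendsto_nhds_unique h1 h2
    linarith

end mean

variable {G X : Type} [Group G] [TopologicalSpace X] [CompactSpace X] [T2Space X] [MulAction G X]

theorem three_disjoint {p q r : X} (hpq : p ≠ q) (hpr : p ≠ r) (hqr : q ≠ r) :
    ∃ U V W : Set X, U ∈ 𝓝 p ∧ V ∈ 𝓝 q ∧ W ∈ 𝓝 r ∧ Disjoint U V ∧ Disjoint U W ∧ Disjoint V W := by
  obtain ⟨U1, V1, hU1, hV1, hpU1, hqV1, hd1⟩ := t2_separation hpq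
  obtain ⟨U2, W2, hU2, hW2, hpU2, hrW2, hd2⟩ := t2_separation hpr
  obtain ⟨V3, W3, hV3, hW3, hqV3, hrW3, hd3⟩ := t2_separation hqr
  exact ⟨U1 ∩ U2, V1 ∩ V3, W2 ∩ W3, (hU1.inter hU2).mem_nhds ⟨hpU1, hpU2⟩,
    (hV1.inter hV3).mem_nhds ⟨hqV1, hqV3⟩, (hW2.inter hW3).mem_nhds ⟨hrW2, hrW3⟩,
    hd1.mono inter_subset_left inter_subset_left, hd2.mono inter_subset_right inter_subset_left,
    hd3.mono inter_subset_right inter_subset_right⟩

/-- an infinite amenable group preserves a finite set of points -/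
theorem exists_pair (hG : ConvergenceAction G X) [Nonempty X] (S : Subgroup G) (hS : Fol S)
    (hinf : (S : Set G).Infinite) :
    ∃ F : Set X, F.Nonempty ∧ F.Finite ∧ ∀ s ∈ S, ∀ p ∈ F, s • p ∈ F := by
  classical
  obtain ⟨o⟩ : Nonempty X := inferInstance
  obtain ⟨m, m1, m0, mu, mi⟩ := exists_mean hS o
  have mmono : ∀ Y Z : Set X, Y ⊆ Z → m Y ≤ m Z := by
    intro Y Z h
    have e : Z = Y ∪ (Z \ Y) := (Set.union_sdiff_cancel h).symm
    rw [e, mu _ _ Set.disjoint_sdiff_right]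
    linarith [m0 (Z \ Y)]
  have mc : ∀ Y : Set X, m Yᶜ = 1 - m Y := by
    intro Y
    have := mu Y Yᶜ disjoint_compl_right
    rw [Set.union_compl_self, m1] at this
    linarith
  have minv : ∀ s ∈ S, ∀ Y : Set X, m {y | s • y ∈ Y} = m Y := fun s hs Y => mi ⟨s, hs⟩ Y
  let F : Set X := {p | ∀ U ∈ 𝓝 p, 1 / 2 ≤ m U}
  refine ⟨F, ?_, ?_, ?_⟩
  · obtain ⟨x, hx, hxS⟩ := exists_inj hinf
    obtain ⟨φ, hφ, a, b, hab⟩ := hG.2 x hx
    by_contra hne
    rw [Set.not_nonempty_iff_eq_empty] at hne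
    have ha : a ∉ F := by rw [hne]; exact Set.notMem_empty _
    have hb : b ∉ F := by rw [hne]; exact Set.notMem_empty _
    have ha' : ∃ U ∈ 𝓝 a, m U < 1 / 2 := by
      by_contra hcon
      push Not at hcon
      exact ha hcon
    have hb' : ∃ V ∈ 𝓝 b, m V < 1 / 2 := by
      by_contra hcon
      push Not at hcon
      exact hb hcon
    obtain ⟨U, hU, hU1⟩ := ha'
    obtain ⟨V, hV, hV1⟩ := hb'
    obtain ⟨n, hn⟩ := (hab U hU V hV).exists
    have h1 : m Vᶜ ≤ m {y | x (φ n) • y ∈ U} := mmono _ _ fun y hy => hn y hy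
    rw [minv _ (hxS _), mc] at h1
    linarith
  · by_contra hF
    obtain ⟨t, ht, hc⟩ := Set.Infinite.exists_subset_card_eq hF 3
    obtain ⟨p, q, r, hpq, hpr, hqr, rfl⟩ := Finset.card_eq_three.1 hc
    obtain ⟨U, V, W, hU, hV, hW, d1, d2, d3⟩ := three_disjoint hpq hpr hqr
    have hp : p ∈ F := ht (by simp)
    have hq : q ∈ F := ht (by simp)
    have hr : r ∈ F := ht (by simp)
    have h1 := hp U hU
    have h2 := hq V hV
    have h3 := hr W hW
    have h4 := mu _ _ d1
    have h5 := mu (U ∪ V) W (Set.disjoint_union_left.2 ⟨d2, d3⟩)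
    have h6 := mmono _ _ (Set.subset_univ (U ∪ V ∪ W))
    rw [m1] at h6
    linarith
  · intro s hs p hp U hU
    have h1 : {y | s • y ∈ U} ∈ 𝓝 p := (hG.1 s).continuousAt.preimage_mem_nhds hU
    have h2 := hp _ h1
    rwa [minv s hs] at h2

/-- `H` has a solvable subgroup of finite index -/
def VSo (H : Subgroup G) : Prop := ∃ S : Subgroup H, S.FiniteIndex ∧ Group.IsSolvable S

theorem inf_of_relIndex {K H : Subgroup G} (hH : (H : Set G).Infinite) (h : K.relIndex H ≠ 0) :
    ((K ⊓ H : Subgroup G) : Set G).Infinite := by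
  intro hfin
  apply hH
  have h1 : Finite (K.subgroupOf H) := by
    have h2 : Finite (K ⊓ H : Subgroup G) := hfin.to_subtype
    refine Finite.of_injective (fun x : K.subgroupOf H => (⟨x.1.1, x.2, x.1.2⟩ : (K ⊓ H : Subgroup G)))
      fun x y hxy => ?_
    have := congrArg Subtype.val hxy
    exact Subtype.ext (Subtype.ext this)
  have h3 : Finite (H ⧸ K.subgroupOf H) := by
    haveI : (K.subgroupOf H).FiniteIndex := ⟨h⟩
    infer_instance
  have h4 : Finite H := Finite.of_equiv _ (Subgroup.groupEquivQuotientProdSubgroup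
    (s := K.subgroupOf H)).symm
  exact Set.toFinite _

/-- an infinite amenable subgroup virtually fixes a point -/
theorem exists_fix_fol (hG : ConvergenceAction G X) [Nonempty X] {S' : Subgroup G} (hS : Fol S')
    (hinf : (S' : Set G).Infinite) : ∃ p : X, (stabilizer G p).relIndex S' ≠ 0 := by
  obtain ⟨F, ⟨p, hp⟩, hFf, hF⟩ := exists_pair hG S' hS hinf
  refine ⟨p, ?_⟩
  rw [Subgroup.relIndex]
  have e : (stabilizer G p).subgroupOf S' = stabilizer S' p := by
    ext x
    rfl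
  rw [e, MulAction.index_stabilizer]
  have h2 : (orbit S' p).Finite := by
    refine hFf.subset ?_
    rintro _ ⟨s, rfl⟩
    exact hF s s.2 p hp
  exact ((Set.ncard_pos h2).2 (MulAction.nonempty_orbit p)).ne'

/-- **An infinite virtually solvable subgroup virtually fixes a point.** -/
theorem exists_fix (hG : ConvergenceAction G X) [Nonempty X] {H : Subgroup G} (hH : VSo H)
    (hinf : (H : Set G).Infinite) : ∃ p : X, (stabilizer G p).relIndex H ≠ 0 := by
  obtain ⟨S, hS, hSs⟩ := hH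
  set S' : Subgroup G := S.map H.subtype with hS'
  have hrel : S'.relIndex H ≠ 0 := by
    rw [Subgroup.relIndex, hS', Subgroup.subgroupOf,
      Subgroup.comap_map_eq_self_of_injective H.subtype_injective]
    exact hS.index_ne_zero
  have hsol : Group.IsSolvable S' := Group.isSolvable_of_surjective (H.subtype.subgroupMap_surjective S)
  have hinf' : (S' : Set G).Infinite := by
    have := inf_of_relIndex hinf hrel
    exact this.mono inf_le_left
  obtain ⟨p, h1⟩ := exists_fix_fol hG (Fol.of_solvable hsol) hinf'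
  exact ⟨p, Subgroup.relIndex_ne_zero_trans h1 hrel⟩

end Pool.Agent.Helper29.RH
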