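import Pool.Agent.Helper29.RH.Fam
import Pool.Agent.Helper29.TW.Ent
import Pool.Agent.Helper29.NU.Grpa
import Pool.Agent.Helper29.VS.Loc2

/-! Powers, and tame orbits in the algebra. -/

set_option autoImplicit false
set_option linter.unusedSectionVars false
set_option linter.style.haveILetI false

namespace Pool.Agent.Helper29.RH

open Filter Topology Set
open Pool.Agent.Helper29.NU Pool.Agent.Helper29.VP Pool.Agent.Helper29.VS Pool.Agent.Helper29.TW

variable {A G : Type} [CStarAlgebra A] [Group G]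

theorem zeroRankCP_pow {α : A →⋆ₐ[ℂ] A} (h : ZeroRankCP α) {m : ℕ} (hm : 0 < m) :
    ZeroRankCP (itH α m) := by
  obtain ⟨H, i1, i2, i3, π, hπ, h⟩ := h
  refine ⟨H, i1, i2, i3, π, hπ, fun Ω δ ε hδ hε => ?_⟩
  have hm' : (0 : ℝ) < m := by exact_mod_cast hm
  have h1 := h Ω δ (ε / m) hδ (by positivity)
  have h2 : Tendsto (fun n : ℕ => m * n) atTop atTop := tendsto_id.const_mul_atTop' hm
  filter_upwards [h2.eventually h1] with n hn
  obtain ⟨k, hk, φ, ψ, hφ, hψ, hc, hap⟩ := hn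
  refine ⟨k, hk.trans (le_of_eq ?_), φ, ψ, hφ, hψ, hc, fun i hi a ha => ?_⟩
  · congr 1
    push_cast
    field_simp
  · have e : ∀ (j : ℕ) (x : A), ((itH α m)^[j]) x = (α^[m * j]) x := by
      intro j
      induction j with
      | zero => intro x; rfl
      | succ j ih =>
        intro x
        rw [Function.iterate_succ_apply, ih, itH_apply, ← Function.iterate_add_apply]
        rfl
    rw [e]
    exact hap (m * i) (by nlinarith) a ha

/-- zero entropy makes all powers quasi-unipotent on solvable subgroups -/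
theorem qus_of_zero {u : G → A} (hunit : ∀ g, u g ∈ unitary A)
    (hmul : ∀ g h, ∃ z : ℂ, ‖z‖ = 1 ∧ u (g * h) = z • (u g * u h)) (τ : A →L[ℂ] ℂ)
    (hτ : ∀ x, ‖τ x‖ ≤ ‖x‖)
    (hτ1 : τ 1 = 1) (hτu : ∀ g, g ≠ 1 → τ (u g) = 0) {σ : MulAut G} {α : A →⋆ₐ[ℂ] A}
    (hα : ∀ g, ∃ c : ℂ, ‖c‖ = 1 ∧ α (u g) = c • u (σ g)) (hz : ZeroRankCP α) {m : ℕ}
    (hm : 0 < m) : QUS (σ ^ m) := by
  intro N hN hinv
  refine quo_of_no_indep N hinv fun g => no_indep_cp hunit hmul τ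
    (ContinuousLinearMap.opNorm_le_bound _ zero_le_one fun x => by rw [one_mul]; exact hτ x) hτ1 hτu
    (α := itH α m) (fun g => ?_) (zeroRankCP_pow hz hm) N (Fol.of_solvable hN) g
  obtain ⟨c, hc, h⟩ := iter_cov hα m g
  exact ⟨c, hc, by rw [itH_apply]; exact h⟩

theorem pow_ap (σ : MulAut G) (m : ℕ) (x : G) : (σ ^ m) x = (σ^[m]) x := by
  induction m generalizing x with
  | zero => rfl
  | succ m ih => rw [pow_succ, MulAut.mul_apply, ih, Function.iterate_succ_apply]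

/-- the unitaries of tame elements -/
theorem nilU_of_vs {u : G → A} {σ : MulAut G} {α : A →⋆ₐ[ℂ] A} (hunit : ∀ g, u g ∈ unitary A)
    (hmul : ∀ g h, ∃ z, (z ∈ unitary A ∧ ∀ a : A, z * a = a * z) ∧ α z = z ∧
      u (g * h) = z * (u g * u h))
    (hcov : ∀ g, ∃ z, (z ∈ unitary A ∧ ∀ a : A, z * a = a * z) ∧ α z = z ∧
      α (u g) = z * u (σ g)) (hσ : ∀ m : ℕ, 0 < m → QUS (σ ^ m)) {g : G} {m : ℕ} (hm : 0 < m)
    {E : Subgroup G} (hE : VSo E) (hinv : ∀ z, z ∈ E ↔ (σ ^ m) z ∈ E)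
    (hg : g⁻¹ * (σ ^ m) g ∈ E) : u g ∈ NilU α := by
  obtain ⟨k, hk, ⟨j, hj⟩, V, hVn, hV⟩ := tame_vs (τ := σ ^ m) (fun k hk => by
    rw [← pow_mul]; exact hσ _ (Nat.mul_pos hm hk)) g E hinv hE hg
  rw [← pow_mul] at hj hV
  have hmk : 0 < m * k := Nat.mul_pos hm hk
  have hit : ∀ (n : ℕ) (x : G), ((σ ^ (m * k) : MulAut G)^[n]) x =
      (σ.toMonoidHom^[m * k * n]) x := by
    intro n
    induction n with
    | zero => intro x; rfl
    | succ n ih =>
      intro x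
      rw [Function.iterate_succ_apply, ih, pow_ap, mul_add, mul_one, Function.iterate_add_apply]
      rfl
  have hD : (fun h : G => h⁻¹ * (σ.toMonoidHom^[m * k]) h) = Dg (σ ^ (m * k)) := by
    funext h
    rw [Dg, pow_ap]
    rfl
  refine nilU_of_tame (σ := σ.toMonoidHom) hunit hmul hcov hmk ⟨j, by rw [hD]; exact hj⟩
    ⟨V, hVn, fun n => ?_⟩
  have h3 := hV n
  rw [hit, ← hD] at h3
  exact h3

end Pool.Agent.Helper29.RH
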