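import Pool.Agent.Helper29.VS.Loc2

/-! The tower for two elements which normalise the subgroup. -/

set_option autoImplicit false
set_option linter.style.haveILetI false

open Subgroup
open scoped commutatorElement

namespace Pool.Agent.Helper29.RH

open Pool.Agent.Helper29.NU (En Dg SP aa pw En_inl aa_conj RR RR_normal RR_map RR_bot mem_iff_of_map
  solv_sup)
open Pool.Agent.Helper29.VS (eA eA_apply LQ LL Fx Fx_closure Fx_closure_sub Fx_conj mem_Fx_zero
  lcs_normal_gen QQ_fin QQ' c_iota fx_en En_map aa_pow_conj En_pow_inl En_pow_iter QUS QUO RR_le)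

section
variable {Γ B : Type} [Group Γ] [CommGroup B] {ι : B →* Γ} {c : Γ →* MulAut B}

/-- **The main step.** -/
theorem main_step2 (hι : Function.Injective ι) (hc : ∀ g b, ι (c g b) = g * ι b * g⁻¹) (s t : Γ)
    {n : ℕ} (hn : (closure {s, t}).lowerCentralSeries n ≤ ι.range)
    (hL : LQ (eA B) (c s)) (hLt : LQ (eA B) (c t)) :
    ∃ m : ℕ, 0 < m ∧ ∃ j : ℕ, (closure {s ^ m, t ^ m}).lowerCentralSeries j = ⊥ := by
  classical
  set H : Subgroup Γ := closure {s, t} with hH
  have hsH : s ∈ H := Subgroup.subset_closure (Or.inl rfl)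
  have hsH' : t ∈ H := Subgroup.subset_closure (Or.inr rfl)
  set T : Finset (MulAut B) := {c s, c (t)} with hT
  have hQ : closure (T : Set (MulAut B)) = H.map c := by
    rw [hH, MonoidHom.map_closure, Set.image_pair, hT, Finset.coe_pair]
  have hcl : (closure (T : Set (MulAut B))).lowerCentralSeries n = ⊥ := by
    rw [hQ, ← Subgroup.map_lowerCentralSeries, eq_bot_iff]
    rintro _ ⟨x, hx, rfl⟩
    obtain ⟨b, rfl⟩ := hn hx
    exact c_iota hι hc b
  have hLT : ∀ t ∈ T, LQ (eA B) t := by
    intro t ht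
    rw [hT, Finset.mem_insert, Finset.mem_singleton] at ht
    rcases ht with rfl | rfl
    · exact hL
    · exact hLt
  -- the generators of the last term
  have hSH : closure (({⟨s, hsH⟩, ⟨t, hsH'⟩} : Finset H) : Set H) = ⊤ := by
    have e : (({⟨s, hsH⟩, ⟨t, hsH'⟩} : Finset H) : Set H) =
        ((↑) : H → Γ) ⁻¹' {s, t} := by
      ext x
      simp only [Finset.coe_insert, Finset.coe_singleton, Set.mem_insert_iff, Set.mem_singleton_iff,
        Set.mem_preimage, Subtype.ext_iff]
    rw [e]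
    exact closure_closure_coe_preimage
  obtain ⟨W, hW⟩ := lcs_normal_gen _ hSH n
  have hmapH : ((⊤ : Subgroup H).lowerCentralSeries n).map H.subtype = H.lowerCentralSeries n := by
    rw [Subgroup.map_lowerCentralSeries, ← MonoidHom.range_eq_map, Subgroup.range_subtype]
  have hWr : ∀ w ∈ W, ∃ b : B, ι b = (w : Γ) := by
    intro w hw
    have h1 : w ∈ (⊤ : Subgroup H).lowerCentralSeries n := by
      rw [hW]
      exact subset_normalClosure hw
    exact hn (hmapH ▸ mem_map_of_mem H.subtype h1)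
  choose! bb hbb using hWr
  obtain ⟨m, hm, K, hK⟩ := QQ_fin (eA B) (closure (T : Set (MulAut B))) W
    (fun w => Additive.ofMul (bb w)) fun w _ => QQ' (eA B) T hcl hLT _
  set X : Set (MulAut B) := {y | ∃ x ∈ closure (T : Set (MulAut B)), y = x ^ m} with hX
  have hXconj : ∀ h ∈ H, ∀ x ∈ X, (c h)⁻¹ * x * c h ∈ X := by
    rintro h hh _ ⟨x, hx, rfl⟩
    have h1 : c h ∈ closure (T : Set (MulAut B)) := by
      rw [hQ]
      exact mem_map_of_mem c hh
    refine ⟨(c h)⁻¹ * x * c h, mul_mem (mul_mem (inv_mem h1) hx) h1, ?_⟩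
    have := conj_pow (i := m) (a := (c h)⁻¹) (b := x)
    rw [inv_inv] at this
    exact this.symm
  -- the last term is contained in the level `K`
  have hHL : H.lowerCentralSeries n ≤ LL ι X K := by
    rw [← hmapH, map_le_iff_le_comap, hW]
    haveI : ((LL ι X K).comap H.subtype).Normal := by
      refine ⟨?_⟩
      rintro x ⟨b, hb, hxb⟩ h
      refine ⟨c h b, ?_, ?_⟩
      · rw [← eA_apply]
        exact Fx_conj (hXconj h h.2) K hb
      · rw [hc, ← hxb]
        rfl
    refine normalClosure_le_normal fun w hw => ?_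
    exact ⟨bb w, hK w hw, (hbb w hw).symm⟩
  -- the smaller group
  set F : Subgroup Γ := closure {s ^ m, t ^ m} with hF
  have hFH : F ≤ H := by
    rw [hF, closure_le]
    rintro x (rfl | rfl)
    · exact pow_mem hsH m
    · exact pow_mem hsH' m
  have hcF : ∀ y ∈ F, c y ∈ closure X := by
    intro y hy
    have h1 : F ≤ (closure X).comap c := by
      rw [hF, closure_le]
      rintro x (rfl | rfl)
      · rw [SetLike.mem_coe, mem_comap, map_pow]
        refine Subgroup.subset_closure ⟨c s, ?_, rfl⟩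
        rw [hQ]
        exact mem_map_of_mem c hsH
      · rw [SetLike.mem_coe, mem_comap, map_pow]
        refine Subgroup.subset_closure ⟨c t, ?_, rfl⟩
        rw [hQ]
        exact mem_map_of_mem c hsH'
    exact h1 hy
  have key : ∀ j k : ℕ, j + k = K → F.lowerCentralSeries (n + j) ≤ LL ι X k := by
    intro j
    induction j with
    | zero =>
      intro k hk
      have : k = K := by omega
      subst this
      exact (Subgroup.lowerCentralSeries_mono _ hFH).trans hHL
    | succ j ih =>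
      intro k hk
      have h1 := ih (k + 1) (by omega)
      rw [← add_assoc, Subgroup.lowerCentralSeries_succ, commutator_le]
      intro x hx y hy
      obtain ⟨b, hb, rfl⟩ := h1 hx
      refine ⟨b * (c y b)⁻¹, ?_, ?_⟩
      · have e : Additive.ofMul (b * (c y b)⁻¹) =
            -(eA B (c y) (Additive.ofMul b) - Additive.ofMul b) := by
          rw [eA_apply, ofMul_mul, ofMul_inv]
          abel
        rw [e]
        exact neg_mem (Fx_closure_sub k (hcF y hy) _ hb)
      · rw [map_mul, map_inv, hc, commutatorElement_def]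
        group
  refine ⟨m, hm, n + K, ?_⟩
  rw [eq_bot_iff]
  intro x hx
  obtain ⟨b, hb, rfl⟩ := key K 0 (by omega) hx
  rw [mem_Fx_zero] at hb
  have : b = 1 := hb
  rw [this, map_one]
  exact one_mem _

end

theorem lcs_map2 {Γ Γ' : Type} [Group Γ] [Group Γ'] (f : Γ →* Γ') (s t : Γ) (n : ℕ) :
    ((closure {s, t}).lowerCentralSeries n).map f =
      (closure {f s, f t}).lowerCentralSeries n := by
  rw [Subgroup.map_lowerCentralSeries, MonoidHom.map_closure, Set.image_pair]

/-- **The tower.** -/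
theorem tower2 {Γ : Type} [Group Γ] (T : ℕ → Subgroup Γ) (hT : ∀ i, (T i).Normal)
    (hT' : ∀ i, ⁅T i, T i⁆ ≤ T (i + 1)) (s t : Γ)
    (hs : ∀ i, ∀ x ∈ T i, ∃ m : ℕ, 0 < m ∧ ∃ k : ℕ, (En (s ^ m))^[k] x ∈ T (i + 1))
    (ht : ∀ i, ∀ x ∈ T i, ∃ m : ℕ, 0 < m ∧ ∃ k : ℕ, (En (t ^ m))^[k] x ∈ T (i + 1)) {m₀ : ℕ}
    (hm₀ : 0 < m₀) (h0 : t ^ m₀ * (s ^ m₀)⁻¹ ∈ T 0) (i : ℕ) :
    ∃ m : ℕ, 0 < m ∧ ∃ n : ℕ, (closure {s ^ m, t ^ m}).lowerCentralSeries n ≤ T i := by
  induction i with
  | zero =>
    refine ⟨m₀, hm₀, 1, ?_⟩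
    haveI := hT 0
    rw [← QuotientGroup.ker_mk' (T 0), ← Subgroup.map_eq_bot_iff, lcs_map2]
    set π := QuotientGroup.mk' (T 0) with hπ
    have h1 : π (t ^ m₀) = π (s ^ m₀) := by
      rw [← mul_inv_eq_one, ← map_inv, ← map_mul, ← MonoidHom.mem_ker, hπ, QuotientGroup.ker_mk']
      exact h0
    rw [h1, Set.pair_eq_singleton, eq_bot_iff, Subgroup.lowerCentralSeries_succ,
      Subgroup.lowerCentralSeries_zero, commutator_le]
    intro a ha b hb
    obtain ⟨p, rfl⟩ := mem_closure_singleton.1 ha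
    obtain ⟨q, rfl⟩ := mem_closure_singleton.1 hb
    rw [mem_bot, commutatorElement_eq_one_iff_mul_comm, ← zpow_add, ← zpow_add, add_comm]
  | succ i ih =>
    obtain ⟨m, hm, n, hn⟩ := ih
    haveI := hT i
    haveI := hT (i + 1)
    set π := QuotientGroup.mk' (T (i + 1)) with hπ
    set A := (T i).map π with hA
    haveI hAn : A.Normal := (hT i).map π (QuotientGroup.mk'_surjective _)
    have hAcomm : ∀ a b : A, a * b = b * a := by
      rintro ⟨_, x, hx, rfl⟩ ⟨_, y, hy, rfl⟩
      refine Subtype.ext ?_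
      show π x * π y = π y * π x
      rw [← commutatorElement_eq_one_iff_mul_comm, ← map_commutatorElement, ← MonoidHom.mem_ker, hπ,
        QuotientGroup.ker_mk']
      exact hT' i (commutator_mem_commutator hx hy)
    letI : CommGroup A := { (inferInstance : Group A) with mul_comm := hAcomm }
    have hι : Function.Injective (A.subtype : A →* _) := A.subtype_injective
    have hc : ∀ (g : Γ ⧸ T (i + 1)) (b : A),
        A.subtype ((MulAut.conjNormal : _ →* MulAut A) g b) = g * A.subtype b * g⁻¹ := fun g b =>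
      MulAut.conjNormal_apply g b
    have hL : ∀ r : Γ, (∀ x ∈ T i, ∃ m : ℕ, 0 < m ∧ ∃ k : ℕ, (En (r ^ m))^[k] x ∈ T (i + 1)) →
        LQ (eA A) ((MulAut.conjNormal : _ →* MulAut A) (π r)) := by
      intro r hr v
      obtain ⟨⟨_, x, hx, rfl⟩, rfl⟩ := Additive.ofMul.surjective v
      obtain ⟨m1, hm1, k1, h1⟩ := hr x hx
      refine ⟨m1, hm1, k1, ?_⟩
      rw [← map_pow, fx_en hι hc]
      show (En (π r ^ m1))^[k1] (π x) = 1
      rw [← map_pow, ← En_map, ← MonoidHom.mem_ker, hπ, QuotientGroup.ker_mk']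
      exact h1
    obtain ⟨m', hm', j, hj⟩ := main_step2 (ι := A.subtype)
      (c := (MulAut.conjNormal : _ →* MulAut A)) hι hc (π (s ^ m)) (π (t ^ m)) (n := n) (by
        rw [← lcs_map2, Subgroup.range_subtype, hA]
        exact Subgroup.map_mono hn) (by
        rw [map_pow, map_pow]
        exact (hL s (hs i)).pow m) (by
        rw [map_pow, map_pow]
        exact (hL t (ht i)).pow m)
    refine ⟨m * m', Nat.mul_pos hm hm', j, ?_⟩
    rw [← QuotientGroup.ker_mk' (T (i + 1)), ← Subgroup.map_eq_bot_iff, lcs_map2, ← hj, pow_mul,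
      pow_mul, map_pow π (s ^ m) m', map_pow π (t ^ m) m']


end Pool.Agent.Helper29.RH
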