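import Pool.Graph.R_seed8.W726.NS.Conv

/-! Convergence groups: infinite subgroups which fix two points. -/

set_option autoImplicit false
set_option linter.unusedSectionVars false
set_option linter.style.haveILetI false

namespace Pool.Agent.Helper29.RH

open Filter Topology Set MulAction
open Pool.Agent.W726.NS (ConvergenceAction)

variable {G X : Type*} [Group G] [TopologicalSpace X] [CompactSpace X] [T2Space X] [MulAction G X]

/-- the sequence contracts to `a` off `b` -/
def Lm (x : ℕ → G) (a b : X) : Prop :=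
  ∀ U ∈ 𝓝 a, ∀ V ∈ 𝓝 b, ∀ᶠ n in atTop, ∀ p : X, p ∉ V → x n • p ∈ U

theorem Lm.tendsto {x : ℕ → G} {a b : X} (h : Lm x a b) {w : X} (hw : w ≠ b) :
    Tendsto (fun n => x n • w) atTop (𝓝 a) := by
  rw [tendsto_def]
  intro U hU
  have hV : {w}ᶜ ∈ 𝓝 b := isOpen_compl_singleton.mem_nhds fun h1 => hw (Eq.symm h1)
  filter_upwards [h U hU _ hV] with k hk
  exact hk w (by simp)

theorem Lm.fix {x : ℕ → G} {a b : X} (h : Lm x a b) {w : X} (hw : w ≠ b) (hf : ∀ n, x n • w = w) :
    w = a := by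
  have h1 := h.tendsto hw
  simp only [hf] at h1
  exact tendsto_nhds_unique tendsto_const_nhds h1

theorem exists_inj {K : Subgroup G} (hK : (K : Set G).Infinite) :
    ∃ x : ℕ → G, Function.Injective x ∧ ∀ n, x n ∈ K := by
  haveI := hK.to_subtype
  let e := Infinite.natEmbedding (K : Set G)
  exact ⟨fun n => (e n : G), fun i j h => e.injective (Subtype.ext h), fun n => (e n).2⟩

/-- an infinite subgroup does not fix three points -/
theorem no_three (hG : ConvergenceAction G X) {K : Subgroup G} (hK : (K : Set G).Infinite)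
    {p q r : X} (hpq : p ≠ q) (hpr : p ≠ r) (hqr : q ≠ r) (hp : K ≤ stabilizer G p)
    (hq : K ≤ stabilizer G q) (hr : K ≤ stabilizer G r) : False := by
  obtain ⟨x, hx, hxK⟩ := exists_inj hK
  obtain ⟨φ, hφ, a, b, hab⟩ := hG.2 x hx
  have hab' : Lm (fun n => x (φ n)) a b := hab
  have key : ∀ {w : X}, K ≤ stabilizer G w → w ≠ b → w = a := fun {w} hw hwb =>
    hab'.fix hwb fun n => mem_stabilizer_iff.1 (hw (hxK _))
  by_cases h1 : p = b
  · subst h1
    exact hqr ((key hq hpq.symm).trans (key hr hpr.symm).symm)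
  · by_cases h2 : q = b
    · subst h2
      exact hpr ((key hp hpq).trans (key hr hqr.symm).symm)
    · exact hpq ((key hp h1).trans (key hq h2).symm)

/-- sequences in an infinite subgroup fixing two points -/
theorem lim_two (hG : ConvergenceAction G X) {p q : X} (hpq : p ≠ q) (x : ℕ → G)
    (hx : Function.Injective x) (hp : ∀ n, x n • p = p) (hq : ∀ n, x n • q = q) :
    ∃ φ : ℕ → ℕ, StrictMono φ ∧ (Lm (fun n => x (φ n)) p q ∨ Lm (fun n => x (φ n)) q p) := by
  obtain ⟨φ, hφ, a, b, hab⟩ := hG.2 x hx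
  have hab' : Lm (fun n => x (φ n)) a b := hab
  refine ⟨φ, hφ, ?_⟩
  by_cases h1 : p = b
  · subst h1
    have h2 := hab'.fix hpq.symm fun n => hq _
    subst h2
    exact Or.inr hab'
  · have h2 := hab'.fix h1 fun n => hp _
    subst h2
    by_cases h3 : q = b
    · subst h3
      exact Or.inl hab'
    · exact absurd (hab'.fix h3 fun n => hq _).symm hpq

/-- a loxodromic element -/
structure Lox (p q z : X) (U V : Set X) (h : G) : Prop where
  hU : IsOpen U
  hV : IsOpen V
  pU : p ∈ U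
  qV : q ∈ V
  zU : z ∉ U
  zV : z ∉ V
  dis : Disjoint U V
  fp : h • p = p
  fq : h • q = q
  con : ∀ y, y ∉ V → h • y ∈ U

theorem exists_lox (hG : ConvergenceAction G X) [Infinite X] {p q : X} (hpq : p ≠ q)
    (hinf : ((stabilizer G p ⊓ stabilizer G q : Subgroup G) : Set G).Infinite) :
    ∃ (z : X) (U V : Set X) (h : G), Lox p q z U V h := by
  classical
  obtain ⟨z, hz⟩ := (Set.infinite_univ (α := X)).exists_notMem_finite (Set.toFinite ({p, q} : Set X))
  have hzp : z ≠ p := fun h => hz.2 (by rw [h]; exact Or.inl rfl)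
  have hzq : z ≠ q := fun h => hz.2 (by rw [h]; exact Or.inr rfl)
  obtain ⟨U1, V1, hU1, hV1, hpU1, hqV1, hd1⟩ := t2_separation hpq
  obtain ⟨U2, W2, hU2, hW2, hpU2, hzW2, hd2⟩ := t2_separation (Ne.symm hzp)
  obtain ⟨V3, W3, hV3, hW3, hqV3, hzW3, hd3⟩ := t2_separation (Ne.symm hzq)
  set U := U1 ∩ U2 with hU
  set V := V1 ∩ V3 with hV
  have hUo : IsOpen U := hU1.inter hU2
  have hVo : IsOpen V := hV1.inter hV3
  have hpU : p ∈ U := ⟨hpU1, hpU2⟩
  have hqV : q ∈ V := ⟨hqV1, hqV3⟩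
  have hzU : z ∉ U := fun h => Set.disjoint_left.1 hd2 h.2 hzW2
  have hzV : z ∉ V := fun h => Set.disjoint_left.1 hd3 h.2 hzW3
  have hd : Disjoint U V := hd1.mono inter_subset_left inter_subset_left
  obtain ⟨x, hx, hxK⟩ := exists_inj hinf
  have hxp : ∀ n, x n • p = p := fun n => mem_stabilizer_iff.1 (hxK n).1
  have hxq : ∀ n, x n • q = q := fun n => mem_stabilizer_iff.1 (hxK n).2
  obtain ⟨φ, -, h1 | h1⟩ := lim_two hG hpq x hx hxp hxq
  · obtain ⟨n, hn⟩ := (h1 U (hUo.mem_nhds hpU) V (hVo.mem_nhds hqV)).exists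
    exact ⟨z, U, V, x (φ n), hUo, hVo, hpU, hqV, hzU, hzV, hd, hxp _, hxq _, hn⟩
  · obtain ⟨n, hn⟩ := (h1 V (hVo.mem_nhds hqV) U (hUo.mem_nhds hpU)).exists
    refine ⟨z, U, V, (x (φ n))⁻¹, hUo, hVo, hpU, hqV, hzU, hzV, hd, ?_, ?_, fun y hy => ?_⟩
    · rw [inv_smul_eq_iff, hxp]
    · rw [inv_smul_eq_iff, hxq]
    · by_contra hcon
      have := hn _ hcon
      rw [smul_inv_smul] at this
      exact hy this

namespace Lox

variable {p q z : X} {U V : Set X} {h : G}

theorem con' (L : Lox p q z U V h) {y : X} (hy : y ∉ U) : h⁻¹ • y ∈ V := by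
  by_contra hcon
  have := L.con _ hcon
  rw [smul_inv_smul] at this
  exact hy this

theorem pow_mem (L : Lox p q z U V h) {y : X} (hy : y ∉ V) (n : ℕ) : h ^ (n + 1) • y ∈ U := by
  induction n with
  | zero => rw [zero_add, pow_one]; exact L.con y hy
  | succ n ih =>
    rw [pow_succ', mul_smul]
    exact L.con _ fun h => Set.disjoint_left.1 L.dis ih h

theorem neg_mem (L : Lox p q z U V h) {y : X} (hy : y ∉ U) (n : ℕ) : (h ^ (n + 1))⁻¹ • y ∈ V := by
  induction n with
  | zero => rw [zero_add, pow_one]; exact L.con' hy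
  | succ n ih =>
    rw [pow_succ, mul_inv_rev, mul_smul]
    exact L.con' fun h => Set.disjoint_left.1 L.dis h ih

theorem not_fin (L : Lox p q z U V h) : ¬ IsOfFinOrder h := by
  intro hf
  obtain ⟨n, hn, h1⟩ := isOfFinOrder_iff_pow_eq_one.1 hf
  obtain ⟨m, rfl⟩ : ∃ m, n = m + 1 := ⟨n - 1, by omega⟩
  have := L.pow_mem L.zV m
  rw [h1, one_smul] at this
  exact L.zU this

theorem fp_pow (L : Lox p q z U V h) (n : ℕ) : h ^ n • p = p := by
  induction n with
  | zero => rw [pow_zero, one_smul]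
  | succ n ih => rw [pow_succ, mul_smul, L.fp, ih]

theorem fq_pow (L : Lox p q z U V h) (n : ℕ) : h ^ n • q = q := by
  induction n with
  | zero => rw [pow_zero, one_smul]
  | succ n ih => rw [pow_succ, mul_smul, L.fq, ih]

theorem fp_inv (L : Lox p q z U V h) (n : ℕ) : (h ^ n)⁻¹ • p = p := by
  rw [inv_smul_eq_iff, L.fp_pow]

theorem fq_inv (L : Lox p q z U V h) (n : ℕ) : (h ^ n)⁻¹ • q = q := by
  rw [inv_smul_eq_iff, L.fq_pow]

/-- positive powers contract to `p` -/
theorem pos_lim (L : Lox p q z U V h) (hG : ConvergenceAction G X) (hpq : p ≠ q) (m : ℕ → ℕ)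
    (hm : StrictMono m) : ∃ φ : ℕ → ℕ, StrictMono φ ∧ Lm (fun n => h ^ (m (φ n))) p q := by
  obtain ⟨φ, hφ, h1 | h1⟩ := lim_two hG hpq (fun n => h ^ (m n))
    (fun i j hij => hm.injective ((injective_pow_iff_not_isOfFinOrder.2 L.not_fin) hij))
    (fun n => L.fp_pow _) (fun n => L.fq_pow _)
  · exact ⟨φ, hφ, h1⟩
  · exfalso
    obtain ⟨n, hn, hn1⟩ := ((h1 V (L.hV.mem_nhds L.qV) U (L.hU.mem_nhds L.pU)).and
      (eventually_ge_atTop 1)).exists
    have h2 := hn z L.zU
    have h3 : n ≤ m (φ n) := (hφ.id_le n).trans (hm.id_le _)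
    obtain ⟨k, hk⟩ : ∃ k, m (φ n) = k + 1 := ⟨m (φ n) - 1, by omega⟩
    have h4 := L.pow_mem L.zV k
    beta_reduce at h2
    rw [hk] at h2
    exact Set.disjoint_left.1 L.dis h4 h2

/-- negative powers contract to `q` -/
theorem neg_lim (L : Lox p q z U V h) (hG : ConvergenceAction G X) (hpq : p ≠ q) (m : ℕ → ℕ)
    (hm : StrictMono m) : ∃ φ : ℕ → ℕ, StrictMono φ ∧ Lm (fun n => (h ^ (m (φ n)))⁻¹) q p := by
  obtain ⟨φ, hφ, h1 | h1⟩ := lim_two hG hpq (fun n => (h ^ (m n))⁻¹)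
    (fun i j hij => hm.injective ((injective_pow_iff_not_isOfFinOrder.2 L.not_fin)
      (inv_injective hij)))
    (fun n => L.fp_inv _) (fun n => L.fq_inv _)
  · exfalso
    obtain ⟨n, hn, hn1⟩ := ((h1 U (L.hU.mem_nhds L.pU) V (L.hV.mem_nhds L.qV)).and
      (eventually_ge_atTop 1)).exists
    have h2 := hn z L.zV
    have h3 : n ≤ m (φ n) := (hφ.id_le n).trans (hm.id_le _)
    obtain ⟨k, hk⟩ : ∃ k, m (φ n) = k + 1 := ⟨m (φ n) - 1, by omega⟩
    have h4 := L.neg_mem L.zU k
    beta_reduce at h2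
    rw [hk] at h2
    exact Set.disjoint_left.1 L.dis h2 h4
  · exact ⟨φ, hφ, h1⟩

/-- each point other than `p` and outside `V` has a translate in the fundamental domain -/
theorem exists_dom (L : Lox p q z U V h) (hG : ConvergenceAction G X) (hpq : p ≠ q) {w : X}
    (hw : w ≠ p) (hwV : w ∉ V) : ∃ m : ℕ, (h ^ m)⁻¹ • w ∉ V ∧ h⁻¹ • (h ^ m)⁻¹ • w ∈ V := by
  classical
  have hex : ∃ m : ℕ, (h ^ m)⁻¹ • w ∈ V := by
    obtain ⟨φ, -, h1⟩ := L.neg_lim hG hpq id strictMono_id
    obtain ⟨n, hn⟩ := ((h1.tendsto hw).eventually (L.hV.mem_nhds L.qV)).exists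
    exact ⟨_, hn⟩
  have h0 : Nat.find hex ≠ 0 := by
    intro h0
    have := Nat.find_spec hex
    rw [h0, pow_zero, inv_one, one_smul] at this
    exact hwV this
  obtain ⟨k, hk⟩ : ∃ k, Nat.find hex = k + 1 := ⟨Nat.find hex - 1, by omega⟩
  refine ⟨k, Nat.find_min hex (by omega), ?_⟩
  have := Nat.find_spec hex
  rw [hk, pow_succ, mul_inv_rev, mul_smul] at this
  exact this

end Lox

/-- **The stabilisers of two points with infinite intersection are equal.** -/
theorem stab_le (hG : ConvergenceAction G X) [Infinite X] {p q : X}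
    (hinf : ((stabilizer G p ⊓ stabilizer G q : Subgroup G) : Set G).Infinite) :
    stabilizer G p ≤ stabilizer G q := by
  classical
  by_cases hpq : p = q
  · rw [hpq]
  intro g hg
  rw [mem_stabilizer_iff] at hg ⊢
  by_contra hgq
  obtain ⟨z, U, V, h, L⟩ := exists_lox hG hpq hinf
  have hcont := hG.1
  set q' := g • q with hq'
  have hq'p : q' ≠ p := by
    intro h1
    apply hpq
    have : g • q = g • p := by rw [hg, ← h1]
    exact (smul_left_cancel g this).symm
  have hzp : z ≠ p := fun h1 => L.zU (h1 ▸ L.pU)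
  have hzq : z ≠ q := fun h1 => L.zV (h1 ▸ L.qV)
  -- the points `w n = g hⁿ z` tend to `p`
  obtain ⟨ψ, hψ, hlim⟩ := L.pos_lim hG hpq id strictMono_id
  set w : ℕ → X := fun n => g • h ^ (ψ n) • z with hw
  have hwp : Tendsto w atTop (𝓝 p) := by
    have h1 := ((hcont g).tendsto p).comp (hlim.tendsto hzq)
    rw [hg] at h1
    exact h1
  have hwne : ∀ n, w n ≠ p := by
    intro n h1
    apply hzp
    have h2 : g • h ^ (ψ n) • z = g • h ^ (ψ n) • p := by rw [L.fp_pow, hg]; exact h1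
    exact smul_left_cancel _ (smul_left_cancel _ h2)
  have hUV : ∀ {y : X}, y ∈ U → y ∉ V := fun {y} h1 h2 => Set.disjoint_left.1 L.dis h1 h2
  -- shift the sequence such that all `w n` are outside `V`
  obtain ⟨N, hN⟩ := eventually_atTop.1 (hwp.eventually (L.hU.mem_nhds L.pU))
  have hdom : ∀ n, ∃ m : ℕ, (h ^ m)⁻¹ • w (n + N) ∉ V ∧ h⁻¹ • (h ^ m)⁻¹ • w (n + N) ∈ V := fun n =>
    L.exists_dom hG hpq (hwne _) (hUV (hN _ (Nat.le_add_left _ _)))
  choose m hm1 hm2 using hdom
  -- `m n` tends to infinity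
  have hminf : Tendsto m atTop atTop := by
    rw [tendsto_atTop]
    intro M
    have hnb : ∀ k : ℕ, ∀ᶠ n in atTop, h⁻¹ • (h ^ k)⁻¹ • w (n + N) ∈ U := by
      intro k
      have h1 : Tendsto (fun n => h⁻¹ • (h ^ k)⁻¹ • w (n + N)) atTop (𝓝 p) := by
        have h2 : Tendsto (fun n => w (n + N)) atTop (𝓝 p) :=
          hwp.comp (tendsto_add_atTop_nat N)
        have h3 := ((hcont (h ^ k)⁻¹).tendsto p).comp h2
        rw [L.fp_inv] at h3
        have h4 := ((hcont h⁻¹).tendsto p).comp h3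
        have h5 : h⁻¹ • p = p := by rw [inv_smul_eq_iff, L.fp]
        rw [h5] at h4
        exact h4
      exact h1.eventually (L.hU.mem_nhds L.pU)
    have hall : ∀ᶠ n in atTop, ∀ k < M, h⁻¹ • (h ^ k)⁻¹ • w (n + N) ∈ U := by
      have := (Filter.eventually_all_finset (Finset.range M)).2 (fun k _ => hnb k)
      filter_upwards [this] with n hn k hk
      exact hn k (Finset.mem_range.2 hk)
    filter_upwards [hall] with n hn
    by_contra hcon
    exact hUV (hn _ (not_le.1 hcon)) (hm2 n)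
  obtain ⟨θ, hθ, hmθ⟩ := strictMono_subseq_of_tendsto_atTop hminf
  set F : ℕ → G := fun n => (h ^ (m (θ n)))⁻¹ * g * h ^ (ψ (θ n + N)) with hF
  have hFp : ∀ n, F n • p = p := by
    intro n
    rw [hF]
    show ((h ^ (m (θ n)))⁻¹ * g * h ^ (ψ (θ n + N))) • p = p
    rw [mul_smul, mul_smul, L.fp_pow, hg, L.fp_inv]
  have hFq : ∀ n, F n • q = (h ^ (m (θ n)))⁻¹ • q' := by
    intro n
    show ((h ^ (m (θ n)))⁻¹ * g * h ^ (ψ (θ n + N))) • q = _
    rw [mul_smul, mul_smul, L.fq_pow]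
  have hFz : ∀ n, F n • z = (h ^ (m (θ n)))⁻¹ • w (θ n + N) := by
    intro n
    show ((h ^ (m (θ n)))⁻¹ * g * h ^ (ψ (θ n + N))) • z = _
    rw [mul_smul, mul_smul]
  -- the elements `F n` are distinct
  have hno : ∀ k : ℕ, 0 < k → h ^ k • q' ≠ q' := by
    intro k hk h1
    have hfin : ¬ IsOfFinOrder (h ^ k) := by
      intro h2
      exact L.not_fin (h2.of_pow hk.ne')
    have hzinf : ((Subgroup.zpowers (h ^ k) : Subgroup G) : Set G).Infinite := by
      intro h2
      exact hfin (finite_zpowers.1 h2)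
    refine no_three hG hzinf hpq hq'p.symm (Ne.symm hgq) ?_ ?_ ?_
    · rw [Subgroup.zpowers_le, mem_stabilizer_iff, L.fp_pow]
    · rw [Subgroup.zpowers_le, mem_stabilizer_iff, L.fq_pow]
    · rw [Subgroup.zpowers_le, mem_stabilizer_iff, h1]
  have hFinj : Function.Injective F := by
    intro i j hij
    by_contra hne
    have h1 : (h ^ (m (θ i)))⁻¹ • q' = (h ^ (m (θ j)))⁻¹ • q' := by rw [← hFq, ← hFq, hij]
    have key : ∀ i j, i < j → (h ^ (m (θ i)))⁻¹ • q' = (h ^ (m (θ j)))⁻¹ • q' → False := by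
      intro i j hlt h1
      have h2 : m (θ i) < m (θ j) := hmθ hlt
      obtain ⟨d, hd⟩ : ∃ d, m (θ j) = m (θ i) + d := ⟨m (θ j) - m (θ i), by omega⟩
      refine hno d (by omega) ?_
      rw [hd, pow_add, mul_inv_rev, mul_smul, eq_inv_smul_iff] at h1
      have h3 : h ^ d • (h ^ (m (θ i)))⁻¹ • q' = (h ^ (m (θ i)))⁻¹ • h ^ d • q' := by
        have h4 : Commute (h ^ d) ((h ^ (m (θ i)))⁻¹) :=
          ((Commute.refl h).pow_pow _ _).inv_right
        have e1 : h ^ d • (h ^ (m (θ i)))⁻¹ • q' = (h ^ d * (h ^ (m (θ i)))⁻¹) • q' :=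
          (mul_smul _ _ _).symm
        rw [e1, h4.eq]
        exact mul_smul _ _ _
      rw [h3] at h1
      exact smul_left_cancel _ h1
    rcases lt_or_gt_of_ne hne with hlt | hlt
    · exact key i j hlt h1
    · exact key j i hlt h1.symm
  obtain ⟨χ, hχ, a, b, hab⟩ := hG.2 F hFinj
  have hab' : Lm (fun n => F (χ n)) a b := hab
  have c1 : p ≠ b → p = a := fun h1 => hab'.fix h1 fun n => hFp _
  have c2 : z ≠ b → a ≠ p ∧ a ≠ q := by
    intro h1
    have h2 := hab'.tendsto h1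
    constructor
    · rintro rfl
      have h3 := ((hcont h⁻¹).tendsto a).comp h2
      have h4 : h⁻¹ • a = a := by rw [inv_smul_eq_iff, L.fp]
      rw [h4] at h3
      obtain ⟨n, hn⟩ := (h3.eventually (L.hU.mem_nhds L.pU)).exists
      have h5 : h⁻¹ • F (χ n) • z ∈ V := by
        rw [hFz]
        exact hm2 _
      exact hUV hn h5
    · rintro rfl
      obtain ⟨n, hn⟩ := (h2.eventually (L.hV.mem_nhds L.qV)).exists
      have h5 : F (χ n) • z ∉ V := by
        rw [hFz]
        exact hm1 _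
      exact h5 hn
  have c3 : q ≠ b → a = q := by
    intro h1
    have h2 := hab'.tendsto h1
    obtain ⟨φ, hφ, h3⟩ := L.neg_lim hG hpq (fun n => m (θ (χ n))) (hmθ.comp hχ)
    have h4 := h3.tendsto hq'p
    have h5 := h2.comp hφ.tendsto_atTop
    refine tendsto_nhds_unique h5 (h4.congr fun n => ?_)
    exact (hFq (χ (φ n))).symm
  by_cases hpb : p = b
  · subst hpb
    exact (c2 hzp).2 (c3 (Ne.symm hpq))
  · have e1 := c1 hpb
    by_cases hzb : z = b
    · subst hzb
      have := c3 (Ne.symm hzq)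
      exact hpq (e1.trans this)
    · exact (c2 hzb).1 e1.symm

theorem stab_eq (hG : ConvergenceAction G X) [Infinite X] {p q : X}
    (hinf : ((stabilizer G p ⊓ stabilizer G q : Subgroup G) : Set G).Infinite) :
    stabilizer G p = stabilizer G q :=
  le_antisymm (stab_le hG hinf) (stab_le hG (by rw [inf_comm]; exact hinf))

end Pool.Agent.Helper29.RH
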