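import Pool.Agent.Helper29.RH.Dich

/-! The dichotomy without countability of the family of the maximal virtually solvable subgroups. -/

set_option autoImplicit false
set_option linter.unusedSectionVars false
set_option linter.style.haveILetI false

namespace Pool.Agent.Helper29.RH

open Filter Topology Set MulAction
open Pool.Agent.W726.NS (ConvergenceAction)
open Pool.Agent.Helper29.TW (Fol ms nu nu_nonneg nu_of_nonneg ms_eq ms_map map_nonneg nu_map_le
  ms_single nu_zero)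

section fol

variable {G : Type} [Group G]

theorem fol_of_finite [Finite G] : Fol G := by
  classical
  haveI := Fintype.ofFinite G
  intro K ε hε
  refine ⟨Finsupp.equivFunOnFinite.symm fun _ => 1 / (Fintype.card G : ℝ), fun g => ?_, ?_,
    fun k _ => ?_⟩
  · show 0 ≤ 1 / (Fintype.card G : ℝ)
    positivity
  · rw [ms_eq, Finsupp.sum_fintype _ _ (fun _ => rfl)]
    show ∑ _ : G, 1 / (Fintype.card G : ℝ) = 1
    rw [Finset.sum_const, Finset.card_univ, nsmul_eq_mul]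
    have : (Fintype.card G : ℝ) ≠ 0 := by exact_mod_cast Fintype.card_ne_zero
    field_simp
  · have e : Finsupp.mapDomain (fun h : G => k * h)
        (Finsupp.equivFunOnFinite.symm fun _ : G => 1 / (Fintype.card G : ℝ)) =
        Finsupp.equivFunOnFinite.symm fun _ : G => 1 / (Fintype.card G : ℝ) := by
      ext g
      have h1 := Finsupp.mapDomain_apply (f := fun h : G => k * h) (mul_right_injective k)
        (Finsupp.equivFunOnFinite.symm fun _ : G => 1 / (Fintype.card G : ℝ)) (k⁻¹ * g)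
      rw [mul_inv_cancel_left] at h1
      rw [h1]
      rfl
    rw [e, sub_self, nu_zero]
    exact hε.le

theorem fol_of_vso {S : Subgroup G} (hS : S.FiniteIndex) (hSs : Group.IsSolvable S) : Fol G := by
  haveI : S.normalCore.FiniteIndex := inferInstance
  have hCs : Group.IsSolvable S.normalCore :=
    Group.isSolvable_of_isSolvable_injective (Subgroup.inclusion_injective S.normalCore_le)
  haveI : Finite (G ⧸ S.normalCore) := inferInstance
  exact Fol.ext S.normalCore fol_of_finite (Fol.of_solvable hCs)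

/-- amenability is a local property -/
theorem fol_of_local (K : Subgroup G)
    (h : ∀ T : Finset K, ∃ H : Subgroup G, H ≤ K ∧ (∀ t ∈ T, (t : G) ∈ H) ∧ Fol H) : Fol K := by
  classical
  intro T ε hε
  obtain ⟨H, hHK, hT, hH⟩ := h T
  set ι : H → K := ⇑(Subgroup.inclusion hHK) with hι
  let TT : Finset H := T.attach.image fun k : {k : K // k ∈ T} =>
    (⟨((k.1 : K) : G), hT k.1 k.2⟩ : H)
  obtain ⟨f, hf0, hf1, hf⟩ := hH TT ε hε
  refine ⟨Finsupp.mapDomain ι f, fun g => map_nonneg _ hf0 g, by rw [ms_map, hf1], fun k hk => ?_⟩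
  have hkH : (k : G) ∈ H := hT k hk
  have e : Finsupp.mapDomain (fun h : K => k * h) (Finsupp.mapDomain ι f) =
      Finsupp.mapDomain ι (Finsupp.mapDomain (fun h : H => (⟨(k : G), hkH⟩ : H) * h) f) := by
    rw [← Finsupp.mapDomain_comp, ← Finsupp.mapDomain_comp]
    congr 1
  rw [e, ← Finsupp.mapDomain_sub]
  refine (nu_map_le _ _).trans (hf _ ?_)
  rw [Finset.mem_image]
  exact ⟨⟨k, hk⟩, Finset.mem_attach _ _, rfl⟩

end fol

variable {G X : Type} [Group G] [TopologicalSpace X] [CompactSpace X] [T2Space X] [MulAction G X]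

/-- the group generated by the differences over `A` -/
def DG (x : ℕ → G) (A : Set ℕ) : Subgroup G := Subgroup.closure {g | ∃ s ∈ A, ∃ t ∈ A, g = (x s)⁻¹ * x t}

theorem DG_mono (x : ℕ → G) {A B : Set ℕ} (h : A ⊆ B) : DG x A ≤ DG x B :=
  Subgroup.closure_mono fun _ ⟨s, hs, t, ht, e⟩ => ⟨s, h hs, t, h ht, e⟩

theorem DG_fin (x : ℕ → G) (A : Set ℕ) {g : G} (hg : g ∈ DG x A) :
    ∃ B : Finset ℕ, (B : Set ℕ) ⊆ A ∧ g ∈ DG x (B : Set ℕ) := by
  classical
  induction hg using Subgroup.closure_induction with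
  | mem g hg =>
    obtain ⟨s, hs, t, ht, rfl⟩ := hg
    refine ⟨{s, t}, ?_, Subgroup.subset_closure ⟨s, by simp, t, by simp, rfl⟩⟩
    intro n hn
    simp only [Finset.coe_insert, Finset.coe_singleton, mem_insert_iff, mem_singleton_iff] at hn
    rcases hn with rfl | rfl
    · exact hs
    · exact ht
  | one => exact ⟨∅, by simp, one_mem _⟩
  | mul g h _ _ hg hh =>
    obtain ⟨B, hB, hg⟩ := hg
    obtain ⟨C, hC, hh⟩ := hh
    refine ⟨B ∪ C, ?_, mul_mem (DG_mono x ?_ hg) (DG_mono x ?_ hh)⟩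
    · rw [Finset.coe_union]
      exact union_subset hB hC
    · rw [Finset.coe_union]
      exact subset_union_left
    · rw [Finset.coe_union]
      exact subset_union_right
  | inv g _ hg =>
    obtain ⟨B, hB, hg⟩ := hg
    exact ⟨B, hB, inv_mem hg⟩

theorem DG_fin' (x : ℕ → G) (A : Set ℕ) (T : Finset (DG x A)) :
    ∃ B : Finset ℕ, (B : Set ℕ) ⊆ A ∧ ∀ t ∈ T, (t : G) ∈ DG x (B : Set ℕ) := by
  classical
  choose f hf1 hf2 using fun t : DG x A => DG_fin x A t.2
  refine ⟨T.biUnion f, ?_, fun t ht => DG_mono x ?_ (hf2 t)⟩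
  · intro n hn
    rw [Finset.mem_coe, Finset.mem_biUnion] at hn
    obtain ⟨t, -, hn⟩ := hn
    exact hf1 t hn
  · intro n hn
    rw [Finset.mem_coe, Finset.mem_biUnion]
    exact ⟨t, ht, hn⟩

theorem VSo.fol {H : Subgroup G} (h : VSo H) : Fol H := by
  obtain ⟨S, hS, hSs⟩ := h
  exact fol_of_vso hS hSs

/-- **At most one bad line.** -/
theorem one_bad (hG : ConvergenceAction G X) [Infinite X] (hst : ∀ p : X, VSo (stabilizer G p))
    {x : ℕ → G} (hx : Function.Injective x) {R : Set (Set ℕ)} (hRi : R.Infinite)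
    (hR : R ⊆ Lines X x) {L₁ L₂ : Set ℕ} (hL₁ : L₁ ∈ Lines X x) (hL₂ : L₂ ∈ Lines X x)
    (hne : L₁ ≠ L₂) (h₁ : {s ∈ L₁ | {L ∈ R | s ∉ L}.Infinite}.Finite)
    (h₂ : {s ∈ L₂ | {L ∈ R | s ∉ L}.Infinite}.Finite) : False := by
  classical
  have hinter := lines_inter hG hst hx hL₁ hL₂ hne
  set A₁ : Set ℕ := {s ∈ L₁ | {L ∈ R | s ∉ L}.Finite} with hA₁
  set A₂ : Set ℕ := {s ∈ L₂ | {L ∈ R | s ∉ L}.Finite} with hA₂
  have hinf : ∀ {L : Set ℕ}, L.Infinite → {s ∈ L | {L' ∈ R | s ∉ L'}.Infinite}.Finite →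
      {s ∈ L | {L' ∈ R | s ∉ L'}.Finite}.Infinite := by
    intro L hL h1 h2
    refine hL ((h1.union h2).subset fun s hs => ?_)
    by_cases h3 : {L' ∈ R | s ∉ L'}.Finite
    · exact Or.inr ⟨hs, h3⟩
    · exact Or.inl ⟨hs, h3⟩
  obtain ⟨y₁, E₁, hE₁, rfl, hLi₁⟩ := hL₁
  obtain ⟨y₂, E₂, hE₂, rfl, hLi₂⟩ := hL₂
  have hA₁i : A₁.Infinite := hinf hLi₁ h₁
  have hA₂i : A₂.Infinite := hinf hLi₂ h₂
  set K := DG x (A₁ ∪ A₂) with hK
  have hcomm : ∀ B : Finset ℕ, (B : Set ℕ) ⊆ A₁ ∪ A₂ → VSo (DG x (B : Set ℕ)) := by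
    intro B hB
    have h3 : (⋃ s ∈ B, {L ∈ R | s ∉ L}).Finite := by
      refine B.finite_toSet.biUnion fun s hs => ?_
      rcases hB hs with h | h
      · exact h.2
      · exact h.2
    obtain ⟨L, hL, hLn⟩ := hRi.exists_notMem_finite h3
    have hBL : ∀ s ∈ B, s ∈ L := by
      intro s hs
      by_contra hcon
      exact hLn (mem_biUnion (show s ∈ (B : Set ℕ) from hs) ⟨hL, hcon⟩)
    obtain ⟨y, E, hE, rfl, -⟩ := hR hL
    refine (EE_vso hG hst hE).mono ?_
    rw [DG, Subgroup.closure_le]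
    rintro _ ⟨s, hs, t, ht, rfl⟩
    have e : (x s)⁻¹ * x t = (y⁻¹ * x s)⁻¹ * (y⁻¹ * x t) := by group
    rw [e]
    exact E.mul_mem (E.inv_mem (hBL s hs)) (hBL t ht)
  have hKfol : Fol K := by
    refine fol_of_local K fun T => ?_
    obtain ⟨B, hB, hT⟩ := DG_fin' x (A₁ ∪ A₂) T
    exact ⟨_, DG_mono x hB, hT, (hcomm B hB).fol⟩
  obtain ⟨s₀, hs₀⟩ := hA₁i.nonempty
  have hKE : ((K ⊓ E₁ : Subgroup G) : Set G).Infinite := by
    refine inf_diff hx hA₁i s₀ fun n hn => ⟨?_, ?_⟩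
    · exact Subgroup.subset_closure ⟨s₀, Or.inl hs₀, n, Or.inl hn, rfl⟩
    · have e : (x s₀)⁻¹ * x n = (y₁⁻¹ * x s₀)⁻¹ * (y₁⁻¹ * x n) := by group
      rw [e]
      exact E₁.mul_mem (E₁.inv_mem hs₀.1) hn.1
  have hle : K ≤ E₁ := EE_max' hG hE₁ (exists_fix_fol hG hKfol (hKE.mono inf_le_left)) hKE
  refine hA₂i (hinter.subset fun s hs => ⟨?_, hs.1⟩)
  have h5 : (x s₀)⁻¹ * x s ∈ E₁ :=
    hle (Subgroup.subset_closure ⟨s₀, Or.inl hs₀, s, Or.inr hs, rfl⟩)
  show y₁⁻¹ * x s ∈ E₁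
  have e : y₁⁻¹ * x s = (y₁⁻¹ * x s₀) * ((x s₀)⁻¹ * x s) := by group
  rw [e]
  exact E₁.mul_mem hs₀.1 h5

theorem not_fin_of_con {U V : Set X} {z : X} {h : G} (hd : Disjoint U V) (hzU : z ∉ U)
    (hzV : z ∉ V) (con : ∀ y, y ∉ V → h • y ∈ U) : ¬ IsOfFinOrder h := by
  intro hf
  obtain ⟨n, hn, h1⟩ := isOfFinOrder_iff_pow_eq_one.1 hf
  obtain ⟨m, rfl⟩ : ∃ m, n = m + 1 := ⟨n - 1, by omega⟩
  have h2 : ∀ n : ℕ, h ^ (n + 1) • z ∈ U := by
    intro n
    induction n with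
    | zero => rw [zero_add, pow_one]; exact con z hzV
    | succ n ih =>
      rw [pow_succ', mul_smul]
      exact con _ fun h => Set.disjoint_left.1 hd ih h
  have := h2 m
  rw [h1, one_smul] at this
  exact hzU this

theorem exists_third [Infinite X] (a b : X) : ∃ z : X, z ≠ a ∧ z ≠ b := by
  classical
  obtain ⟨z, hz⟩ := (Set.infinite_univ (α := X)).exists_notMem_finite (Set.toFinite ({a, b} : Set X))
  exact ⟨z, fun h => hz.2 (by rw [h]; exact Or.inl rfl), fun h => hz.2 (by rw [h]; exact Or.inr rfl)⟩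

theorem torsion_stab (hG : ConvergenceAction G X) [Infinite X] {p : X}
    (hp : (stabilizer G p : Set G).Infinite)
    (ht : ∀ e ∈ Subgroup.normalizer (stabilizer G p : Set G), IsOfFinOrder e) {e : G}
    (he : e ∈ Subgroup.normalizer (stabilizer G p : Set G)) : e • p = p := by
  by_contra hne
  have h1 := mem_norm.1 he
  obtain ⟨z, U, V, h, L⟩ := exists_lox hG (p := p) (q := e • p) (Ne.symm hne) (by
    rw [h1, inf_idem]
    exact hp)
  exact L.not_fin (ht h (Subgroup.le_normalizer (mem_stabilizer_iff.2 L.fp)))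

/-- **Deep elements of torsion lines.** -/
theorem deep (hG : ConvergenceAction G X) [Infinite X] {x : ℕ → G} (hx : Function.Injective x)
    {y : G} {E : Subgroup G} (hE : E ∈ EE G X) (ht : ∀ e ∈ E, IsOfFinOrder e) {s : ℕ}
    (hs : s ∉ Ls x y E) : {n ∈ Ls x y E | IsOfFinOrder ((x s)⁻¹ * x n)}.Finite := by
  classical
  by_contra hinf
  obtain ⟨p, hp, rfl⟩ := hE
  have hfix : ∀ e ∈ Subgroup.normalizer (stabilizer G p : Set G), e • p = p := fun e he =>
    torsion_stab hG hp ht he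
  set T := {n ∈ Ls x y (Subgroup.normalizer (stabilizer G p : Set G)) |
    IsOfFinOrder ((x s)⁻¹ * x n)} with hT
  haveI : Infinite T := Set.Infinite.to_subtype hinf
  let ν : ℕ ↪o ℕ := Nat.orderEmbeddingOfSet T
  have hν : ∀ n, ν n ∈ T := fun n => by
    have : ν n ∈ Set.range (Nat.orderEmbeddingOfSet T) := ⟨n, rfl⟩
    rwa [Nat.orderEmbeddingOfSet_range] at this
  obtain ⟨φ, hφ, a, b, hab⟩ := hG.2 (fun n => y⁻¹ * x (ν n)) fun i j hij =>
    ν.injective (hx (mul_left_cancel hij))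
  have hab' : Lm (fun n => y⁻¹ * x (ν (φ n))) a b := hab
  have hfp : ∀ n, (y⁻¹ * x (ν n)) • p = p := fun n => hfix _ (hν n).1
  have hab_eq : a = b := by
    by_contra hne
    obtain ⟨z, hza, hzb⟩ := exists_third a b
    obtain ⟨U, V, W, hU, hV, hW, d1, d2, d3⟩ := three_disjoint hne (Ne.symm hza) (Ne.symm hzb)
    obtain ⟨n, hn⟩ := (hab' U hU V hV).exists
    have hzW := mem_of_mem_nhds hW
    exact not_fin_of_con d1 (fun h => Set.disjoint_left.1 d2 h hzW)
      (fun h => Set.disjoint_left.1 d3 h hzW) hn (ht _ (hν (φ n)).1)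
  have hpb : p = b := by
    by_contra hne
    exact hne ((hab'.fix hne fun n => hfp _).trans hab_eq)
  subst hab_eq
  subst hpb
  set c : X := ((x s)⁻¹ * y) • p with hc
  have hcp : c ≠ p := by
    intro h1
    apply hs
    show y⁻¹ * x s ∈ Subgroup.normalizer (stabilizer G p : Set G)
    refine Subgroup.le_normalizer (mem_stabilizer_iff.2 ?_)
    have h2 : (y⁻¹ * x s) • p = (y⁻¹ * x s) • c := by rw [h1]
    rw [h2, hc, ← mul_smul]
    have e : y⁻¹ * x s * ((x s)⁻¹ * y) = 1 := by group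
    rw [e, one_smul]
  obtain ⟨z, hzc, hzp⟩ := exists_third c p
  obtain ⟨U, V, W, hU, hV, hW, d1, d2, d3⟩ := three_disjoint hcp (Ne.symm hzc) (Ne.symm hzp)
  have hU' : {w | ((x s)⁻¹ * y) • w ∈ U} ∈ 𝓝 p :=
    (hG.1 ((x s)⁻¹ * y)).continuousAt.preimage_mem_nhds hU
  obtain ⟨n, hn⟩ := (hab' _ hU' V hV).exists
  have hzW := mem_of_mem_nhds hW
  refine not_fin_of_con (h := (x s)⁻¹ * x (ν (φ n))) d1 (fun h => Set.disjoint_left.1 d2 h hzW)
    (fun h => Set.disjoint_left.1 d3 h hzW) (fun w hw => ?_) (hν (φ n)).2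
  have h1 := hn w hw
  have e : (x s)⁻¹ * x (ν (φ n)) = ((x s)⁻¹ * y) * (y⁻¹ * x (ν (φ n))) := by group
  rw [e, mul_smul]
  exact h1

end Pool.Agent.Helper29.RH
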