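import Pool.Agent.Helper29.RH.Unc

/-! The dichotomy for all countable convergence groups with virtually solvable stabilisers. -/

set_option autoImplicit false
set_option linter.unusedSectionVars false
set_option linter.style.haveILetI false

namespace Pool.Agent.Helper29.RH

open Filter Topology Set MulAction
open Pool.Agent.W726.NS (ConvergenceAction)

variable {G X : Type} [Group G] [TopologicalSpace X] [CompactSpace X] [T2Space X] [MulAction G X]

/-- the torsion lines -/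
def TL (X : Type) [MulAction G X] (x : ℕ → G) : Set (Set ℕ) :=
  {L | ∃ y : G, ∃ E ∈ EE G X, L = Ls x y E ∧ L.Infinite ∧ ∀ e ∈ E, IsOfFinOrder e}

/-- the other lines -/
def NL (X : Type) [MulAction G X] (x : ℕ → G) : Set (Set ℕ) :=
  {L | ∃ y : G, ∃ E ∈ EE G X, L = Ls x y E ∧ L.Infinite ∧ ∃ e ∈ E, ¬ IsOfFinOrder e}

theorem TL_le (x : ℕ → G) : TL X x ⊆ Lines X x := fun _ ⟨y, E, hE, h1, h2, _⟩ => ⟨y, E, hE, h1, h2⟩

theorem NL_le (x : ℕ → G) : NL X x ⊆ Lines X x := fun _ ⟨y, E, hE, h1, h2, _⟩ => ⟨y, E, hE, h1, h2⟩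

theorem lines_split (x : ℕ → G) : Lines X x = TL X x ∪ NL X x := by
  classical
  refine Subset.antisymm ?_ (union_subset (TL_le x) (NL_le x))
  rintro L ⟨y, E, hE, h1, h2⟩
  by_cases h : ∀ e ∈ E, IsOfFinOrder e
  · exact Or.inl ⟨y, E, hE, h1, h2, h⟩
  · push Not at h
    exact Or.inr ⟨y, E, hE, h1, h2, h⟩

theorem NL_countable [Countable G] (hG : ConvergenceAction G X) [Infinite X]
    (hst : ∀ p : X, VSo (stabilizer G p)) (x : ℕ → G) : (NL X x).Countable := by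
  classical
  set 𝓕 : Set (Subgroup G) := {E | E ∈ EE G X ∧ ∃ e ∈ E, ¬ IsOfFinOrder e} with h𝓕
  have hF : 𝓕.Countable := by
    have hch : ∀ E : Subgroup G, ∃ e : G, E ∈ 𝓕 → e ∈ E ∧ ¬ IsOfFinOrder e := by
      intro E
      by_cases h : E ∈ 𝓕
      · obtain ⟨-, e, he, he'⟩ := h
        exact ⟨e, fun _ => ⟨he, he'⟩⟩
      · exact ⟨1, fun h' => absurd h' h⟩
    choose f hf using hch
    have hinj : InjOn f 𝓕 := by
      intro E hE E' hE' h
      obtain ⟨h1, h2⟩ := hf E hE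
      obtain ⟨h3, -⟩ := hf E' hE'
      rw [← h] at h3
      refine EE_eq hG hst hE.1 hE'.1 ?_
      have hz : ((Subgroup.zpowers (f E) : Subgroup G) : Set G).Infinite := fun h4 =>
        h2 (finite_zpowers.1 h4)
      refine hz.mono ?_
      have : Subgroup.zpowers (f E) ≤ E ⊓ E' := by
        rw [Subgroup.zpowers_le]
        exact ⟨h1, h3⟩
      exact this
    exact (mapsTo_univ f 𝓕).countable_of_injOn hinj countable_univ
  have h1 : NL X x ⊆ ⋃ E ∈ 𝓕, range (fun y : G => Ls x y E) := by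
    rintro L ⟨y, E, hE, rfl, -, he⟩
    exact mem_biUnion (show E ∈ 𝓕 from ⟨hE, he⟩) ⟨y, rfl⟩
  exact (hF.biUnion fun E _ => countable_range _).mono h1

/-- one step of the construction -/
theorem step (hG : ConvergenceAction G X) [Infinite X] (hst : ∀ p : X, VSo (stabilizer G p))
    {x : ℕ → G} (hx : Function.Injective x) (f : ℕ → Set ℕ)
    (hf : ∀ i, f i ∈ NL X x ∨ f i = ∅) (Q : Finset ℕ) (R : Set (Set ℕ)) (hR : R ⊆ TL X x)
    (hRi : R.Infinite) (hQ : ∀ L ∈ R, ∀ s ∈ Q, s ∉ L) (j : ℕ) :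
    ∃ s : ℕ, (∀ s' ∈ Q, s' < s) ∧ (∀ s' ∈ Q, ¬ IsOfFinOrder ((x s')⁻¹ * x s)) ∧
      (∀ i < j, s ∉ f i) ∧ {L ∈ R | s ∉ L}.Infinite := by
  classical
  -- a line which is not bad
  have hnb : ∃ L ∈ R, {s ∈ L | {L' ∈ R | s ∉ L'}.Infinite}.Infinite := by
    obtain ⟨L₁, hL₁⟩ := hRi.nonempty
    obtain ⟨L₂, hL₂, hne⟩ := hRi.exists_notMem_finite (finite_singleton L₁)
    by_contra hcon
    push Not at hcon
    exact one_bad hG hst hx hRi (hR.trans (TL_le x)) (TL_le x (hR hL₁)) (TL_le x (hR hL₂))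
      (fun h => hne h.symm) (hcon L₁ hL₁) (hcon L₂ hL₂)
  obtain ⟨L, hL, hLi⟩ := hnb
  have hLT := hR hL
  have hQL := hQ L hL
  have c1 : (⋃ s' ∈ Q, {n ∈ L | IsOfFinOrder ((x s')⁻¹ * x n)}).Finite := by
    refine Q.finite_toSet.biUnion fun s' hs' => ?_
    obtain ⟨y, E, hE, rfl, -, ht⟩ := hLT
    exact deep hG hx hE ht (hQL s' hs')
  have c2 : (⋃ i ∈ Finset.range j, (L ∩ f i)).Finite := by
    refine (Finset.finite_toSet _).biUnion fun i _ => ?_
    rcases hf i with h | h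
    · refine lines_inter hG hst hx (TL_le x hLT) (NL_le x h) ?_
      rintro rfl
      obtain ⟨y, E, hE, e1, h1, ht⟩ := hLT
      obtain ⟨y', E', hE', e2, -, e, he, hne⟩ := h
      have h3 := (line_eq hG hst hx hE hE' (y := y) (y' := y') (by
        rw [← e1, ← e2, inter_self]
        exact h1)).1
      exact hne (ht e (h3 ▸ he))
    · rw [h, inter_empty]
      exact finite_empty
  have c3 : (⋃ s' ∈ Q, Iic s').Finite := Q.finite_toSet.biUnion fun s' _ => finite_Iic s'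
  obtain ⟨s, hs, hns⟩ := hLi.exists_notMem_finite ((c1.union c2).union c3)
  simp only [mem_union, not_or] at hns
  obtain ⟨⟨n1, n2⟩, n3⟩ := hns
  refine ⟨s, fun s' hs' => ?_, fun s' hs' h => ?_, fun i hi h => ?_, hs.2⟩
  · by_contra hcon
    exact n3 (mem_biUnion (show s' ∈ (Q : Set ℕ) from hs') (not_lt.1 hcon))
  · exact n1 (mem_biUnion (show s' ∈ (Q : Set ℕ) from hs') ⟨hs.1, h⟩)
  · exact n2 (mem_biUnion (show i ∈ ((Finset.range j : Finset ℕ) : Set ℕ) from by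
      rw [Finset.mem_coe, Finset.mem_range]; exact hi) ⟨hs.1, h⟩)

/-- the torsion lines are finitely many -/
theorem TL_finite [Countable G] (hG : ConvergenceAction G X) [Infinite X]
    (hst : ∀ p : X, VSo (stabilizer G p)) {x : ℕ → G} (hx : Function.Injective x)
    (ha : ∀ S : Set ℕ, S.Infinite → ∃ L ∈ Lines X x, (S ∩ L).Infinite) : (TL X x).Finite := by
  classical
  by_contra hinf
  -- an enumeration of the other lines
  obtain ⟨f, hf, hf'⟩ : ∃ f : ℕ → Set ℕ, (∀ i, f i ∈ NL X x ∨ f i = ∅) ∧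
      ∀ L ∈ NL X x, ∃ i, f i = L := by
    rcases (NL X x).eq_empty_or_nonempty with h | h
    · exact ⟨fun _ => ∅, fun _ => Or.inr rfl, fun L hL => by rw [h] at hL; exact absurd hL (by simp)⟩
    · obtain ⟨f, hf⟩ := (NL_countable hG hst x).exists_eq_range h
      refine ⟨f, fun i => Or.inl (by rw [hf]; exact ⟨i, rfl⟩), fun L hL => ?_⟩
      rw [hf] at hL
      obtain ⟨i, hi⟩ := hL
      exact ⟨i, hi⟩
  -- the states
  let St : Type := {P : Finset ℕ × Set (Set ℕ) // P.2 ⊆ TL X x ∧ P.2.Infinite ∧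
    ∀ L ∈ P.2, ∀ s ∈ P.1, s ∉ L}
  have hstep : ∀ (P : St) (j : ℕ), ∃ s : ℕ, (∀ s' ∈ P.1.1, s' < s) ∧
      (∀ s' ∈ P.1.1, ¬ IsOfFinOrder ((x s')⁻¹ * x s)) ∧ (∀ i < j, s ∉ f i) ∧
      {L ∈ P.1.2 | s ∉ L}.Infinite := fun P j =>
    step hG hst hx f hf P.1.1 P.1.2 P.2.1 P.2.2.1 P.2.2.2 j
  choose s h1 h2 h3 h4 using hstep
  let next : St → ℕ → St := fun P j => ⟨(insert (s P j) P.1.1, {L ∈ P.1.2 | s P j ∉ L}),
    fun L hL => P.2.1 hL.1, h4 P j, fun L hL t ht => by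
      rcases Finset.mem_insert.1 ht with rfl | ht
      · exact hL.2
      · exact P.2.2.2 L hL.1 t ht⟩
  let seq : ℕ → St := fun k => Nat.rec (⟨(∅, TL X x), Subset.rfl, hinf, fun L _ s hs => by
    simp at hs⟩ : St) (fun j P => next P j) k
  set σ : ℕ → ℕ := fun j => s (seq j) j with hσ
  have hseq : ∀ j, (seq (j + 1)).1.1 = insert (σ j) (seq j).1.1 := fun j => rfl
  have hmem : ∀ i j, i < j → σ i ∈ (seq j).1.1 := by
    intro i j hij
    induction j with
    | zero => omega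
    | succ j ih =>
      rw [hseq, Finset.mem_insert]
      rcases Nat.lt_succ_iff_lt_or_eq.1 hij with h | h
      · exact Or.inr (ih h)
      · left
        rw [h]
  have hlt : ∀ i j, i < j → σ i < σ j := fun i j hij => h1 (seq j) j _ (hmem i j hij)
  have hinjσ : Function.Injective σ := (strictMono_nat_of_lt_succ fun n => hlt n (n + 1)
    (Nat.lt_succ_self n)).injective
  obtain ⟨L, hL, hSL⟩ := ha (range σ) (infinite_range_of_injective hinjσ)
  rw [lines_split] at hL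
  rcases hL with hL | hL
  · obtain ⟨y, E, hE, rfl, -, ht⟩ := hL
    obtain ⟨_, ⟨i, rfl⟩, hi⟩ := hSL.nonempty
    obtain ⟨_, ⟨⟨j, rfl⟩, hj⟩, hne⟩ := hSL.exists_notMem_finite (finite_singleton (σ i))
    have hij : i ≠ j := fun h => hne (by rw [h]; rfl)
    have key : ∀ i j, i < j → σ i ∈ Ls x y E → σ j ∈ Ls x y E → False := by
      intro i j hij hi hj
      refine h2 (seq j) j _ (hmem i j hij) (ht _ ?_)
      have e : (x (σ i))⁻¹ * x (σ j) = (y⁻¹ * x (σ i))⁻¹ * (y⁻¹ * x (σ j)) := by group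
      show (x (σ i))⁻¹ * x (σ j) ∈ E
      rw [e]
      exact E.mul_mem (E.inv_mem hi) hj
    rcases lt_or_gt_of_ne hij with h | h
    · exact key i j h hi hj
    · exact key j i h hj hi
  · obtain ⟨i, rfl⟩ := hf' L hL
    apply hSL
    refine ((Finset.range (i + 1)).finite_toSet.image σ).subset ?_
    rintro _ ⟨⟨j, rfl⟩, hj⟩
    refine ⟨j, ?_, rfl⟩
    rw [Finset.mem_coe, Finset.mem_range]
    by_contra hcon
    exact h3 (seq j) j i (by omega) hj

/-- **The dichotomy.** -/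
theorem dich [Countable G] (hG : ConvergenceAction G X) [Infinite X]
    (hst : ∀ p : X, VSo (stabilizer G p)) (σ : MulAut G) (g : G)
    (hx : Function.Injective (fun n : ℕ => (σ ^ n) g)) :
    (∃ S : Set ℕ, S.Infinite ∧ ∀ (p : X) (y : G), {n ∈ S | y⁻¹ * (σ ^ n) g ∈ stabilizer G p}.Finite) ∨
      ∃ m : ℕ, 0 < m ∧ ∃ E : Subgroup G, VSo E ∧ (∀ z, z ∈ E ↔ (σ ^ m) z ∈ E) ∧
        g⁻¹ * (σ ^ m) g ∈ E := by
  classical
  by_cases hgood : ∃ S : Set ℕ, S.Infinite ∧ ∀ (p : X) (y : G),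
    {n ∈ S | y⁻¹ * (σ ^ n) g ∈ stabilizer G p}.Finite
  · exact Or.inl hgood
  right
  push Not at hgood
  set x : ℕ → G := fun n : ℕ => (σ ^ n) g with hxdef
  have ha : ∀ S : Set ℕ, S.Infinite → ∃ L ∈ Lines X x, (S ∩ L).Infinite := by
    intro S hS
    obtain ⟨p, y, hy⟩ := hgood S hS
    have hy' : {n ∈ S | y⁻¹ * x n ∈ stabilizer G p}.Infinite := hy
    obtain ⟨n0, hn0⟩ := hy'.nonempty
    have h1 : (stabilizer G p : Set G).Infinite := by
      refine inf_diff hx hy' n0 fun n hn => ?_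
      have e : (x n0)⁻¹ * x n = (y⁻¹ * x n0)⁻¹ * (y⁻¹ * x n) := by group
      rw [e]
      exact mul_mem (inv_mem hn0.2) hn.2
    have hE : Subgroup.normalizer (stabilizer G p : Set G) ∈ EE G X := ⟨p, h1, rfl⟩
    have h2 : {n ∈ S | y⁻¹ * x n ∈ stabilizer G p} ⊆
        S ∩ Ls x y (Subgroup.normalizer (stabilizer G p : Set G)) := fun n hn =>
      ⟨hn.1, Subgroup.le_normalizer hn.2⟩
    exact ⟨_, ⟨y, _, hE, rfl, hy'.mono (h2.trans inter_subset_right)⟩, hy'.mono h2⟩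
  obtain ⟨L, hL, -⟩ := ha univ infinite_univ
  have hc : (Lines X x).Countable := by
    rw [lines_split]
    exact (TL_finite hG hst hx ha).countable.union (NL_countable hG hst x)
  exact of_finite_lines hG hst σ g hx (lines_finite hG hst hx hc ha) ⟨L, hL⟩

end Pool.Agent.Helper29.RH
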